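import Pool.Agent.Q173.JL.Apx3
import Pool.Agent.Y745.SW.Final
import Pool.Agent.Y746.OJ.RV
import Pool.Agent.Y815.OJ.AP
import Pool.Agent.Y37.OJ.GA
import Pool.Agent.Y923.OJ.VH
import Pool.Agent.Y949.OJ.CT
import Pool.Agent.Y153.OJ.LI
import Pool.Agent.Y340.OJ.BD

set_option autoImplicit false

/-! The joint law of the derivative and of the displacement at the simple zeros, up to height `X`. -/

namespace Pool.Agent.Q173.JL

open Filter Topology MeasureTheory Complex H370 TH803UC TH803CL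
open Pool.Agent.Y745.SW

noncomputable section

/-- the normalised displacement at height `t` -/
def nd (t y : ℝ) : ℝ := Real.sqrt 2 * (y / Real.sqrt (Real.log (Real.log t)))

/-- changing the height in the normalisation -/
lemma nd_ev {a a' b b' : ℝ} (ha : a < a') (hb : b' < b) : ∀ᶠ T : ℝ in atTop, ∀ t : ℝ, T < t → t ≤ 2 * T →
    ∀ y : ℝ, a' < nd T y → nd T y < b' → a < nd t y ∧ nd t y < b := by
  set m := min (a' - a) (b - b') with hm
  have hm0 : 0 < m := by rw [hm, lt_min_iff]; constructor <;> linarith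
  set M := |a'| + |b'| + 2 with hM
  have hM0 : 0 < M := by positivity
  filter_upwards [loglog_tendsto.eventually_ge_atTop 1, Real.tendsto_log_atTop.eventually_ge_atTop (M / m + 1),
    eventually_ge_atTop 10] with T h1 h2 h3
  intro t ht1 ht2 y hy1 hy2
  set L := Real.log T with hL
  have hMm : 0 < M / m := by positivity
  have hL0 : 0 < L := by linarith
  have hT0 : 0 < T := by linarith
  have hlt1 : L ≤ Real.log t := Real.log_le_log hT0 ht1.le
  have hlt2 : Real.log t ≤ L + 1 := by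
    have h4 := Real.log_le_log (by linarith) ht2
    rw [Real.log_mul (by norm_num) hT0.ne', ← hL] at h4
    have := Real.log_two_lt_d9
    linarith
  set ℓ := Real.log L with hℓ
  set ℓ' := Real.log (Real.log t) with hℓ'
  have hη0 : 0 ≤ ℓ' - ℓ := by
    have := Real.log_le_log hL0 hlt1
    linarith
  have hη1 : ℓ' - ℓ ≤ 1 / L := by
    have h5 : ℓ' ≤ Real.log (L + 1) := Real.log_le_log (by linarith) hlt2
    have h6 : Real.log (L + 1) = ℓ + Real.log (1 + 1 / L) := by
      rw [hℓ, ← Real.log_mul hL0.ne' (by positivity)]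
      congr 1
      field_simp
    have h7 : Real.log (1 + 1 / L) ≤ 1 / L := by
      have := Real.log_le_sub_one_of_pos (show (0:ℝ) < 1 + 1 / L by positivity)
      linarith
    linarith
  set S := Real.sqrt ℓ with hS
  set S' := Real.sqrt ℓ' with hS'
  have hS1 : 1 ≤ S := by rw [hS, Real.one_le_sqrt]; exact h1
  have hSS : S ≤ S' := Real.sqrt_le_sqrt (by linarith)
  have hS0 : 0 < S := by linarith
  have hS0' : 0 < S' := by linarith
  have hsq : S ^ 2 = ℓ := Real.sq_sqrt (by linarith)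
  have hsq' : S' ^ 2 = ℓ' := Real.sq_sqrt (by linarith)
  set x := nd T y with hx
  have hx1 : x = Real.sqrt 2 * y / S := by rw [hx]; unfold nd; rw [← hL, ← hℓ, ← hS]; ring
  have hx2 : nd t y = x * (S / S') := by
    rw [hx1]; unfold nd; rw [← hℓ', ← hS']
    field_simp
  have hxM : |x| ≤ |a'| + |b'| := by
    rw [abs_le]
    constructor
    · linarith [neg_abs_le a', abs_nonneg b']
    · linarith [le_abs_self b', abs_nonneg a']
  have hdiff : |nd t y - x| ≤ M * (ℓ' - ℓ) := by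
    have e : nd t y - x = -(x * ((S' - S) / S')) := by
      rw [hx2]; field_simp; ring
    have e1 : |(S' - S) / S'| ≤ ℓ' - ℓ := by
      rw [abs_of_nonneg (div_nonneg (by linarith) hS0'.le), div_le_iff₀ hS0']
      nlinarith
    rw [e, abs_neg, abs_mul]
    have e3 : |x| * |(S' - S) / S'| ≤ (|a'| + |b'|) * (ℓ' - ℓ) := mul_le_mul hxM e1 (abs_nonneg _) (by positivity)
    rw [hM]
    nlinarith
  have hfin : M * (ℓ' - ℓ) < m := by
    have h8 : M * (ℓ' - ℓ) ≤ M * (1 / L) := mul_le_mul_of_nonneg_left hη1 hM0.le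
    have h9 : M * (1 / L) < m := by
      rw [mul_one_div, div_lt_iff₀ hL0]
      have : M / m < L := by linarith
      rw [div_lt_iff₀ hm0] at this
      linarith
    linarith
  have h10 := abs_le.1 hdiff
  have hm1 : m ≤ a' - a := min_le_left _ _
  have hm2 : m ≤ b - b' := min_le_right _ _
  constructor <;> linarith [h10.1, h10.2]

/-- the zeros that are counted -/
def Q2 (a b a' b' δ : ℝ) (s : ℂ) : Prop := s.re = 1 / 2 ∧ mult riemannZeta s = 1 ∧ 2 < s.im ∧
  (∀ s' : ℂ, riemannZeta s' = 0 → 0 < s'.re → s'.re < 1 → s' ≠ s → δ / Real.log s.im ≤ ‖s' - s‖) ∧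
  (a < nrm s.im (Real.log ‖deriv riemannZeta s‖) ∧ nrm s.im (Real.log ‖deriv riemannZeta s‖) < b) ∧
  (a' < nd s.im (Dd s.im) ∧ nd s.im (Dd s.im) < b')

/-- **the joint law, lower half** -/
theorem law2 (hζ : GoodL riemannZeta) (hBLK : P_BLK) (hFM : P_FM) (hTI : P_TI) (hBV : P_BV) (hDER : P_DER)
    (hApx : Apx (fun _ t => Dd t)) {a b a' b' ε : ℝ} (hab : a < b) (hcd : a' < b') (hε : 0 < ε) :
    ∃ δ : ℝ, 0 < δ ∧ ∃ X0 : ℝ, ∀ X : ℝ, X0 ≤ X →
    ((2 - cMTinv) * (Gm01 a b * Gm01 a' b') - ε) * (NN riemannZeta 0 X : ℝ) ≤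
      (PQn (Q2 a b a' b' δ) 0 X : ℝ) := by
  classical
  by_cases hpos : (2 - cMTinv) * (Gm01 a b * Gm01 a' b') - ε < 0
  · refine ⟨1, one_pos, 0, fun X _ => ?_⟩
    have h1 : ((2 - cMTinv) * (Gm01 a b * Gm01 a' b') - ε) * (NN riemannZeta 0 X : ℝ) ≤ 0 :=
      mul_nonpos_of_nonpos_of_nonneg hpos.le (Nat.cast_nonneg _)
    exact h1.trans (Nat.cast_nonneg _)
  push Not at hpos
  obtain ⟨θ, hθ, hab', hG⟩ := Gm01_shrink hab (show 0 < ε / 8 by positivity)
  obtain ⟨θ', hθ', hcd', hG'⟩ := Gm01_shrink hcd (show 0 < ε / 8 by positivity)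
  obtain ⟨δ, hδ, hδ1, hev⟩ := block_law2 hζ hBLK hFM hTI hBV hDER hApx hab' hcd' (show 0 < ε / 4 by positivity)
  have hnrm := nrm_ev (a := a) (a' := a + θ) (b := b) (b' := b - θ) (by linarith) (by linarith)
  have hnd := nd_ev (a := a') (a' := a' + θ') (b := b') (b' := b' - θ') (by linarith) (by linarith)
  obtain ⟨C1, T1, hC1, hT1, hnn⟩ := nn_asymp hζ
  have hpi := Real.pi_pos
  have hcM1 : 1 < cMTinv := cMTinv_gt_one
  have hcM2 := cMTinv_lt
  set GX : ℝ := Gm01 a b * Gm01 a' b' with hGX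
  have hGX0 : 0 ≤ GX := mul_nonneg (Gm01_nonneg _ _) (Gm01_nonneg _ _)
  have hGX1 : GX ≤ 1 := mul_le_one₀ (Gm01_le _ _) (Gm01_nonneg _ _) (Gm01_le _ _)
  set GY : ℝ := Gm01 (a + θ) (b - θ) * Gm01 (a' + θ') (b' - θ') with hGY
  have hGXY : GX - ε / 4 ≤ GY := by
    have g1 := Gm01_le a b
    have g2 := Gm01_nonneg a b
    have g3 := Gm01_le (a' + θ') (b' - θ')
    have g4 := Gm01_nonneg (a' + θ') (b' - θ')
    rw [hGY, hGX]
    have h1 : Gm01 a b * (Gm01 a' b' - ε / 8) ≤ Gm01 a b * Gm01 (a' + θ') (b' - θ') :=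
      mul_le_mul_of_nonneg_left hG' g2
    have h2 : (Gm01 a b - ε / 8) * Gm01 (a' + θ') (b' - θ') ≤ Gm01 (a + θ) (b - θ) * Gm01 (a' + θ') (b' - θ') :=
      mul_le_mul_of_nonneg_right hG g4
    nlinarith
  have hblock : ∀ᶠ T : ℝ in atTop, ((2 - cMTinv) * GX - 3 / 4 * ε) * (NN riemannZeta T (2 * T) : ℝ) ≤
      (PQn (Q2 a b a' b' δ) T (2 * T) : ℝ) := by
    filter_upwards [hev, hnrm, eventually_ge_atTop T1, Real.tendsto_log_atTop.eventually_ge_atTop
      (2 * Real.pi * C1 * (16 / ε + 2) + 1), eventually_ge_atTop 10, hnd] with T t1 t2 t3 t4 t5 t6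
    obtain ⟨U1, U2, hU1, hU1', hU2, hU2', hcount⟩ := t1
    have hT0 : 0 < T := by linarith
    set L := Real.log T with hL
    have hL0 : 0 < L := by
      have : 0 < 2 * Real.pi * C1 * (16 / ε + 2) := by positivity
      linarith
    have hL1 : 1 ≤ L := by
      have : 0 < 2 * Real.pi * C1 * (16 / ε + 2) := by positivity
      linarith
    set good := (isoS U1 U2 (δ / L)).filter (fun s => T + 2 ≤ s.im ∧ s.im ≤ 2 * T - 2 ∧
        (a + θ < nrm T (Real.log ‖deriv riemannZeta s‖) ∧ nrm T (Real.log ‖deriv riemannZeta s‖) < b - θ) ∧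
        (a' + θ' < Real.sqrt 2 * (Dd s.im / Real.sqrt (Real.log L)) ∧
          Real.sqrt 2 * (Dd s.im / Real.sqrt (Real.log L)) < b' - θ')) with hgood
    have hle : (good.card : ℝ) ≤ PQn (Q2 a b a' b' δ) T (2 * T) := by
      have : good.card ≤ PQn (Q2 a b a' b' δ) T (2 * T) := by
        unfold PQn
        rw [← Set.ncard_coe_finset]
        refine Set.ncard_le_ncard ?_ ((zset_finite hζ T (2 * T) (by linarith)).subset fun s hs => hs.1)
        intro s hs
        rw [Finset.mem_coe, hgood, Finset.mem_filter] at hs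
        obtain ⟨hsI, hs1, hs2, ⟨hs3, hs4⟩, hs5, hs6⟩ := hs
        unfold isoS at hsI
        rw [Finset.mem_filter] at hsI
        obtain ⟨hsZ, hre, hmul, hiso⟩ := hsI
        have hsz := (mem_Zf hζ (by linarith : 1 ≤ U1)).mp hsZ
        have hy := t2 s.im (by linarith) (by linarith) _ hs3 hs4
        have hy2 := t6 s.im (by linarith) (by linarith) (Dd s.im) hs5 hs6
        refine ⟨⟨hsz.1, hsz.2.1, by linarith, by linarith, hsz.2.2.2.2⟩, hre, hmul, by linarith, ?_,
          ⟨hy.1, hy.2⟩, hy2.1, hy2.2⟩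
        intro s' h1 h2 h3 h4
        by_contra hcon
        push Not at hcon
        have hlog : L ≤ Real.log s.im := Real.log_le_log hT0 (by linarith)
        have h5 : δ / Real.log s.im ≤ δ / L := div_le_div_of_nonneg_left hδ.le hL0 hlog
        have h6 : δ / L ≤ 1 := by rw [div_le_one hL0]; linarith
        have h7 : ‖s' - s‖ < 1 := by linarith
        have h8 := (Complex.abs_im_le_norm _).trans_lt h7
        rw [Complex.sub_im, abs_lt] at h8
        have h9 : s' ∈ Zf riemannZeta U1 U2 :=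
          (mem_Zf hζ (by linarith : 1 ≤ U1)).mpr ⟨h2, h3, by linarith [h8.1], by linarith [h8.2], h1⟩
        have h10 := hiso s' h9 h4
        rw [norm_sub_rev] at h10
        linarith
      exact_mod_cast this
    refine le_trans ?_ (hcount.trans hle)
    have hnn' := (abs_le.1 (hnn T t3 T (2 * T) le_rfl (by linarith) (by linarith) le_rfl)).2
    have hnn'' : (NN riemannZeta T (2 * T) : ℝ) ≤ T * (L / (2 * Real.pi)) + C1 * T := by
      have e : T * L / (2 * Real.pi) = T * (L / (2 * Real.pi)) := by ring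
      linarith
    have hk : 0 ≤ (2 - cMTinv) * GX - 3 / 4 * ε := by linarith
    have hk1 : (2 - cMTinv) * GX - 3 / 4 * ε ≤ 1 := by nlinarith
    have hCT : C1 * T ≤ ε / 4 * (T * (L / (2 * Real.pi))) := by
      have h1 : 2 * Real.pi * C1 * (16 / ε) ≤ L := by
        have : 0 < 2 * Real.pi * C1 * 2 := by positivity
        nlinarith
      have h2 : C1 ≤ ε / 4 * (L / (2 * Real.pi)) := by
        rw [mul_div_assoc', le_div_iff₀ (by positivity)]
        have h3 : 2 * Real.pi * C1 * (16 / ε) = (C1 * (2 * Real.pi)) * 16 / ε := by ring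
        rw [h3, div_le_iff₀ hε] at h1
        have : 0 < C1 * (2 * Real.pi) := by positivity
        nlinarith
      nlinarith
    have hX0 : 0 ≤ T * (L / (2 * Real.pi)) := by positivity
    have hGG : (2 - cMTinv) * GX - 1 / 2 * ε ≤ (2 - cMTinv) * GY - ε / 4 := by
      have h1 : (2 - cMTinv) * (GX - ε / 4) ≤ (2 - cMTinv) * GY :=
        mul_le_mul_of_nonneg_left hGXY (by linarith)
      nlinarith
    calc ((2 - cMTinv) * GX - 3 / 4 * ε) * (NN riemannZeta T (2 * T) : ℝ) ≤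
        ((2 - cMTinv) * GX - 3 / 4 * ε) * (T * (L / (2 * Real.pi)) + C1 * T) :=
          mul_le_mul_of_nonneg_left hnn'' hk
      _ ≤ ((2 - cMTinv) * GX - 3 / 4 * ε) * (T * (L / (2 * Real.pi))) + 1 * (C1 * T) := by
          rw [mul_add]
          have : 0 ≤ C1 * T := by positivity
          gcongr
      _ ≤ ((2 - cMTinv) * GX - 3 / 4 * ε) * (T * (L / (2 * Real.pi))) +
          ε / 4 * (T * (L / (2 * Real.pi))) := by linarith
      _ = ((2 - cMTinv) * GX - 1 / 2 * ε) * (T * (L / (2 * Real.pi))) := by ring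
      _ ≤ _ := mul_le_mul_of_nonneg_right hGG hX0
  obtain ⟨T0, hT0⟩ := Filter.eventually_atTop.1 hblock
  refine ⟨δ, hδ, ?_⟩
  exact dyadic_zero hζ zeta_zeros_finite (PQn (Q2 a b a' b' δ)) (fun a b c h1 h2 h3 => PQn_add hζ _ h1 h2 h3)
    (fun a X ha => PQn_mono _ a X ha) ((2 - cMTinv) * GX - 3 / 4 * ε) ((2 - cMTinv) * GX - ε) T0
    hpos (by linarith) hT0

theorem a_SF : Pool.Agent.Y746.OJ.S_SF := Pool.Agent.Y923.OJ.t_SF' Pool.Agent.Y949.OJ.t_CT Pool.Agent.Y153.OJ.t_LI

theorem a_RV : Pool.Agent.Y746.OJ.S_RV := Pool.Agent.Y746.OJ.t_RV Pool.Agent.Y815.OJ.t_AP Pool.Agent.Y37.OJ.t_GA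

theorem a_APX : Apx (fun _ t => Dd t) :=
  apx_D Pool.Agent.Y840.SW.t_MVB Pool.Agent.Y895.SW.t_DX a_SF a_RV Pool.Agent.Y340.OJ.t_BD

/-- **the joint law of the derivative and of the displacement at the simple zeros** -/
theorem final2 {a b a' b' ε : ℝ} (hab : a < b) (hcd : a' < b') (hε : 0 < ε) :
    ∃ δ : ℝ, 0 < δ ∧ ∃ X0 : ℝ, ∀ X : ℝ, X0 ≤ X →
    ((2 - cMTinv) * (Gm01 a b * Gm01 a' b') - ε) * (NN riemannZeta 0 X : ℝ) ≤
      (PQn (Q2 a b a' b' δ) 0 X : ℝ) :=
  law2 good_zeta a_BLK a_FM a_TI Pool.Agent.Y895.SW.t_BV a_DER a_APX hab hcd hε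

end

end Pool.Agent.Q173.JL
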