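import Pool.Agent.Y586.SW.GM

set_option autoImplicit false

/-! Joint laws: the method of moments for a complex Gaussian variable, both coordinates. -/

namespace Pool.Agent.Q173.JL

open Filter Topology MeasureTheory Complex ProbabilityTheory
open Pool.Agent.Y586.SW

noncomputable section

variable {μ : ℕ → Measure ℝ} {f : ℕ → ℝ → ℂ} {Z : ℝ}

/-- rotation of the variable -/
lemma Hy_rot (h : Hy μ f Z) {w : ℂ} (hw : ‖w‖ = 1) : Hy μ (fun n x => w * f n x) Z := by
  refine ⟨h.Z0, h.fin, fun n => (h.meas n).const_mul w, fun n k => ?_, fun k l => ?_⟩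
  · simp only [norm_mul, hw, one_mul]
    exact h.int n k
  · have e : ∀ n, ∫ x, (w * f n x) ^ k * (starRingEnd ℂ) (w * f n x) ^ l ∂(μ n) =
        (w ^ k * (starRingEnd ℂ) w ^ l) * ∫ x, f n x ^ k * (starRingEnd ℂ) (f n x) ^ l ∂(μ n) := by
      intro n
      rw [← integral_const_mul]
      congr 1
      funext x
      rw [map_mul, mul_pow, mul_pow]
      ring
    simp_rw [e]
    have h1 := (h.lim k l).const_mul (w ^ k * (starRingEnd ℂ) w ^ l)
    convert h1 using 2
    split_ifs with hkl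
    · subst hkl
      have h2 : w ^ k * (starRingEnd ℂ) w ^ k = 1 := by
        rw [← mul_pow, Complex.mul_conj, Complex.normSq_eq_norm_sq, hw]
        norm_num
      rw [h2, one_mul]
    · rw [mul_zero]

/-- the vector variable -/
def V (f : ℕ → ℝ → ℂ) (n : ℕ) (x : ℝ) : ℂ := (Real.sqrt 2 : ℂ) * f n x

lemma V_meas (h : Hy μ f Z) (n : ℕ) : Measurable (V f n) := (h.meas n).const_mul _

lemma V_re (n : ℕ) (x : ℝ) : (V f n x).re = Real.sqrt 2 * (f n x).re := by
  unfold V; rw [Complex.re_ofReal_mul]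

lemma V_im (n : ℕ) (x : ℝ) : (V f n x).im = Real.sqrt 2 * (f n x).im := by
  unfold V; rw [Complex.im_ofReal_mul]

/-- the characteristic functions converge -/
lemma char2 (h : Hy μ f Z) (t : ℂ) :
    Tendsto (fun n => ∫ x, cexp ((inner ℝ (V f n x) t : ℝ) * I) ∂(μ n)) atTop
      (𝓝 (Z * cexp ((-(‖t‖ ^ 2) / 2 : ℝ) : ℂ))) := by
  obtain ⟨w, hw, hwt⟩ : ∃ w : ℂ, ‖w‖ = 1 ∧ (‖t‖ : ℂ) * w = (starRingEnd ℂ) t := by
    by_cases ht : t = 0
    · exact ⟨1, by simp, by simp [ht]⟩
    · have hn : (‖t‖ : ℂ) ≠ 0 := by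
        rw [Complex.ofReal_ne_zero]; exact norm_ne_zero_iff.2 ht
      refine ⟨(starRingEnd ℂ) t / ‖t‖, ?_, by field_simp⟩
      rw [norm_div, RCLike.norm_conj, Complex.norm_real, norm_norm, div_self (norm_ne_zero_iff.2 ht)]
  have h1 := char_lim (Hy_rot h hw) ‖t‖
  refine h1.congr fun n => ?_
  congr 1
  funext x
  have e : (inner ℝ (V f n x) t : ℝ) = ‖t‖ * X (fun n x => w * f n x) n x := by
    unfold X V
    rw [Complex.inner]
    have e1 : t * (starRingEnd ℂ) ((Real.sqrt 2 : ℂ) * f n x) =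
        (starRingEnd ℂ) ((Real.sqrt 2 : ℂ) * (f n x * (starRingEnd ℂ) t)) := by
      simp only [map_mul, Complex.conj_conj, Complex.conj_ofReal]
      ring
    rw [e1, Complex.conj_re, Complex.re_ofReal_mul]
    have e2 : f n x * (starRingEnd ℂ) t = (‖t‖ : ℂ) * (w * f n x) := by
      rw [← hwt]; ring
    rw [e2, Complex.re_ofReal_mul]
    ring
  rw [e, mul_comm]

/-- the standard Gaussian law on the plane -/
def G2 : Measure ℂ := ((gaussianReal 0 1).prod (gaussianReal 0 1)).map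
  (fun p : ℝ × ℝ => (p.1 : ℂ) + p.2 * I)

lemma G2_map_meas : Measurable (fun p : ℝ × ℝ => (p.1 : ℂ) + p.2 * I) := by fun_prop

instance : IsProbabilityMeasure G2 :=
  Measure.isProbabilityMeasure_map G2_map_meas.aemeasurable

lemma G2_char (t : ℂ) : charFun G2 t = cexp ((-(‖t‖ ^ 2) / 2 : ℝ) : ℂ) := by
  rw [charFun_apply]
  unfold G2
  rw [integral_map G2_map_meas.aemeasurable]
  swap
  · exact (Continuous.measurable (by fun_prop)).aestronglyMeasurable
  have e : ∀ p : ℝ × ℝ, cexp ((inner ℝ ((p.1 : ℂ) + p.2 * I) t : ℝ) * I) =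
      cexp (t.re * p.1 * I) * cexp (t.im * p.2 * I) := by
    intro p
    rw [← Complex.exp_add, Complex.inner]
    congr 1
    have : (t * (starRingEnd ℂ) ((p.1 : ℂ) + p.2 * I)).re = p.1 * t.re + p.2 * t.im := by
      simp [Complex.mul_re]
      ring
    rw [this]
    push_cast
    ring
  simp_rw [e]
  have h1 := integral_prod_mul (μ := gaussianReal 0 1) (ν := gaussianReal 0 1)
    (fun x : ℝ => cexp (t.re * x * I)) (fun y : ℝ => cexp (t.im * y * I))
  rw [h1]
  have c1 : ∀ s : ℝ, ∫ x : ℝ, cexp (s * x * I) ∂(gaussianReal 0 1) = cexp ((-(s ^ 2) / 2 : ℝ) : ℂ) := by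
    intro s
    have h2 := charFun_gaussianReal (μ := 0) (v := 1) s
    rw [charFun_apply_real] at h2
    rw [h2]
    congr 1
    push_cast
    ring
  rw [c1, c1, ← Complex.exp_add]
  congr 1
  have h3 : ‖t‖ ^ 2 = t.re ^ 2 + t.im ^ 2 := by
    rw [← Complex.normSq_eq_norm_sq, Complex.normSq_apply]; ring
  rw [h3]
  push_cast
  ring

lemma meas_rp {s t : Set ℝ} (hs : MeasurableSet s) (ht : MeasurableSet t) : MeasurableSet (s ×ℂ t) :=
  (measurable_re hs).inter (measurable_im ht)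

/-- a rectangle -/
def Rc (a b c d : ℝ) : Set ℂ := Set.Ioo a b ×ℂ Set.Ioo c d

lemma mem_Rc {a b c d : ℝ} {z : ℂ} : z ∈ Rc a b c d ↔ (a < z.re ∧ z.re < b) ∧ (c < z.im ∧ z.im < d) := by
  unfold Rc
  rw [Complex.mem_reProdIm]
  rfl

lemma G2_rect (a b c d : ℝ) : G2.real (Rc a b c d) =
    (gaussianReal 0 1).real (Set.Ioo a b) * (gaussianReal 0 1).real (Set.Ioo c d) := by
  have hm : MeasurableSet (Rc a b c d) := meas_rp measurableSet_Ioo measurableSet_Ioo
  unfold G2
  rw [Measure.real, Measure.map_apply G2_map_meas hm]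
  have e : (fun p : ℝ × ℝ => (p.1 : ℂ) + p.2 * I) ⁻¹' (Rc a b c d) = Set.Ioo a b ×ˢ Set.Ioo c d := by
    ext p
    rw [Set.mem_preimage, mem_Rc]
    simp [Set.mem_prod, Set.mem_Ioo]
  rw [e, Measure.prod_prod, ENNReal.toReal_mul]
  rfl

lemma G2_frontier {a b c d : ℝ} (hab : a < b) (hcd : c < d) : G2 (frontier (Rc a b c d)) = 0 := by
  have hna : NullSingletonClass (gaussianReal 0 1) := nullSingletonClass_gaussianReal (by norm_num)
  unfold Rc
  rw [Complex.frontier_reProdIm, frontier_Ioo hab, frontier_Ioo hcd]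
  refine measure_union_null ?_ ?_
  · refine measure_mono_null (t := Set.univ ×ℂ ({c, d} : Set ℝ)) ?_ ?_
    · intro z hz
      rw [Complex.mem_reProdIm] at hz ⊢
      exact ⟨Set.mem_univ _, hz.2⟩
    · have hm : MeasurableSet (Set.univ ×ℂ ({c, d} : Set ℝ)) :=
        meas_rp MeasurableSet.univ (Set.toFinite _).measurableSet
      unfold G2
      rw [Measure.map_apply G2_map_meas hm]
      have e : (fun p : ℝ × ℝ => (p.1 : ℂ) + p.2 * I) ⁻¹' (Set.univ ×ℂ ({c, d} : Set ℝ)) =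
          Set.univ ×ˢ ({c, d} : Set ℝ) := by
        ext p
        simp [Complex.mem_reProdIm]
      rw [e, Measure.prod_prod, Set.Finite.measure_zero (Set.toFinite ({c, d} : Set ℝ)), mul_zero]
  · refine measure_mono_null (t := ({a, b} : Set ℝ) ×ℂ Set.univ) ?_ ?_
    · intro z hz
      rw [Complex.mem_reProdIm] at hz ⊢
      exact ⟨hz.1, Set.mem_univ _⟩
    · have hm : MeasurableSet (({a, b} : Set ℝ) ×ℂ Set.univ) :=
        meas_rp (Set.toFinite _).measurableSet MeasurableSet.univ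
      unfold G2
      rw [Measure.map_apply G2_map_meas hm]
      have e : (fun p : ℝ × ℝ => (p.1 : ℂ) + p.2 * I) ⁻¹' (({a, b} : Set ℝ) ×ℂ Set.univ) =
          ({a, b} : Set ℝ) ×ˢ Set.univ := by
        ext p
        simp [Complex.mem_reProdIm]
      rw [e, Measure.prod_prod, Set.Finite.measure_zero (Set.toFinite ({a, b} : Set ℝ)), zero_mul]

/-- the normalised law -/
def nu2 (μ : ℕ → Measure ℝ) (f : ℕ → ℝ → ℂ) (n : ℕ) : Measure ℂ :=
  if (μ n).real Set.univ = 0 then Measure.dirac 0 else ((μ n) Set.univ)⁻¹ • (μ n).map (V f n)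

lemma nu2_prob (h : Hy μ f Z) (n : ℕ) : IsProbabilityMeasure (nu2 μ f n) := by
  have := h.fin n
  unfold nu2
  split_ifs with h0
  · infer_instance
  · refine ⟨?_⟩
    rw [Measure.smul_apply, Measure.map_apply (V_meas h n) MeasurableSet.univ, Set.preimage_univ, smul_eq_mul]
    refine ENNReal.inv_mul_cancel ?_ (measure_ne_top _ _)
    intro h1
    exact h0 (by rw [Measure.real, h1]; rfl)

lemma nu2_char (h : Hy μ f Z) (n : ℕ) (h0 : (μ n).real Set.univ ≠ 0) (t : ℂ) :
    charFun (nu2 μ f n) t = ((μ n).real Set.univ : ℂ)⁻¹ * ∫ x, cexp ((inner ℝ (V f n x) t : ℝ) * I) ∂(μ n) := by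
  unfold nu2
  rw [if_neg h0, charFun_apply, integral_smul_measure, integral_map (V_meas h n).aemeasurable]
  · rw [ENNReal.toReal_inv]
    simp only [Measure.real]
    rw [Complex.real_smul]
    push_cast
    rfl
  · exact (Continuous.measurable (by fun_prop)).aestronglyMeasurable

lemma pos_case2 (h : Hy μ f Z) (hZ : 0 < Z) (a b c d : ℝ) (hab : a < b) (hcd : c < d) :
    Tendsto (fun n => (μ n).real {x | V f n x ∈ Rc a b c d}) atTop
      (𝓝 (Z * ((gaussianReal 0 1).real (Set.Ioo a b) * (gaussianReal 0 1).real (Set.Ioo c d)))) := by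
  have hpos : ∀ᶠ n in atTop, 0 < (μ n).real Set.univ := (univ_lim h).eventually (lt_mem_nhds hZ)
  set P : ℕ → ProbabilityMeasure ℂ := fun n => ⟨nu2 μ f n, nu2_prob h n⟩ with hP
  set G : ProbabilityMeasure ℂ := ⟨G2, inferInstance⟩ with hG
  have hlim : Tendsto P atTop (𝓝 G) := by
    refine ProbabilityMeasure.tendsto_iff_tendsto_charFun.2 fun s => ?_
    have hZc : (Z : ℂ) ≠ 0 := by exact_mod_cast hZ.ne'
    have e1 : charFun (G : Measure ℂ) s = (Z : ℂ)⁻¹ * (Z * cexp ((-(‖s‖ ^ 2) / 2 : ℝ) : ℂ)) := by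
      show charFun G2 s = _
      rw [G2_char, ← mul_assoc, inv_mul_cancel₀ hZc, one_mul]
    rw [e1]
    have h1 : Tendsto (fun n => ((μ n).real Set.univ : ℂ)⁻¹) atTop (𝓝 (Z : ℂ)⁻¹) :=
      ((Complex.continuous_ofReal.tendsto _).comp (univ_lim h)).inv₀ hZc
    refine (h1.mul (char2 h s)).congr' ?_
    filter_upwards [hpos] with n hn
    exact (nu2_char h n hn.ne' s).symm
  have hfr : (G : Measure ℂ) (frontier (Rc a b c d)) = 0 := G2_frontier hab hcd
  have h2 := ProbabilityMeasure.tendsto_measure_of_null_frontier_of_tendsto' hlim hfr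
  have h3 : Tendsto (fun n => (nu2 μ f n).real (Rc a b c d)) atTop (𝓝 (G2.real (Rc a b c d))) :=
    (ENNReal.tendsto_toReal (measure_ne_top _ _)).comp h2
  rw [G2_rect] at h3
  refine ((univ_lim h).mul h3).congr' ?_
  filter_upwards [hpos] with n hn
  have := h.fin n
  unfold nu2
  rw [if_neg hn.ne', measureReal_ennreal_smul_apply, ENNReal.toReal_inv]
  have hm : MeasurableSet (Rc a b c d) := meas_rp measurableSet_Ioo measurableSet_Ioo
  have e : ((μ n).map (V f n)).real (Rc a b c d) = (μ n).real {x | V f n x ∈ Rc a b c d} := by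
    rw [Measure.real, Measure.map_apply (V_meas h n) hm]
    rfl
  rw [e]
  have e2 : ((μ n) Set.univ).toReal = (μ n).real Set.univ := rfl
  rw [e2, ← mul_assoc, mul_inv_cancel₀ hn.ne', one_mul]

/-- **the method of moments, both coordinates** -/
theorem t_GM2 (μ : ℕ → Measure ℝ) (f : ℕ → ℝ → ℂ) (Z : ℝ) (hZ : 0 ≤ Z) (hfin : ∀ n, IsFiniteMeasure (μ n))
    (hmeas : ∀ n, Measurable (f n)) (hint : ∀ n k, Integrable (fun x => ‖f n x‖ ^ k) (μ n))
    (hlim : ∀ k l : ℕ, Tendsto (fun n => ∫ x, f n x ^ k * (starRingEnd ℂ) (f n x) ^ l ∂(μ n)) atTop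
      (𝓝 (if k = l then (k.factorial : ℂ) * (Z : ℂ) else 0))) (a b c d : ℝ) (hab : a < b) (hcd : c < d) :
    Tendsto (fun n => (μ n).real {x | (a < Real.sqrt 2 * (f n x).re ∧ Real.sqrt 2 * (f n x).re < b) ∧
      (c < Real.sqrt 2 * (f n x).im ∧ Real.sqrt 2 * (f n x).im < d)})
    atTop (𝓝 (Z * ((gaussianReal 0 1).real (Set.Ioo a b) * (gaussianReal 0 1).real (Set.Ioo c d)))) := by
  have h : Hy μ f Z := ⟨hZ, hfin, hmeas, hint, hlim⟩
  have e : ∀ n, {x | (a < Real.sqrt 2 * (f n x).re ∧ Real.sqrt 2 * (f n x).re < b) ∧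
      (c < Real.sqrt 2 * (f n x).im ∧ Real.sqrt 2 * (f n x).im < d)} = {x | V f n x ∈ Rc a b c d} := by
    intro n
    ext x
    simp only [Set.mem_ofPred_eq, mem_Rc, V_re, V_im]
  simp_rw [e]
  rcases hZ.eq_or_lt with h0 | h0
  · rw [← h0, zero_mul]
    have h1 := univ_lim h
    rw [← h0] at h1
    refine squeeze_zero (fun n => measureReal_nonneg) (fun n => ?_) h1
    have := hfin n
    exact measureReal_mono (Set.subset_univ _)
  · exact pos_case2 h h0 a b c d hab hcd

end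

end Pool.Agent.Q173.JL
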