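import Pool.Agent.Y275.SW.IndA
import Pool.Agent.Q173.JL.GM2

set_option autoImplicit false

/-! Joint laws: both coordinates of the sum over the small primes, and independence from the weight. -/

namespace Pool.Agent.Q173.JL

open Filter Topology MeasureTheory Complex Set
open Pool.Agent.Y745.SW Pool.Agent.Y275.SW

noncomputable section

/-- the conditions on both coordinates -/
def Cnd (a b c d T t : ℝ) : Prop :=
  (a < Real.sqrt 2 * ((Px T t).re / Real.sqrt (Real.log (Real.log T))) ∧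
    Real.sqrt 2 * ((Px T t).re / Real.sqrt (Real.log (Real.log T))) < b) ∧
  (c < Real.sqrt 2 * ((Px T t).im / Real.sqrt (Real.log (Real.log T))) ∧
    Real.sqrt 2 * ((Px T t).im / Real.sqrt (Real.log (Real.log T))) < d)

/-- the points where the normalised sum over the small primes lies in a rectangle -/
def S2 (a b c d T : ℝ) : Set ℝ := {t ∈ Set.Icc (T + Real.log T) (2 * T - Real.log T) | Cnd a b c d T t}

lemma Cnd_meas (a b c d T : ℝ) : MeasurableSet {t : ℝ | Cnd a b c d T t} := by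
  have hc : Continuous fun t : ℝ => Real.sqrt 2 * ((Px T t).re / Real.sqrt (Real.log (Real.log T))) := by
    have h2 : Continuous fun t : ℝ => (Px T t).re := Complex.continuous_re.comp (Px_cont T)
    exact continuous_const.mul (h2.div_const _)
  have hc2 : Continuous fun t : ℝ => Real.sqrt 2 * ((Px T t).im / Real.sqrt (Real.log (Real.log T))) := by
    have h2 : Continuous fun t : ℝ => (Px T t).im := Complex.continuous_im.comp (Px_cont T)
    exact continuous_const.mul (h2.div_const _)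
  exact ((measurableSet_lt measurable_const hc.measurable).inter
      (measurableSet_lt hc.measurable measurable_const)).inter
    ((measurableSet_lt measurable_const hc2.measurable).inter
      (measurableSet_lt hc2.measurable measurable_const))

theorem S2_meas (a b c d T : ℝ) : MeasurableSet (S2 a b c d T) :=
  measurableSet_Icc.inter (Cnd_meas a b c d T)

theorem mu_set2 {T : ℝ} (hT : 0 < T) {D : ℝ → ℝ} (hD : Continuous D) (hD0 : ∀ t, 0 ≤ D t) (a b c d : ℝ) :
    (mu T D).real {t | (a < Real.sqrt 2 * (Px T t / (Real.sqrt (Real.log (Real.log T)) : ℂ)).re ∧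
      Real.sqrt 2 * (Px T t / (Real.sqrt (Real.log (Real.log T)) : ℂ)).re < b) ∧
      (c < Real.sqrt 2 * (Px T t / (Real.sqrt (Real.log (Real.log T)) : ℂ)).im ∧
      Real.sqrt 2 * (Px T t / (Real.sqrt (Real.log (Real.log T)) : ℂ)).im < d)} =
    (1 / T) * ∫ t in S2 a b c d T, D t := by
  have hre : ∀ t, (Px T t / (Real.sqrt (Real.log (Real.log T)) : ℂ)).re =
      (Px T t).re / Real.sqrt (Real.log (Real.log T)) := fun t => Complex.div_ofReal_re _ _
  have him : ∀ t, (Px T t / (Real.sqrt (Real.log (Real.log T)) : ℂ)).im =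
      (Px T t).im / Real.sqrt (Real.log (Real.log T)) := fun t => Complex.div_ofReal_im _ _
  simp only [hre, him]
  have h1 : MeasurableSet {t : ℝ | Cnd a b c d T t} := Cnd_meas a b c d T
  have e0 : {t | (a < Real.sqrt 2 * ((Px T t).re / Real.sqrt (Real.log (Real.log T))) ∧
      Real.sqrt 2 * ((Px T t).re / Real.sqrt (Real.log (Real.log T))) < b) ∧
      (c < Real.sqrt 2 * ((Px T t).im / Real.sqrt (Real.log (Real.log T))) ∧
      Real.sqrt 2 * ((Px T t).im / Real.sqrt (Real.log (Real.log T))) < d)} = {t : ℝ | Cnd a b c d T t} := rfl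
  rw [e0]
  unfold mu
  rw [Measure.real, Measure.smul_apply, smul_eq_mul, ENNReal.toReal_mul,
    ENNReal.toReal_ofReal (by positivity), withDensity_apply _ h1, Measure.restrict_restrict h1]
  congr 1
  have h2 : {t : ℝ | Cnd a b c d T t} ∩ Set.Icc (T + Real.log T) (2 * T - Real.log T) = S2 a b c d T := by
    unfold S2
    ext t
    simp only [mem_inter_iff, mem_ofPred_eq]
    tauto
  rw [h2, integral_eq_lintegral_of_nonneg_ae (Eventually.of_forall hD0)
    hD.aestronglyMeasurable.restrict]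

/-- the Gaussian mass of a rectangle -/
def GG (a b c d : ℝ) : ℝ :=
  (ProbabilityTheory.gaussianReal 0 1).real (Set.Ioo a b) * (ProbabilityTheory.gaussianReal 0 1).real (Set.Ioo c d)

/-- the limit law along sequences, with a weight -/
theorem master2 (x : ℕ → ℝ) (hx : Tendsto x atTop atTop) (D : ℕ → ℝ → ℝ)
    (hDc : ∀ n, Continuous (D n)) (hD0 : ∀ n t, 0 ≤ D n t) (Z : ℝ) (hZ : 0 ≤ Z)
    (hmom : ∀ k l : ℕ, Tendsto (fun n => (((1 / x n) * (1 / Real.log (Real.log (x n)) ^ (((k:ℝ) + l) / 2)) : ℝ) : ℂ) *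
      (∫ t in (x n + Real.log (x n))..(2 * x n - Real.log (x n)), Px (x n) t ^ k *
        (starRingEnd ℂ) (Px (x n) t) ^ l * ((D n t : ℝ) : ℂ))) atTop
      (𝓝 (if k = l then (k.factorial : ℂ) * (Z : ℂ) else 0))) (a b c d : ℝ) (hab : a < b) (hcd : c < d) :
    Tendsto (fun n => (1 / x n) * ∫ t in S2 a b c d (x n), D n t) atTop
      (𝓝 (Z * GG a b c d)) := by
  have hev : ∀ᶠ n in atTop, 0 < x n ∧ 0 ≤ Real.log (Real.log (x n)) ∧
    x n + Real.log (x n) ≤ 2 * x n - Real.log (x n) := hx.eventually ev_large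
  have hfc : ∀ n, Continuous fun t => Px (x n) t / (Real.sqrt (Real.log (Real.log (x n))) : ℂ) :=
    fun n => (Px_cont _).div_const _
  have key := t_GM2 (fun n => mu (x n) (D n))
    (fun n t => Px (x n) t / (Real.sqrt (Real.log (Real.log (x n))) : ℂ)) Z hZ
    (fun n => mu_fin _ (hDc n)) (fun n => (hfc n).measurable)
    (fun n k => mu_int _ (hDc n) ((hfc n).norm.pow k)) ?_ a b c d hab hcd
  · refine key.congr' ?_
    filter_upwards [hev] with n hn
    exact mu_set2 hn.1 (hDc n) (hD0 n) a b c d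
  · intro k l
    refine (hmom k l).congr' ?_
    filter_upwards [hev] with n hn
    rw [mu_integral hn.1 hn.2.2 (hDc n) (hD0 n)]
    have hs : ((Real.log (Real.log (x n)) ^ (((k:ℝ) + l) / 2) : ℝ) : ℂ) =
        (Real.sqrt (Real.log (Real.log (x n))) : ℂ) ^ (k + l) := by
      rw [← sqrt_pow _ hn.2.1 k l]
      push_cast
      rfl
    have h1 : ∀ t, (Px (x n) t / (Real.sqrt (Real.log (Real.log (x n))) : ℂ)) ^ k *
        (starRingEnd ℂ) (Px (x n) t / (Real.sqrt (Real.log (Real.log (x n))) : ℂ)) ^ l * (D n t : ℂ) =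
        (1 / (Real.sqrt (Real.log (Real.log (x n))) : ℂ) ^ (k + l)) *
          (Px (x n) t ^ k * (starRingEnd ℂ) (Px (x n) t) ^ l * ((D n t : ℝ) : ℂ)) := by
      intro t
      rw [map_div₀, Complex.conj_ofReal, div_pow, div_pow, pow_add]
      simp only [div_eq_mul_inv, mul_inv]
      ring
    simp only [h1]
    rw [intervalIntegral.integral_const_mul, ← mul_assoc]
    congr 1
    rw [Complex.ofReal_mul, ← hs]
    push_cast
    ring

theorem lim_vol2 (hFM : P_FM) (a b c d : ℝ) (hab : a < b) (hcd : c < d) :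
    Tendsto (fun T : ℝ => (1 / T) * volume.real (S2 a b c d T)) atTop (𝓝 (GG a b c d)) := by
  refine tendsto_of_seq_tendsto fun x hx => ?_
  have h1 := master2 x hx (fun _ _ => 1) (fun _ => continuous_const) (fun _ _ => zero_le_one) 1
    zero_le_one (fun k l => ?_) a b c d hab hcd
  · rw [one_mul] at h1
    refine h1.congr fun n => ?_
    simp [Function.comp]
  · have h2 := (hFM k l).comp hx
    simpa [Function.comp_def] using h2

theorem lim_wt2 (hTI : P_TI) (R : ℝ → ℝ) (hR : Continuous R)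
    (hR0 : ∀ x ∈ Set.Icc (0:ℝ) 1, 0 ≤ R x) (B : ℝ → ℝ) (hB : Continuous B) (c : ℕ → ℂ)
    (hc : ∀ n, ‖c n‖ ≤ ArithmeticFunction.vonMangoldt n) (ε τ η1 : ℝ) (hε : 0 < ε) (hε2 : ε < 1 / 2)
    (hτ : 0 < τ) (hτε : τ ≤ ε / 4) (hη : 4 * τ ≤ η1) (hη1 : η1 ≤ 1)
    (hK : ∃ K0 : ℝ, ∀ᶠ T : ℝ in atTop, Zq R c B ε τ η1 T ≤ K0) (a b a' b' : ℝ) (hab : a < b) (hab' : a' < b') :
    Tendsto (fun T : ℝ => (1 / T) * (∫ t in S2 a b a' b' T, Dq R c B ε τ η1 T t) -
      GG a b a' b' * Zq R c B ε τ η1 T) atTop (𝓝 0) := by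
  have h0 : 0 ≤ η1 := by linarith
  refine tendsto_of_subseq_tendsto fun x hx => ?_
  obtain ⟨K0, hK0⟩ := hK
  have hmem : ∀ᶠ n in atTop, Zq R c B ε τ η1 (x n) ∈ Set.Icc 0 K0 := by
    filter_upwards [hx.eventually hK0] with n hn
    exact ⟨Zq_nonneg R hR0 c B ε τ η1 _ h0 hη1, hn⟩
  obtain ⟨Z, hZ, φ, hφ, hlim⟩ := isCompact_Icc.tendsto_subseq' hmem.frequently
  refine ⟨φ, ?_⟩
  have hxφ : Tendsto (x ∘ φ) atTop atTop := hx.comp hφ.tendsto_atTop
  have h1 := master2 (x ∘ φ) hxφ (fun n => Dq R c B ε τ η1 ((x ∘ φ) n))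
    (fun n => Dq_cont R hR c B hB ε τ η1 _) (fun n t => Dq_nonneg R hR0 c B ε τ η1 _ t h0 hη1) Z hZ.1
    (fun k l => ?_) a b a' b' hab hab'
  · have h2 := hlim.const_mul (GG a b a' b')
    have h3 := h1.sub h2
    rw [show Z * GG a b a' b' - GG a b a' b' * Z = 0 by ring] at h3
    exact h3
  · have h2 := (hTI R hR hR0 B hB c hc ε τ η1 hε hε2 hτ hτε hη hη1 k l).comp hxφ
    by_cases hkl : k = l
    · simp only [if_pos hkl] at h2 ⊢
      have h3 : Tendsto (fun n => (k.factorial : ℂ) * ((Zq R c B ε τ η1 ((x ∘ φ) n) : ℝ) : ℂ)) atTop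
          (𝓝 ((k.factorial : ℂ) * (Z : ℂ))) :=
        ((Complex.continuous_ofReal.tendsto Z).comp hlim).const_mul _
      have h4 := h2.add h3
      rw [zero_add] at h4
      refine h4.congr fun n => ?_
      simp only [Function.comp_apply]
      ring
    · simp only [if_neg hkl] at h2 ⊢
      refine h2.congr fun n => ?_
      simp only [Function.comp_apply]
      ring

theorem ind2 (hFM : P_FM) (hTI : P_TI) : ∀ R : ℝ → ℝ, Continuous R →
    (∀ x ∈ Set.Icc (0:ℝ) 1, 0 ≤ R x) → ∀ B : ℝ → ℝ, Continuous B →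
  ∀ c : ℕ → ℂ, (∀ n, ‖c n‖ ≤ ArithmeticFunction.vonMangoldt n) →
  ∀ ε τ η1 : ℝ, 0 < ε → ε < 1 / 2 → 0 < τ → τ ≤ ε / 4 → 4 * τ ≤ η1 → η1 ≤ 1 →
  (∃ K0 : ℝ, ∀ᶠ T : ℝ in atTop, Zq R c B ε τ η1 T ≤ K0) → ∀ a b a' b' δ : ℝ, a < b → a' < b' → 0 < δ →
    ∀ᶠ T : ℝ in atTop,
    |volume.real (S2 a b a' b' T) - T * GG a b a' b'| ≤ δ * T ∧
    |(∫ t in S2 a b a' b' T, Dq R c B ε τ η1 T t) -
      T * GG a b a' b' * Zq R c B ε τ η1 T| ≤ δ * T := by
  intro R hR hR0 B hB c hc ε τ η1 hε hε2 hτ hτε hη hη1 hK a b a' b' δ hab hab' hδ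
  have h1 := lim_vol2 hFM a b a' b' hab hab'
  have h2 := lim_wt2 hTI R hR hR0 B hB c hc ε τ η1 hε hε2 hτ hτε hη hη1 hK a b a' b' hab hab'
  have h1' := Metric.tendsto_nhds.1 h1 δ hδ
  have h2' := Metric.tendsto_nhds.1 h2 δ hδ
  filter_upwards [h1', h2', eventually_gt_atTop 0] with T hT1 hT2 hT0
  rw [Real.dist_eq] at hT1 hT2
  refine ⟨?_, ?_⟩
  · have e : volume.real (S2 a b a' b' T) - T * GG a b a' b' =
        ((1 / T) * volume.real (S2 a b a' b' T) - GG a b a' b') * T := by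
      field_simp
    rw [e, abs_mul, abs_of_pos hT0]
    exact mul_le_mul_of_nonneg_right hT1.le hT0.le
  · rw [sub_zero] at hT2
    have e : (∫ t in S2 a b a' b' T, Dq R c B ε τ η1 T t) -
      T * GG a b a' b' * Zq R c B ε τ η1 T =
      ((1 / T) * (∫ t in S2 a b a' b' T, Dq R c B ε τ η1 T t) -
      GG a b a' b' * Zq R c B ε τ η1 T) * T := by
      field_simp
    rw [e, abs_mul, abs_of_pos hT0]
    exact mul_le_mul_of_nonneg_right hT2.le hT0.le

end

end Pool.Agent.Q173.JL
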