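import Pool.Agent.Y745.SW.Blk7
import Pool.Agent.Q173.JL.Ind2

set_option autoImplicit false

/-! Joint laws in dyadic blocks. -/

namespace Pool.Agent.Q173.JL

open Filter Topology MeasureTheory Complex H370 TH803UC TH803CL
open Pool.Agent.Y745.SW

noncomputable section

/-- a function that is close to the imaginary part of the sum over the small primes -/
def Apx (Df : ℝ → ℝ → ℝ) : Prop := ∀ h ε : ℝ, 0 < h → 0 < ε → ∀ᶠ T : ℝ in atTop, ∃ Bd : Set ℝ, MeasurableSet Bd ∧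
  Bd ⊆ Set.Icc T (2 * T) ∧ volume.real Bd ≤ ε * T ∧
  ∀ t ∈ Set.Icc T (2 * T), t ∉ Bd → ∀ u : ℝ, |u| ≤ h / Real.log T →
    |Df T (t + u) - (Px T t).im| ≤ ε * Real.sqrt (Real.log (Real.log T))

lemma GG_eq (a b c d : ℝ) : GG a b c d = Gm01 a b * Gm01 c d := rfl

open Classical in
/-- the joint law in a dyadic block -/
theorem block_law2 (hζ : GoodL riemannZeta) (hBLK : P_BLK) (hFM : P_FM) (hTI : P_TI) (hBV : P_BV) (hDER : P_DER)
    {Df : ℝ → ℝ → ℝ} (hApx : Apx Df) {a b a' b' ε : ℝ} (hab : a < b) (hcd : a' < b') (hε : 0 < ε) :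
    ∃ δ : ℝ, 0 < δ ∧ δ ≤ 1 / 10 ∧ ∀ᶠ T : ℝ in atTop,
    ∃ U1 U2 : ℝ, T ≤ U1 ∧ U1 ≤ T + 1 ∧ 2 * T - 1 ≤ U2 ∧ U2 ≤ 2 * T ∧
    ((2 - cMTinv) * (Gm01 a b * Gm01 a' b') - ε) * (T * (Real.log T / (2 * Real.pi))) ≤
      (((isoS U1 U2 (δ / Real.log T)).filter (fun s => T + 2 ≤ s.im ∧ s.im ≤ 2 * T - 2 ∧
        (a < nrm T (Real.log ‖deriv riemannZeta s‖) ∧ nrm T (Real.log ‖deriv riemannZeta s‖) < b) ∧
        (a' < Real.sqrt 2 * (Df T s.im / Real.sqrt (Real.log (Real.log T))) ∧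
          Real.sqrt 2 * (Df T s.im / Real.sqrt (Real.log (Real.log T))) < b'))).card : ℝ) := by
  obtain ⟨θ, hθ, hab', hG⟩ := Gm01_shrink hab (show 0 < ε / 16 by positivity)
  obtain ⟨θ', hθ', hcd', hG'⟩ := Gm01_shrink hcd (show 0 < ε / 16 by positivity)
  obtain ⟨δ, h, εs, τ, B, hδ, hδ1, hh, hεs, hεs2, hτ, hτε, hB, hblk⟩ := hBLK (min (ε / 8) 1) (by positivity)
    (min_le_right _ _)
  refine ⟨δ, hδ, hδ1, ?_⟩
  obtain ⟨c, hc, C0, T0, hC0, hT0, hef⟩ := explicit_formula hζ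
  obtain ⟨⟨K0, hK0⟩, hblk⟩ := hblk c C0 hc
  set K1 : ℝ := |K0| + 1 with hK1
  have hK10 : 0 < K1 := by positivity
  set δ' : ℝ := min (ε / 32) (1 / (8 * K1)) with hδ'
  have hδ'0 : 0 < δ' := by positivity
  have hδ'1 : δ' ≤ ε / 32 := min_le_left _ _
  have hδ'2 : δ' * K1 ≤ 1 / 8 := by
    have : δ' ≤ 1 / (8 * K1) := min_le_right _ _
    calc δ' * K1 ≤ 1 / (8 * K1) * K1 := mul_le_mul_of_nonneg_right this hK10.le
      _ = 1 / 8 := by field_simp
  have hδ'3 : δ' ≤ 1 / 8 := by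
    have : 1 ≤ K1 := by rw [hK1]; linarith [abs_nonneg K0]
    nlinarith
  have h4τ : 4 * τ ≤ 1 := by linarith
  have hind := ind2 hFM hTI Rf Rf_cont (fun x _ => Rf_nonneg x) B hB c hc εs τ (4 * τ) hεs hεs2 hτ hτε le_rfl h4τ
    ⟨K0, hK0⟩ (a + θ) (b - θ) (a' + θ') (b' - θ') δ' hab' hcd' hδ'0
  set ε3 : ℝ := min (ε / (16 * Real.pi)) (θ / 4) with hε3
  have hpi := Real.pi_pos
  have hε30 : 0 < ε3 := by positivity
  set ε4 : ℝ := min δ' (θ' / 4) with hε4
  have hε40 : 0 < ε4 := by positivity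
  have hbv := hBV h δ' hh hδ'0
  have hapx := hApx h ε4 hh hε40
  have hder := hDER δ ε3 hδ hδ1 hε30
  have hσ : ∀ᶠ T : ℝ in atTop, 8 / θ ≤ Real.sqrt (Real.log (Real.log T)) :=
    (Real.tendsto_sqrt_atTop.comp loglog_tendsto).eventually_ge_atTop _
  filter_upwards [hblk, hK0, hind, hbv, hder, hσ, Real.tendsto_log_atTop.eventually_ge_atTop (h + 10),
    eventually_ge_atTop T0, eventually_ge_atTop 10, hapx] with T tblk tK0 tind tbv tder tσ tL tT0 tT1 tapx
  obtain ⟨U1, U2, hU1, hU1', hU2, hU2', heft⟩ := hef T tT0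
  refine ⟨U1, U2, hU1, hU1', hU2, hU2', ?_⟩
  have hefd : EFD c C0 T U1 U2 := ⟨hc, hU1, hU1', hU2, hU2', heft⟩
  obtain ⟨tI1, tI2⟩ := tind
  obtain ⟨Bd1, hBd1m, hBd11, hBd12, hBd13⟩ := tbv
  obtain ⟨Bd2, hBd2m, hBd21, hBd22, hBd23⟩ := tapx
  set L := Real.log T with hL
  set σ := Real.sqrt (Real.log L) with hσd
  have hL0 : 0 < L := by linarith
  have hT0 : 0 < T := by linarith
  have hσ0 : 0 < σ := lt_of_lt_of_le (by positivity) tσ
  set Bd : Set ℝ := Bd1 ∪ Bd2 with hBd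
  have hBdm : MeasurableSet Bd := hBd1m.union hBd2m
  have hBd1 : Bd ⊆ Set.Icc T (2 * T) := Set.union_subset hBd11 hBd21
  have hε4a : ε4 ≤ δ' := min_le_left _ _
  have hε4b : ε4 ≤ θ' / 4 := min_le_right _ _
  have hBd2 : volume.real Bd ≤ 2 * δ' * T := by
    have h1 : volume.real Bd ≤ volume.real Bd1 + volume.real Bd2 := measureReal_union_le _ _
    have h2 : ε4 * T ≤ δ' * T := mul_le_mul_of_nonneg_right hε4a hT0.le
    linarith
  set G' : ℝ := GG (a + θ) (b - θ) (a' + θ') (b' - θ') with hG'd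
  have hG'0 : 0 ≤ G' := mul_nonneg measureReal_nonneg measureReal_nonneg
  set GX : ℝ := Gm01 a b * Gm01 a' b' with hGX
  have hGX0 : 0 ≤ GX := mul_nonneg (Gm01_nonneg _ _) (Gm01_nonneg _ _)
  have hGX1 : GX ≤ 1 := mul_le_one₀ (Gm01_le _ _) (Gm01_nonneg _ _) (Gm01_le _ _)
  have hG'1 : GX - ε / 8 ≤ G' := by
    have g1 := Gm01_le a b
    have g2 := Gm01_nonneg a b
    have g3 := Gm01_le (a' + θ') (b' - θ')
    have g4 := Gm01_nonneg (a' + θ') (b' - θ')
    have e : G' = Gm01 (a + θ) (b - θ) * Gm01 (a' + θ') (b' - θ') := rfl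
    rw [e, hGX]
    have h1 : Gm01 a b * (Gm01 a' b' - ε / 16) ≤ Gm01 a b * Gm01 (a' + θ') (b' - θ') :=
      mul_le_mul_of_nonneg_left hG' g2
    have h2 : (Gm01 a b - ε / 16) * Gm01 (a' + θ') (b' - θ') ≤ Gm01 (a + θ) (b - θ) * Gm01 (a' + θ') (b' - θ') :=
      mul_le_mul_of_nonneg_right hG g4
    nlinarith
  set SS := S2 (a + θ) (b - θ) (a' + θ') (b' - θ') T with hSS
  have tm : MeasurableSet SS := S2_meas _ _ _ _ _
  have hSSI : SS ⊆ Set.Icc (T + L) (2 * T - L) := fun t ht => ht.1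
  have hSSf : volume SS ≠ ⊤ := ne_top_of_le_ne_top (by simp) (measure_mono hSSI)
  set S := SS \ Bd with hS
  have hSm : MeasurableSet S := tm.diff hBdm
  have hSI : S ⊆ Set.Icc (T + L) (2 * T - L) := fun t ht => hSSI ht.1
  -- the measure of `S`
  have hvol : volume.real SS ≤ volume.real S + volume.real Bd := by
    have h1 : SS ⊆ S ∪ Bd := fun t ht => by
      by_cases h : t ∈ Bd
      · exact Or.inr h
      · exact Or.inl ⟨ht, h⟩
    have hSf : volume S ≠ ⊤ := ne_top_of_le_ne_top (by simp) (measure_mono hSI)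
    have hBf : volume Bd ≠ ⊤ := ne_top_of_le_ne_top (by simp) (measure_mono hBd1)
    refine (measureReal_mono h1 ?_).trans (measureReal_union_le _ _)
    exact (measure_union_lt_top (lt_top_iff_ne_top.2 hSf) (lt_top_iff_ne_top.2 hBf)).ne
  have hSlow : T * G' - 3 * δ' * T ≤ volume.real S := by
    have := (abs_le.1 tI1).1
    linarith
  -- the weight
  have hZ0 : 0 ≤ Zq Rf c B εs τ (4 * τ) T := by
    unfold Zq
    refine mul_nonneg (by norm_num) (intervalIntegral.integral_nonneg h4τ fun y hy => ?_)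
    exact mul_nonneg (Rf_nonneg y) (Finset.sum_nonneg fun n _ => by positivity)
  have hZK : Zq Rf c B εs τ (4 * τ) T ≤ K1 := by
    have := le_abs_self K0
    rw [hK1]; linarith
  have hDqc : Continuous (fun t : ℝ => Dq Rf c B εs τ (4 * τ) T t) :=
    Dq_cont hB hεs hεs2 hτ hτε le_rfl h4τ Rf_cont hL0
  have hDq0 : ∀ t, 0 ≤ Dq Rf c B εs τ (4 * τ) T t := fun t =>
    Dq_nonneg hεs hεs2 hτ hτε le_rfl h4τ (fun x _ => Rf_nonneg x) t
  have hDqS : (∫ t in S, Dq Rf c B εs τ (4 * τ) T t) ≤ volume.real S * Zq Rf c B εs τ (4 * τ) T + T := by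
    have h1 : (∫ t in S, Dq Rf c B εs τ (4 * τ) T t) ≤ ∫ t in SS, Dq Rf c B εs τ (4 * τ) T t :=
      setIntegral_mono_set ((hDqc.continuousOn.integrableOn_compact isCompact_Icc).mono_set hSSI)
        (Filter.Eventually.of_forall hDq0) (Filter.Eventually.of_forall fun t ht => ht.1)
    have h2 := (abs_le.1 tI2).2
    have h3 : T * G' * Zq Rf c B εs τ (4 * τ) T ≤ (volume.real S + 3 * δ' * T) * Zq Rf c B εs τ (4 * τ) T :=
      mul_le_mul_of_nonneg_right (by linarith) hZ0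
    have h4 : 3 * δ' * T * Zq Rf c B εs τ (4 * τ) T ≤ 3 * T * (1 / 8) := by
      have h5 : δ' * Zq Rf c B εs τ (4 * τ) T ≤ 1 / 8 :=
        (mul_le_mul_of_nonneg_left hZK hδ'0.le).trans hδ'2
      nlinarith
    nlinarith
  have hmain := tblk U1 U2 hefd S hSm hSI hDqS
  have hbad := tder U1 U2 hU1 hU1' hU2 hU2'
  -- the counting
  set I := isoS U1 U2 (δ / L) with hI
  set near := I.filter (fun s => ∃ t ∈ S, |s.im - t| ≤ h / L) with hnear
  set bad := I.filter (fun s => T + 2 ≤ s.im ∧ s.im ≤ 2 * T - 2 ∧ ε3 * σ < |Real.log ‖deriv riemannZeta s‖ -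
    Real.log L - (Px T s.im).re|) with hbadd
  set good := I.filter (fun s => T + 2 ≤ s.im ∧ s.im ≤ 2 * T - 2 ∧
        (a < nrm T (Real.log ‖deriv riemannZeta s‖) ∧ nrm T (Real.log ‖deriv riemannZeta s‖) < b) ∧
        (a' < Real.sqrt 2 * (Df T s.im / σ) ∧ Real.sqrt 2 * (Df T s.im / σ) < b')) with hgood
  have hsub : near ⊆ good ∪ bad := by
    intro s hs
    rw [hnear, Finset.mem_filter] at hs
    obtain ⟨hsI, t, htS, hst⟩ := hs
    obtain ⟨⟨⟨ht1, ht2⟩, ⟨ht3, ht4⟩, ht5, ht6⟩, htB⟩ := htS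
    have htB1 : t ∉ Bd1 := fun hh => htB (Or.inl hh)
    have htB2 : t ∉ Bd2 := fun hh => htB (Or.inr hh)
    have hhL : h / L ≤ 1 := by rw [div_le_one hL0]; linarith
    have hst' := abs_le.1 (hst.trans hhL)
    have hs1 : T + 2 ≤ s.im := by linarith [hst'.1]
    have hs2 : s.im ≤ 2 * T - 2 := by linarith [hst'.2]
    rw [Finset.mem_union]
    by_cases hbd : ε3 * σ < |Real.log ‖deriv riemannZeta s‖ - Real.log L - (Px T s.im).re|
    · right
      rw [hbadd, Finset.mem_filter]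
      exact ⟨hsI, hs1, hs2, hbd⟩
    · left
      rw [hgood, Finset.mem_filter]
      push Not at hbd
      have h1 := hBd13 t ⟨by linarith, by linarith⟩ htB1 (s.im - t) hst
      rw [add_sub_cancel] at h1
      have h2 := (Complex.abs_re_le_norm _).trans h1
      rw [Complex.sub_re] at h2
      set y := Real.log ‖deriv riemannZeta s‖ with hy
      have h3 : |(y - Real.log L) - (Px T t).re| ≤ ε3 * σ + 1 := by
        have e : (y - Real.log L) - (Px T t).re = (y - Real.log L - (Px T s.im).re) +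
          ((Px T s.im).re - (Px T t).re) := by ring
        rw [e]
        exact (abs_add_le _ _).trans (add_le_add hbd h2)
      have h4 : |(y - Real.log L) / σ - (Px T t).re / σ| ≤ ε3 + 1 / σ := by
        rw [← sub_div, abs_div, abs_of_pos hσ0, div_le_iff₀ hσ0]
        refine h3.trans (le_of_eq ?_)
        field_simp
      have h5 : 1 / σ ≤ θ / 8 := by
        rw [div_le_div_iff₀ hσ0 (by norm_num)]
        rw [div_le_iff₀ hθ] at tσ
        linarith
      have h6 : ε3 ≤ θ / 4 := min_le_right _ _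
      have h7 : Real.sqrt 2 ≤ 2 := by
        rw [Real.sqrt_le_left (by norm_num)]; norm_num
      have h8 := Real.sqrt_nonneg 2
      have h9 : |nrm T y - Real.sqrt 2 * ((Px T t).re / σ)| ≤ θ := by
        unfold nrm
        rw [← hL, ← hσd, ← mul_sub, abs_mul, abs_of_nonneg h8]
        calc Real.sqrt 2 * |(y - Real.log L) / σ - (Px T t).re / σ| ≤ 2 * (ε3 + 1 / σ) := by gcongr
          _ ≤ θ := by linarith
      have h10 := abs_le.1 h9
      have k1 := hBd23 t ⟨by linarith, by linarith⟩ htB2 (s.im - t) hst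
      rw [add_sub_cancel] at k1
      have k2 : |Real.sqrt 2 * (Df T s.im / σ) - Real.sqrt 2 * ((Px T t).im / σ)| ≤ θ' := by
        rw [← mul_sub, abs_mul, abs_of_nonneg h8, ← sub_div, abs_div, abs_of_pos hσ0]
        have k3 : |Df T s.im - (Px T t).im| / σ ≤ ε4 := by
          rw [div_le_iff₀ hσ0]; exact k1
        calc Real.sqrt 2 * (|Df T s.im - (Px T t).im| / σ) ≤ 2 * ε4 := by gcongr
          _ ≤ θ' := by linarith
      have k4 := abs_le.1 k2
      refine ⟨hsI, hs1, hs2, ⟨?_, ?_⟩, ?_, ?_⟩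
      · linarith [h10.1]
      · linarith [h10.2]
      · linarith [k4.1]
      · linarith [k4.2]
  have hcard : (near.card : ℝ) ≤ good.card + bad.card := by
    exact_mod_cast (Finset.card_le_card hsub).trans (Finset.card_union_le _ _)
  -- conclusion
  have hcM1 : 1 < cMTinv := cMTinv_gt_one
  have hcM2 := cMTinv_lt
  have hlow : ((2 - cMTinv) * volume.real S - min (ε / 8) 1 * T) * (L / (2 * Real.pi)) ≥
      ((2 - cMTinv) * GX - ε / 2) * (T * (L / (2 * Real.pi))) := by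
    have e : ((2 - cMTinv) * GX - ε / 2) * (T * (L / (2 * Real.pi))) =
      (((2 - cMTinv) * GX - ε / 2) * T) * (L / (2 * Real.pi)) := by ring
    rw [e]
    refine mul_le_mul_of_nonneg_right ?_ (by positivity)
    have h1 : min (ε / 8) 1 * T ≤ ε / 8 * T := mul_le_mul_of_nonneg_right (min_le_left _ _) hT0.le
    have h2 : (2 - cMTinv) * (T * G' - 3 * δ' * T) ≤ (2 - cMTinv) * volume.real S :=
      mul_le_mul_of_nonneg_left hSlow (by linarith)
    have h3 : (2 - cMTinv) * (T * (GX - ε / 8)) ≤ (2 - cMTinv) * (T * G') :=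
      mul_le_mul_of_nonneg_left (mul_le_mul_of_nonneg_left hG'1 hT0.le) (by linarith)
    have h4 : (2 - cMTinv) * (T * (ε / 8) + 3 * δ' * T) ≤ 1 * (T * (ε / 8) + 3 * (ε / 32) * T) := by
      have : 2 - cMTinv ≤ 1 := by linarith
      gcongr
    have h5 : 0 < ε * T := by positivity
    nlinarith
  have hε3b : ε3 * (T * L) ≤ (ε / 8) * (T * (L / (2 * Real.pi))) := by
    have h1 : ε3 ≤ ε / (16 * Real.pi) := min_le_left _ _
    calc ε3 * (T * L) ≤ ε / (16 * Real.pi) * (T * L) := mul_le_mul_of_nonneg_right h1 (by positivity)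
      _ = _ := by field_simp; ring
  have hpos : 0 ≤ T * (L / (2 * Real.pi)) := by positivity
  have hfin : ((2 - cMTinv) * GX - ε / 2) * (T * (L / (2 * Real.pi))) ≤ good.card + ε3 * (T * L) := by
    refine (le_trans hlow hmain).trans (hcard.trans ?_)
    exact add_le_add_right hbad _
  nlinarith

end

end Pool.Agent.Q173.JL
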