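import Pool.Agent.Q173.JL.Bad
import Pool.Agent.Q173.JL.Blk
import Pool.Agent.H370R2.RightZeros

/-! # The displacement of the zeros: approximation outside a small set -/

set_option autoImplicit false

namespace Pool.Agent.Q173.JL

open Complex Filter Topology MeasureTheory Set
open Pool.Agent.Y745.SW (Py Px P_MVB P_DX xT)
open Pool.Agent.Y746.OJ (S_SF S_RV S_BD)
open H370 (zz Zf mult mem_Zf good_zeta NN NN_eq NN_add NN_mono zz_re zz_im zset nn_asymp)

/-- Markov's inequality on an interval -/
lemma markov {a b c : ℝ} {f : ℝ → ℝ} (hab : a ≤ b) (hc : 0 < c) (hf : MB a b f) (h0 : ∀ t ∈ Icc a b, 0 ≤ f t) :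
    volume.real {t ∈ Icc a b | c < f t} ≤ (1 / c) * ∫ t in a..b, f t := by
  have hi : IntegrableOn f (Icc a b) := (intervalIntegrable_iff_integrableOn_Icc_of_le hab).1 (hf.int hab)
  have h1 := mul_meas_ge_le_integral_of_nonneg (μ := volume.restrict (Icc a b)) (f := f)
    (by
      rw [EventuallyLE, ae_restrict_iff' measurableSet_Icc]
      exact Eventually.of_forall fun t ht => h0 t ht) hi c
  have h2 : volume.real {t ∈ Icc a b | c < f t} ≤ (volume.restrict (Icc a b)).real {x | c ≤ f x} := by
    have hm : MeasurableSet {x | c ≤ f x} := measurableSet_le measurable_const hf.1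
    rw [Measure.real, Measure.real, Measure.restrict_apply hm]
    refine ENNReal.toReal_mono ?_ (measure_mono ?_)
    · exact ne_top_of_le_ne_top (by rw [Real.volume_Icc]; exact ENNReal.ofReal_ne_top)
        (measure_mono (inter_subset_right (t := Icc a b)))
    · rintro t ⟨ht, ht2⟩
      exact ⟨le_of_lt ht2, ht⟩
  rw [intervalIntegral.integral_of_le hab, ← integral_Icc_eq_integral_Ioc]
  rw [one_div, ← div_eq_inv_mul, le_div_iff₀ hc]
  calc volume.real {t ∈ Icc a b | c < f t} * c ≤ (volume.restrict (Icc a b)).real {x | c ≤ f x} * c :=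
        mul_le_mul_of_nonneg_right h2 hc.le
    _ = c * (volume.restrict (Icc a b)).real {x | c ≤ f x} := mul_comm _ _
    _ ≤ _ := h1

/-- integrals of differences of a monotone function -/
lemma mono_diff {F : ℝ → ℝ} (hF : Monotone F) {a b k : ℝ} (hk : 0 ≤ k) :
    ∫ t in a..b, (F (t + k) - F (t - k)) ≤ 2 * k * (F (b + k) - F (a - k)) := by
  have hi : ∀ c d : ℝ, IntervalIntegrable F volume c d := fun c d => hF.intervalIntegrable
  have i1 : IntervalIntegrable (fun t => F (t + k)) volume a b :=
    (hF.comp (fun x y h => by linarith : Monotone fun t : ℝ => t + k)).intervalIntegrable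
  have i2 : IntervalIntegrable (fun t => F (t - k)) volume a b :=
    (hF.comp (fun x y h => by linarith : Monotone fun t : ℝ => t - k)).intervalIntegrable
  rw [intervalIntegral.integral_sub i1 i2, intervalIntegral.integral_comp_add_right F k,
    intervalIntegral.integral_comp_sub_right F k,
    intervalIntegral.integral_interval_sub_interval_comm (hi _ _) (hi _ _) (hi _ _)]
  rw [intervalIntegral.integral_symm (a - k) (a + k), intervalIntegral.integral_symm (b - k) (b + k)]
  have h1 : ∫ t in (b - k)..(b + k), F t ≤ ∫ _t in (b - k)..(b + k), F (b + k) :=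
    intervalIntegral.integral_mono_on (by linarith) (hi _ _) intervalIntegrable_const fun t ht => hF ht.2
  have h2 : ∫ _t in (a - k)..(a + k), F (a - k) ≤ ∫ t in (a - k)..(a + k), F t :=
    intervalIntegral.integral_mono_on (by linarith) intervalIntegrable_const (hi _ _) fun t ht => hF ht.1
  rw [intervalIntegral.integral_const, smul_eq_mul] at h1 h2
  linarith

lemma NN0 : ∀ t : ℝ, 1 ≤ t → (NN riemannZeta 0 t : ℝ) = NN riemannZeta 0 1 + NN riemannZeta 1 t := by
  intro t ht
  have h : NN riemannZeta 0 t = NN riemannZeta 0 1 + NN riemannZeta 1 t := by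
    unfold NN
    rw [← finsum_mem_union]
    · have hset : zset riemannZeta 0 t = zset riemannZeta 0 1 ∪ zset riemannZeta 1 t := by
        ext s
        simp only [zset, Set.mem_ofPred_eq, Set.mem_union]
        constructor
        · rintro ⟨a1, a2, a3, a4, a5⟩
          rcases le_or_gt s.im 1 with h1 | h1
          · exact Or.inl ⟨a1, a2, a3, h1, a5⟩
          · exact Or.inr ⟨a1, a2, h1, a4, a5⟩
        · rintro (⟨a1, a2, a3, a4, a5⟩ | ⟨a1, a2, a3, a4, a5⟩)
          · exact ⟨a1, a2, a3, a4.trans ht, a5⟩
          · exact ⟨a1, a2, by linarith, a4, a5⟩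
      rw [hset]
    · rw [Set.disjoint_left]
      rintro s ⟨a1, a2, a3, a4, a5⟩ ⟨b1, b2, b3, b4, b5⟩
      linarith
    · exact H370.zeta_zeros_finite 1
    · exact (H370.zeta_zeros_finite t).subset fun s hs => ⟨hs.1, hs.2.1, by linarith [hs.2.2.1], hs.2.2.2.1, hs.2.2.2.2⟩
  exact_mod_cast h

/-- the displacement, times `π` -/
noncomputable def Dd (t : ℝ) : ℝ := Real.pi * ((NN riemannZeta 0 t : ℝ) - MM t)

/-- **the approximation** -/
theorem apx_D (hMVB : P_MVB) (hDX : P_DX) (hSF : S_SF) (hRV : S_RV) (hBD : S_BD) : Apx (fun _ t => Dd t) := by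
  intro h ε hh hε
  obtain ⟨C1, T1, hC1, hT1, hnn⟩ := nn_asymp good_zeta
  have hpi := Real.pi_gt_three
  have hpi0 := Real.pi_pos
  have hpi4 := Real.pi_lt_d2
  set C2 : ℝ := 1 + C1 with hC2
  set A : ℝ := 2 * h * C2 * (3 / ε) with hA
  have hA0 : 0 < A := by positivity
  set η : ℝ := ε / 8 with hη
  have hη0 : 0 < η := by positivity
  set K0 : ℝ := (NN riemannZeta 0 1 : ℝ) with hK0
  have hK00 : 0 ≤ K0 := Nat.cast_nonneg _
  have hd := disp_small hMVB hDX hSF hRV hBD (η * (ε / 3)) (by positivity)
  have hσ : Tendsto (fun T : ℝ => Real.sqrt (Real.log (Real.log T))) atTop atTop := Pool.Agent.Y141.SW.tendsto_S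
  have hev : ∀ᶠ T : ℝ in atTop, 6 * Real.log T ≤ min 1 (ε / 3) * T := by
    have h1 := (Real.isLittleO_log_id_atTop).bound (c := min 1 (ε / 3) / 6) (by positivity)
    filter_upwards [h1, eventually_ge_atTop 1] with T t1 t2
    have hL : 0 ≤ Real.log T := Real.log_nonneg (by linarith)
    simp only [id, Real.norm_eq_abs] at t1
    rw [abs_of_nonneg hL, abs_of_nonneg (by linarith)] at t1
    linarith
  filter_upwards [hd, hev, eventually_ge_atTop T1, eventually_ge_atTop 100,
    Real.tendsto_log_atTop.eventually_ge_atTop (h + 10), hσ.eventually_ge_atTop (max 1 ((8 * (K0 + A + h + 4)) / ε))]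
    with T t1 t2 t3 t4 t5 t6
  have hT0 : 0 < T := by linarith
  set L := Real.log T with hL
  set σ := Real.sqrt (Real.log L) with hσd
  have hL0 : 0 < L := by linarith
  have hσ1 : 1 ≤ σ := (le_max_left _ _).trans t6
  have hσ2 : 8 * (K0 + A + h + 4) / ε ≤ σ := (le_max_right _ _).trans t6
  rw [div_le_iff₀ hε] at hσ2
  have h6L : 6 * L ≤ T := t2.trans (by
    have : min 1 (ε / 3) ≤ 1 := min_le_left _ _
    nlinarith)
  have h6L2 : 6 * L ≤ ε / 3 * T := t2.trans (mul_le_mul_of_nonneg_right (min_le_right _ _) hT0.le)
  set a := T + 3 * L with ha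
  set b := 2 * T - 3 * L with hb
  have hab : a ≤ b := by linarith
  set k := h / L with hk
  have hk0 : 0 < k := by positivity
  have hk1 : k ≤ 1 := by rw [hk, div_le_one hL0]; linarith
  set E1 : Set ℝ := {t ∈ Icc a b | η * σ < |DN T t|} with hE1
  set F : ℝ → ℝ := fun t => (NN riemannZeta 1 t : ℝ) with hF
  set E2 : Set ℝ := {t ∈ Icc a b | A < F (t + k) - F (t - k)} with hE2
  set E3 : Set ℝ := Icc T (2 * T) \ Icc a b with hE3
  have mDN : MB a b (fun t => |DN T t|) := (MB_DN T (by linarith)).abs
  have mF : MB a b (fun t => F (t + k) - F (t - k)) :=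
    (MB.shift (f := F) (MB_NN _ _)).sub (MB.shift (f := F) (c := -k) (MB_NN _ _))
  have hE1m : MeasurableSet E1 := measurableSet_Icc.inter (measurableSet_lt measurable_const mDN.1)
  have hE2m : MeasurableSet E2 := measurableSet_Icc.inter (measurableSet_lt measurable_const mF.1)
  have hE3m : MeasurableSet E3 := measurableSet_Icc.diff measurableSet_Icc
  have hIcc : Icc a b ⊆ Icc T (2 * T) := Icc_subset_Icc (by linarith) (by linarith)
  refine ⟨E1 ∪ E2 ∪ E3, (hE1m.union hE2m).union hE3m, ?_, ?_, ?_⟩
  · rintro t ((ht | ht) | ht)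
    · exact hIcc ht.1
    · exact hIcc ht.1
    · exact ht.1
  · -- the measure
    have hu : volume.real (E1 ∪ E2 ∪ E3) ≤ volume.real E1 + volume.real E2 + volume.real E3 :=
      (measureReal_union_le _ _).trans (add_le_add (measureReal_union_le _ _) le_rfl)
    have b1 : volume.real E1 ≤ ε / 3 * T := by
      have h1 := markov hab (by positivity : 0 < η * σ) mDN (fun t _ => abs_nonneg _)
      refine h1.trans ?_
      have h2 : 1 / (η * σ) * ∫ t in a..b, |DN T t| ≤ 1 / (η * σ) * (η * (ε / 3) * (T * σ)) :=
        mul_le_mul_of_nonneg_left t1 (by positivity)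
      refine h2.trans (le_of_eq ?_)
      field_simp
    have b2 : volume.real E2 ≤ ε / 3 * T := by
      have h1 := markov hab hA0 mF (fun t _ => sub_nonneg.2 (NN_monotone (by linarith)))
      refine h1.trans ?_
      have h2 := mono_diff (F := F) NN_monotone (a := a) (b := b) hk0.le
      have h3 : F (b + k) - F (a - k) ≤ C2 * (T * L) := by
        have e1 := NN_add good_zeta (a := 1) (b := a - k) (c := b + k) le_rfl (by linarith) (by linarith)
        have e2 := NN_mono good_zeta (a := a - k) (b := b + k) (a' := T) (b' := 2 * T) (by linarith) (by linarith)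
          (by linarith)
        have e3 := (abs_le.1 (hnn T t3 T (2 * T) le_rfl (by linarith) (by linarith) le_rfl)).2
        have e4 : F (b + k) - F (a - k) = (NN riemannZeta (a - k) (b + k) : ℝ) := by
          simp only [hF, e1]
          push_cast
          ring
        have e5 : (NN riemannZeta (a - k) (b + k) : ℝ) ≤ NN riemannZeta T (2 * T) := by exact_mod_cast e2
        have e6 : T * L / (2 * Real.pi) ≤ T * L := div_le_self (by positivity) (by linarith)
        have e7 : C1 * T ≤ C1 * (T * L) := by
          apply mul_le_mul_of_nonneg_left _ hC1.le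
          nlinarith
        rw [e4, hC2]
        linarith
      have h4 : 2 * k * (F (b + k) - F (a - k)) ≤ 2 * k * (C2 * (T * L)) :=
        mul_le_mul_of_nonneg_left h3 (by positivity)
      have h5 : 2 * k * (C2 * (T * L)) = 2 * h * C2 * T := by rw [hk]; field_simp
      calc 1 / A * ∫ t in a..b, (F (t + k) - F (t - k)) ≤ 1 / A * (2 * h * C2 * T) := by
            apply mul_le_mul_of_nonneg_left _ (by positivity)
            linarith
        _ = ε / 3 * T := by
            have hC20 : C2 ≠ 0 := by rw [hC2]; positivity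
            have hh0 : h ≠ 0 := hh.ne'
            have hε0 : ε ≠ 0 := hε.ne'
            rw [hA]
            generalize C2 = c2 at hC20 ⊢
            field_simp
    have b3 : volume.real E3 ≤ ε / 3 * T := by
      have hsub : E3 ⊆ Icc T a ∪ Icc b (2 * T) := by
        rintro t ⟨⟨h1, h2⟩, h3⟩
        rw [mem_Icc, not_and_or, not_le, not_le] at h3
        rcases h3 with h3 | h3
        · exact Or.inl ⟨h1, h3.le⟩
        · exact Or.inr ⟨h3.le, h2⟩
      have hfin : volume (Icc T a ∪ Icc b (2 * T)) ≠ ⊤ :=
        (measure_union_lt_top (by rw [Real.volume_Icc]; exact ENNReal.ofReal_lt_top)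
          (by rw [Real.volume_Icc]; exact ENNReal.ofReal_lt_top)).ne
      refine (measureReal_mono hsub hfin).trans ((measureReal_union_le _ _).trans ?_)
      rw [Real.volume_real_Icc_of_le (by linarith), Real.volume_real_Icc_of_le (by linarith)]
      linarith
    linarith
  · intro t ht htB u hu
    have hn1 : t ∉ E1 := fun hh => htB (Or.inl (Or.inl hh))
    have hn2 : t ∉ E2 := fun hh => htB (Or.inl (Or.inr hh))
    have hn3 : t ∉ E3 := fun hh => htB (Or.inr hh)
    have htI : t ∈ Icc a b := by
      by_contra hc
      exact hn3 ⟨ht, hc⟩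
    have k1 : |DN T t| ≤ η * σ := by
      by_contra hc
      push Not at hc
      exact hn1 ⟨htI, hc⟩
    have k2 : F (t + k) - F (t - k) ≤ A := by
      by_contra hc
      push Not at hc
      exact hn2 ⟨htI, hc⟩
    have hu' := abs_le.1 hu
    have hu1 : |u| ≤ 1 := hu.trans hk1
    have hu1' := abs_le.1 hu1
    -- the smooth part
    have k3 : |MM (t + u) - MM t| ≤ h + 4 := by
      have hb1 : |u| * L / (2 * Real.pi) ≤ h := by
        rw [div_le_iff₀ (by positivity)]
        have : |u| * L ≤ k * L := mul_le_mul_of_nonneg_right hu hL0.le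
        have e : k * L = h := by rw [hk]; field_simp
        nlinarith
      rcases le_total 0 u with h0 | h0
      · have := MM_diff (T := T) (t := t) (h := u) (by linarith) (by linarith [htI.1]) h0 (by linarith)
          (by linarith [htI.2])
        rw [abs_of_nonneg h0] at hb1
        have h5 := abs_le.1 this
        rw [abs_le]
        have h6 : 0 ≤ u * L / (2 * Real.pi) := by positivity
        rw [← hL] at h5
        constructor <;> linarith [h5.1, h5.2]
      · have := MM_diff (T := T) (t := t + u) (h := -u) (by linarith) (by linarith [htI.1]) (by linarith)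
          (by linarith) (by linarith [htI.2])
        rw [abs_of_nonpos h0] at hb1
        have h5 := abs_le.1 this
        rw [abs_le]
        have h6 : 0 ≤ -u * L / (2 * Real.pi) := by
          have : 0 ≤ -u := by linarith
          positivity
        rw [← hL, show t + u + -u = t by ring] at h5
        constructor <;> linarith [h5.1, h5.2]
    -- the counting function
    have k4 : |F (t + u) - F t| ≤ A := by
      have h1 : F (t - k) ≤ F (t + u) := NN_monotone (by linarith [hu'.1])
      have h2 : F (t + u) ≤ F (t + k) := NN_monotone (by linarith [hu'.2])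
      have h3 : F (t - k) ≤ F t := NN_monotone (by linarith)
      have h4 : F t ≤ F (t + k) := NN_monotone (by linarith)
      rw [abs_le]
      constructor <;> linarith
    have e1 : Dd (t + u) - (Px T t).im = Real.pi * (K0 + (F (t + u) - F t) - (MM (t + u) - MM t) + DN T t) := by
      unfold Dd DN
      rw [NN0 (t + u) (by linarith [htI.1])]
      simp only [hF, hK0]
      field_simp
      ring
    rw [e1, abs_mul, abs_of_pos hpi0]
    have k5 : |K0 + (F (t + u) - F t) - (MM (t + u) - MM t) + DN T t| ≤ K0 + A + (h + 4) + η * σ := by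
      have h1 := abs_le.1 k1
      have h3 := abs_le.1 k3
      have h4 := abs_le.1 k4
      rw [abs_le]
      constructor <;> linarith [h1.1, h1.2, h3.1, h3.2, h4.1, h4.2]
    have k6 : K0 + A + (h + 4) ≤ ε / 8 * σ := by linarith
    calc Real.pi * |K0 + (F (t + u) - F t) - (MM (t + u) - MM t) + DN T t| ≤
        4 * (ε / 8 * σ + ε / 8 * σ) := by
          apply mul_le_mul (by linarith) _ (abs_nonneg _) (by norm_num)
          rw [hη] at k5
          linarith
      _ = ε * σ := by ring

end Pool.Agent.Q173.JL
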