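import Mathlib

/-! # The Gaussian kernel -/

set_option autoImplicit false

namespace Pool.Agent.Q173.JL

open Complex Filter Topology MeasureTheory Set

noncomputable section

/-- the Gaussian density -/
def ph (x : ℝ) : ℝ := (Real.sqrt (2 * Real.pi))⁻¹ * Real.exp (-x ^ 2 / 2)

/-- the Gaussian kernel -/
def VG (z : ℂ) : ℂ := ((Real.sqrt (2 * Real.pi))⁻¹ : ℝ) * cexp (-z ^ 2 / 2)

lemma s2pi : 0 < Real.sqrt (2 * Real.pi) := Real.sqrt_pos.2 (by positivity)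

lemma s2pi_inv_le : (Real.sqrt (2 * Real.pi))⁻¹ ≤ 1 / 2 := by
  have h2 : (2 : ℝ) ≤ Real.sqrt (2 * Real.pi) := by
    rw [Real.le_sqrt (by norm_num) (by positivity)]
    linarith [Real.pi_gt_three]
  rw [← one_div]
  exact one_div_le_one_div_of_le (by norm_num) h2

lemma ph_pos (x : ℝ) : 0 < ph x := by
  unfold ph
  have := s2pi
  positivity

lemma ph_cont : Continuous ph := by unfold ph; fun_prop

lemma ph_neg (x : ℝ) : ph (-x) = ph x := by unfold ph; congr 2; ring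

lemma ph_le (x : ℝ) : ph x ≤ 1 / 2 := by
  unfold ph
  have h1 : Real.exp (-x ^ 2 / 2) ≤ 1 := by
    rw [Real.exp_le_one_iff]
    have := sq_nonneg x
    linarith
  have h2 := s2pi_inv_le
  have h3 := Real.exp_pos (-x ^ 2 / 2)
  have h4 : 0 < (Real.sqrt (2 * Real.pi))⁻¹ := inv_pos.2 s2pi
  nlinarith

lemma VG_real (x : ℝ) : VG x = (ph x : ℂ) := by
  unfold VG ph
  push_cast
  rfl

lemma VG_re (x : ℝ) : (VG x).re = ph x := by rw [VG_real]; simp

lemma VG_im (x : ℝ) : (VG x).im = 0 := by rw [VG_real]; simp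

lemma VG_norm (z : ℂ) : ‖VG z‖ = (Real.sqrt (2 * Real.pi))⁻¹ * Real.exp (-(z.re ^ 2 - z.im ^ 2) / 2) := by
  unfold VG
  rw [norm_mul, Complex.norm_real, Real.norm_of_nonneg (inv_nonneg.2 s2pi.le), Complex.norm_exp]
  congr 2
  have : (-z ^ 2 / 2 : ℂ) = ((-1 / 2 : ℝ) : ℂ) * z ^ 2 := by push_cast; ring
  rw [this, Complex.re_ofReal_mul, sq, Complex.mul_re]
  ring

lemma VG_diff : Differentiable ℂ VG := by unfold VG; fun_prop

lemma VG_bd0 (x : ℝ) : ‖VG (x : ℂ)‖ ≤ 1 * Real.exp (-x ^ 2 / 4) := by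
  rw [VG_norm, Complex.ofReal_re, Complex.ofReal_im]
  have h1 : Real.exp (-(x ^ 2 - 0 ^ 2) / 2) ≤ Real.exp (-x ^ 2 / 4) := by
    rw [Real.exp_le_exp]
    have := sq_nonneg x
    linarith
  have h2 := s2pi_inv_le
  have h3 := Real.exp_pos (-(x ^ 2 - 0 ^ 2) / 2)
  have h4 : 0 < (Real.sqrt (2 * Real.pi))⁻¹ := inv_pos.2 s2pi
  nlinarith

lemma VG_bd1 (z : ℂ) (hz : |z.im| ≤ 1) : ‖VG z‖ ≤ 1 * Real.exp (-z.re ^ 2 / 4) := by
  rw [VG_norm]
  have h0 : z.im ^ 2 ≤ 1 := by rw [← sq_abs]; nlinarith [abs_nonneg z.im]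
  have h1 : Real.exp (-(z.re ^ 2 - z.im ^ 2) / 2) ≤ 2 * Real.exp (-z.re ^ 2 / 4) := by
    have e1 : -(z.re ^ 2 - z.im ^ 2) / 2 ≤ 1 / 2 + -z.re ^ 2 / 4 := by
      have := sq_nonneg z.re
      linarith
    calc Real.exp (-(z.re ^ 2 - z.im ^ 2) / 2) ≤ Real.exp (1 / 2 + -z.re ^ 2 / 4) := Real.exp_le_exp.2 e1
      _ = Real.exp (1 / 2) * Real.exp (-z.re ^ 2 / 4) := Real.exp_add _ _
      _ ≤ 2 * Real.exp (-z.re ^ 2 / 4) := by
          apply mul_le_mul_of_nonneg_right _ (Real.exp_pos _).le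
          have h5 : Real.exp (1 / 2) ^ 2 = Real.exp 1 := by rw [← Real.exp_nat_mul]; norm_num
          have h6 : Real.exp 1 < 2.7182818286 := Real.exp_one_lt_d9
          nlinarith [Real.exp_pos (1 / 2)]
  have h2 := s2pi_inv_le
  have h3 := Real.exp_pos (-z.re ^ 2 / 4)
  have h4 : 0 < (Real.sqrt (2 * Real.pi))⁻¹ := inv_pos.2 s2pi
  have h5 := Real.exp_pos (-(z.re ^ 2 - z.im ^ 2) / 2)
  nlinarith

/-- the total mass -/
lemma ph_int : Integrable ph := by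
  unfold ph
  refine Integrable.const_mul ?_ _
  have := integrable_exp_neg_mul_sq (b := 1 / 2) (by norm_num)
  refine this.congr (Eventually.of_forall fun x => ?_)
  simp only
  congr 1
  ring

/-- the characteristic function -/
lemma ph_char (ξ : ℝ) : ∫ v : ℝ, (ph v : ℂ) * cexp (-(ξ : ℂ) * (v : ℂ) * I) = cexp (-(ξ : ℂ) ^ 2 / 2) := by
  have h := fourierIntegral_gaussian (b := 1 / 2) (by norm_num) (-(ξ : ℂ))
  have e : ∀ v : ℝ, (ph v : ℂ) * cexp (-(ξ : ℂ) * (v : ℂ) * I) =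
      (((Real.sqrt (2 * Real.pi))⁻¹ : ℝ) : ℂ) * (cexp (I * (-(ξ : ℂ)) * v) * cexp (-(1 / 2) * (v : ℂ) ^ 2)) := by
    intro v
    unfold ph
    push_cast
    have e1 : cexp (-(v : ℂ) ^ 2 / 2) = cexp (-(1 / 2) * (v : ℂ) ^ 2) := by congr 1; ring
    have e2 : cexp (-(ξ : ℂ) * (v : ℂ) * I) = cexp (I * (-(ξ : ℂ)) * v) := by congr 1; ring
    rw [e1, e2]
    ring
  simp_rw [e]
  rw [integral_const_mul, h]
  have e3 : ((Real.pi : ℂ) / (1 / 2)) ^ (1 / 2 : ℂ) = (Real.sqrt (2 * Real.pi) : ℂ) := by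
    rw [Real.sqrt_eq_rpow, Complex.ofReal_cpow (by positivity)]
    congr 1
    · push_cast; ring
    · push_cast; ring
  rw [e3, ← mul_assoc, Complex.ofReal_inv, inv_mul_cancel₀, one_mul]
  · congr 1
    ring
  · rw [Complex.ofReal_ne_zero]; exact s2pi.ne'

lemma ph_total : ∫ v : ℝ, ph v = 1 := by
  have h := ph_char 0
  simp only [Complex.ofReal_zero, neg_zero, zero_mul, Complex.exp_zero, mul_one] at h
  have h2 : ∫ v : ℝ, (ph v : ℂ) = ((∫ v : ℝ, ph v : ℝ) : ℂ) := integral_ofReal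
  rw [h2] at h
  norm_num at h
  exact_mod_cast h

/-- the first moment -/
lemma ph_abs_int : Integrable (fun x => |x| * ph x) := by
  have h1 : Integrable fun x : ℝ => x * Real.exp (-(1 / 2) * x ^ 2) := integrable_mul_exp_neg_mul_sq (by norm_num)
  have h2 := h1.norm.const_mul (Real.sqrt (2 * Real.pi))⁻¹
  refine h2.congr (Eventually.of_forall fun x => ?_)
  simp only
  unfold ph
  rw [Real.norm_eq_abs, abs_mul, abs_of_pos (Real.exp_pos _)]
  have : Real.exp (-(1 / 2) * x ^ 2) = Real.exp (-x ^ 2 / 2) := by congr 1; ring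
  rw [this]
  ring

lemma gauss4_int : Integrable fun x : ℝ => Real.exp (-x ^ 2 / 4) := by
  have := integrable_exp_neg_mul_sq (b := 1 / 4) (by norm_num)
  refine this.congr (Eventually.of_forall fun x => ?_)
  simp only
  congr 1
  ring

lemma gauss4_total : ∫ x : ℝ, Real.exp (-x ^ 2 / 4) ≤ 4 := by
  have h := integral_gaussian (1 / 4)
  have e : ∀ x : ℝ, Real.exp (-x ^ 2 / 4) = Real.exp (-(1 / 4) * x ^ 2) := fun x => by congr 1; ring
  simp_rw [e]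
  rw [h, Real.sqrt_le_left (by norm_num)]
  linarith [Real.pi_lt_d2]

/-- the tails -/
lemma ph_tail {L x : ℝ} (hL : 0 ≤ L) (hx : L ≤ |x|) : ph x ≤ Real.exp (-L ^ 2 / 4) * Real.exp (-x ^ 2 / 4) := by
  rw [← Real.exp_add]
  unfold ph
  have h1 : L ^ 2 ≤ x ^ 2 := by rw [← sq_abs x]; exact pow_le_pow_left₀ hL hx 2
  have h2 : Real.exp (-x ^ 2 / 2) ≤ Real.exp (-L ^ 2 / 4 + -x ^ 2 / 4) := Real.exp_le_exp.2 (by linarith)
  have h3 := s2pi_inv_le
  have h4 : 0 < (Real.sqrt (2 * Real.pi))⁻¹ := inv_pos.2 s2pi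
  have h5 := Real.exp_pos (-x ^ 2 / 2)
  nlinarith

end

end Pool.Agent.Q173.JL
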