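import Pool.Agent.Q173.JL.Tel
import Pool.Agent.Q173.JL.Ker
import Pool.Agent.Y746.OJ.Stm3
import Pool.Agent.Y746.OJ.A5
import Pool.Agent.TH803.UC.Dyad

/-! # The local averages of the displacement are bounded in mean -/

set_option autoImplicit false

namespace Pool.Agent.Q173.JL

open Complex Filter Topology MeasureTheory Set
open Pool.Agent.Y745.SW (Py Px P_MVB P_DX xT)
open Pool.Agent.Y746.OJ (KerOK VH ZR S0 S_SF S_RV S_BD pt NZ NZ_null S0_meas)
open H370 (zz Zf mult mem_Zf good_zeta NN NN_eq NN_add NN_mono zz_re zz_im)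

lemma kerOK : KerOK VG 1 1 := ⟨VG_diff, VG_im, VG_bd0, fun z hz => VG_bd1 z hz⟩

lemma VH_VG (ξ : ℝ) : VH VG ξ = cexp (-(ξ : ℂ) ^ 2 / 2) := by
  unfold VH
  rw [← ph_char]
  refine integral_congr_ae (Eventually.of_forall fun v => ?_)
  simp only
  rw [VG_real]

lemma exp_log_sq (n : ℕ) (hn : 1 ≤ n) : Real.exp (-(Real.log n) ^ 2 / 2) ≤ Real.exp 2 * (1 / (n : ℝ) ^ 2) := by
  have hn0 : (0 : ℝ) < n := by exact_mod_cast (by omega : 0 < n)
  have h1 : -(Real.log n) ^ 2 / 2 ≤ 2 + -(2 * Real.log n) := by nlinarith [sq_nonneg (Real.log n - 2)]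
  calc Real.exp (-(Real.log n) ^ 2 / 2) ≤ Real.exp (2 + -(2 * Real.log n)) := Real.exp_le_exp.2 h1
    _ = Real.exp 2 * Real.exp (-(2 * Real.log n)) := Real.exp_add _ _
    _ = Real.exp 2 * (1 / (n : ℝ) ^ 2) := by
        congr 1
        rw [Real.exp_neg, one_div]
        congr 1
        have : 2 * Real.log n = Real.log ((n : ℝ) ^ 2) := by rw [Real.log_pow]; push_cast; ring
        rw [this, Real.exp_log (by positivity)]

lemma norm_npow (n : ℕ) (hn : 1 ≤ n) (t : ℝ) : ‖(n : ℂ) ^ (-((t : ℂ) * I))‖ = 1 := by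
  have hn0 : (0 : ℝ) < n := by exact_mod_cast (by omega : 0 < n)
  have e : ((n : ℕ) : ℂ) = ((n : ℝ) : ℂ) := by push_cast; rfl
  rw [e, Complex.norm_cpow_eq_rpow_re_of_pos hn0]
  simp

/-- the sum over the prime powers is bounded -/
lemma ps_bd : ∃ K : ℝ, 0 < K ∧ ∀ t : ℝ, |∑' n : ℕ, ArithmeticFunction.vonMangoldt n / (Real.sqrt n * Real.log n) *
    ((n : ℂ) ^ (-((t : ℂ) * I)) * VH VG (Real.log n)).im| ≤ K := by
  have hs : Summable fun n : ℕ => Real.exp 2 * (1 / (n : ℝ) ^ 2) :=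
    (Real.summable_one_div_nat_pow.2 (by norm_num)).mul_left _
  refine ⟨(∑' n : ℕ, Real.exp 2 * (1 / (n : ℝ) ^ 2)) + 1, ?_, fun t => ?_⟩
  · have : 0 ≤ ∑' n : ℕ, Real.exp 2 * (1 / (n : ℝ) ^ 2) := tsum_nonneg fun n => by positivity
    linarith
  have h := tsum_of_norm_bounded (f := fun n : ℕ => ArithmeticFunction.vonMangoldt n / (Real.sqrt n * Real.log n) *
    ((n : ℂ) ^ (-((t : ℂ) * I)) * VH VG (Real.log n)).im) hs.hasSum fun n => ?_
  · rw [Real.norm_eq_abs] at h
    linarith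
  · rcases Nat.lt_or_ge n 2 with hn | hn
    · have h0 : ArithmeticFunction.vonMangoldt n = 0 := by
        rw [ArithmeticFunction.vonMangoldt_eq_zero_iff]
        intro h
        have := h.one_lt
        omega
      rw [h0, zero_div, zero_mul, norm_zero]
      positivity
    · have hn0 : (0 : ℝ) < n := by exact_mod_cast (by omega : 0 < n)
      have hlog : 0 < Real.log n := Real.log_pos (by exact_mod_cast (by omega : 1 < n))
      have hsq : 1 ≤ Real.sqrt n := by
        rw [Real.one_le_sqrt]; exact_mod_cast (by omega : 1 ≤ n)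
      have h1 : |ArithmeticFunction.vonMangoldt n / (Real.sqrt n * Real.log n)| ≤ 1 := by
        rw [abs_of_nonneg (div_nonneg ArithmeticFunction.vonMangoldt_nonneg (by positivity)),
          div_le_one (by positivity)]
        have h2 : ArithmeticFunction.vonMangoldt n ≤ Real.log n := ArithmeticFunction.vonMangoldt_le_log
        nlinarith
      have h2 : |((n : ℂ) ^ (-((t : ℂ) * I)) * VH VG (Real.log n)).im| ≤ Real.exp 2 * (1 / (n : ℝ) ^ 2) := by
        refine (Complex.abs_im_le_norm _).trans ?_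
        rw [norm_mul, norm_npow n (by omega), one_mul, VH_VG, Complex.norm_exp]
        refine le_trans (le_of_eq ?_) (exp_log_sq n (by omega))
        congr 1
        have : (-(Real.log n : ℂ) ^ 2 / 2) = ((-(Real.log n) ^ 2 / 2 : ℝ) : ℂ) := by push_cast; ring
        rw [this, Complex.ofReal_re]
      rw [norm_mul, Real.norm_eq_abs, Real.norm_eq_abs]
      calc _ ≤ 1 * (Real.exp 2 * (1 / (n : ℝ) ^ 2)) := mul_le_mul h1 h2 (abs_nonneg _) (by norm_num)
        _ = _ := one_mul _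

/-- truncated Fourier integrals -/
lemma trunc {L : ℝ} (hL : 0 ≤ L) (ξ : ℝ) : ‖∫ u in (-L)..L, (ph u : ℂ) * cexp (-(ξ : ℂ) * (u : ℂ) * I)‖ ≤
    Real.exp (-ξ ^ 2 / 2) + 4 * Real.exp (-L ^ 2 / 4) := by
  set F : ℝ → ℂ := fun u => (ph u : ℂ) * cexp (-(ξ : ℂ) * (u : ℂ) * I) with hF
  have hn : ∀ u, ‖F u‖ = ph u := by
    intro u
    simp only [hF]
    rw [norm_mul, Complex.norm_real, Real.norm_of_nonneg (ph_pos u).le, Complex.norm_exp]
    have : (-(ξ : ℂ) * (u : ℂ) * I) = ((-(ξ * u) : ℝ) : ℂ) * I := by push_cast; ring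
    rw [this]
    simp
  have hFc : Continuous F := by
    simp only [hF]
    exact (Complex.continuous_ofReal.comp ph_cont).mul (by fun_prop)
  have hFi : Integrable F := by
    refine ph_int.mono' hFc.aestronglyMeasurable (Eventually.of_forall fun u => ?_)
    rw [hn]
  have h1 : ∫ u in (-L)..L, F u = (∫ u, F u) - ∫ u in (Ioc (-L) L)ᶜ, F u := by
    rw [intervalIntegral.integral_of_le (by linarith), ← integral_add_compl measurableSet_Ioc hFi]
    ring
  rw [h1]
  refine (norm_sub_le _ _).trans ?_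
  refine add_le_add (le_of_eq ?_) ?_
  · rw [show (∫ u, F u) = cexp (-(ξ : ℂ) ^ 2 / 2) from ph_char ξ, Complex.norm_exp]
    congr 1
    have : (-(ξ : ℂ) ^ 2 / 2) = ((-ξ ^ 2 / 2 : ℝ) : ℂ) := by push_cast; ring
    rw [this, Complex.ofReal_re]
  · have h2 : ‖∫ u in (Ioc (-L) L)ᶜ, F u‖ ≤ ∫ u in (Ioc (-L) L)ᶜ, Real.exp (-L ^ 2 / 4) * Real.exp (-u ^ 2 / 4) := by
      refine norm_integral_le_of_norm_le (gauss4_int.const_mul _).integrableOn ?_
      rw [ae_restrict_iff' measurableSet_Ioc.compl]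
      refine Eventually.of_forall fun u hu => ?_
      rw [hn]
      apply ph_tail hL
      rw [mem_compl_iff, mem_Ioc, not_and_or, not_lt, not_le] at hu
      rcases hu with h | h
      · rw [abs_of_nonpos (by linarith)]; linarith
      · rw [abs_of_pos (by linarith)]; exact h.le
    refine h2.trans ?_
    have h3 : ∫ u in (Ioc (-L) L)ᶜ, Real.exp (-L ^ 2 / 4) * Real.exp (-u ^ 2 / 4) ≤
        ∫ u : ℝ, Real.exp (-L ^ 2 / 4) * Real.exp (-u ^ 2 / 4) :=
      setIntegral_le_integral (gauss4_int.const_mul _) (Eventually.of_forall fun u => by positivity)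
    refine h3.trans ?_
    rw [integral_const_mul]
    have := gauss4_total
    have h4 := Real.exp_pos (-L ^ 2 / 4)
    nlinarith

/-- the averages of the sum over the small primes -/
lemma px_avg : ∃ K : ℝ, 0 < K ∧ ∀ᶠ T : ℝ in atTop, ∀ t : ℝ,
    |∫ u in (-Real.log T)..(Real.log T), ph u * (Px T (t + u)).im| ≤ K := by
  have hs : Summable fun n : ℕ => Real.exp 2 * (1 / (n : ℝ) ^ 2) :=
    (Real.summable_one_div_nat_pow.2 (by norm_num)).mul_left _
  set K0 : ℝ := ∑' n : ℕ, Real.exp 2 * (1 / (n : ℝ) ^ 2) with hK0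
  have hK00 : 0 ≤ K0 := tsum_nonneg fun n => by positivity
  refine ⟨K0 + 4, by positivity, ?_⟩
  filter_upwards [Real.tendsto_log_atTop.eventually_ge_atTop 8, eventually_ge_atTop 10] with T h8 h10 t
  have hT0 : 0 < T := by linarith
  set L := Real.log T with hL
  have hL0 : 0 ≤ L := by linarith
  have hc : ∀ p : ℕ, p.Prime → Continuous fun u : ℝ => (ph u : ℂ) * (p : ℂ) ^ (-(1 / 2 + ((t + u : ℝ) : ℂ) * I)) := by
    intro p hp
    refine (Complex.continuous_ofReal.comp ph_cont).mul ?_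
    refine Continuous.const_cpow (by fun_prop) (Or.inl ?_)
    exact_mod_cast hp.ne_zero
  have e1 : ∀ u : ℝ, ph u * (Px T (t + u)).im = ((ph u : ℂ) * Px T (t + u)).im := by
    intro u; rw [Complex.im_ofReal_mul]
  have hcP : Continuous fun u : ℝ => (ph u : ℂ) * Px T (t + u) :=
    (Complex.continuous_ofReal.comp ph_cont).mul
      ((Pool.Agent.Y141.SW.Px_cont T).comp (continuous_const.add continuous_id))
  have e2 : ∫ u in (-L)..L, ph u * (Px T (t + u)).im = (∫ u in (-L)..L, (ph u : ℂ) * Px T (t + u)).im := by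
    simp_rw [e1]
    exact (Complex.imCLM.intervalIntegral_comp_comm (hcP.intervalIntegrable _ _))
  rw [e2]
  refine (Complex.abs_im_le_norm _).trans ?_
  have e3 : ∫ u in (-L)..L, (ph u : ℂ) * Px T (t + u) = ∑ p ∈ (Finset.Icc 1 ⌊xT T⌋₊).filter Nat.Prime,
      (p : ℂ) ^ (-(1 / 2 + (t : ℂ) * I)) * ∫ u in (-L)..L, (ph u : ℂ) * cexp (-((Real.log p : ℝ) : ℂ) * (u : ℂ) * I) := by
    have e4 : ∀ u : ℝ, (ph u : ℂ) * Px T (t + u) = ∑ p ∈ (Finset.Icc 1 ⌊xT T⌋₊).filter Nat.Prime,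
        (ph u : ℂ) * (p : ℂ) ^ (-(1 / 2 + ((t + u : ℝ) : ℂ) * I)) := by
      intro u
      unfold Px Py
      rw [Finset.mul_sum]
    simp_rw [e4]
    rw [intervalIntegral.integral_finsetSum fun p hp => (hc p (Finset.mem_filter.1 hp).2).intervalIntegrable _ _]
    refine Finset.sum_congr rfl fun p hp => ?_
    have hp0 : (p : ℂ) ≠ 0 := by exact_mod_cast (Finset.mem_filter.1 hp).2.ne_zero
    rw [← intervalIntegral.integral_const_mul]
    refine intervalIntegral.integral_congr fun u _ => ?_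
    have e5 : (-(1 / 2 + ((t + u : ℝ) : ℂ) * I)) = (-(1 / 2 + (t : ℂ) * I)) + (-(u : ℂ) * I) := by
      push_cast; ring
    have e6 : (p : ℂ) ^ (-(u : ℂ) * I) = cexp (-((Real.log p : ℝ) : ℂ) * (u : ℂ) * I) := by
      rw [Complex.cpow_def_of_ne_zero hp0, ← Complex.natCast_log]
      congr 1
      ring
    rw [e5, Complex.cpow_add _ _ hp0, e6]
    ring
  rw [e3]
  refine (norm_sum_le _ _).trans ?_
  have h1 : ∀ p ∈ (Finset.Icc 1 ⌊xT T⌋₊).filter Nat.Prime,
      ‖(p : ℂ) ^ (-(1 / 2 + (t : ℂ) * I)) * ∫ u in (-L)..L, (ph u : ℂ) * cexp (-((Real.log p : ℝ) : ℂ) * (u : ℂ) * I)‖ ≤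
        Real.exp 2 * (1 / (p : ℝ) ^ 2) + 4 * Real.exp (-L ^ 2 / 4) := by
    intro p hp
    rw [Finset.mem_filter, Finset.mem_Icc] at hp
    have hp1 : (1 : ℝ) ≤ p := by exact_mod_cast hp.2.one_le
    rw [norm_mul]
    have h2 : ‖(p : ℂ) ^ (-(1 / 2 + (t : ℂ) * I))‖ ≤ 1 := by
      have e : ((p : ℕ) : ℂ) = ((p : ℝ) : ℂ) := by push_cast; rfl
      rw [e, Complex.norm_cpow_eq_rpow_re_of_pos (by linarith)]
      apply Real.rpow_le_one_of_one_le_of_nonpos hp1
      simp
    have h3 := trunc hL0 (Real.log p)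
    have h4 := exp_log_sq p hp.2.one_le
    calc _ ≤ 1 * (Real.exp (-(Real.log p) ^ 2 / 2) + 4 * Real.exp (-L ^ 2 / 4)) :=
          mul_le_mul h2 h3 (norm_nonneg _) zero_le_one
      _ ≤ _ := by linarith
  refine (Finset.sum_le_sum h1).trans ?_
  rw [Finset.sum_add_distrib, Finset.sum_const, nsmul_eq_mul]
  have h5 : ∑ p ∈ (Finset.Icc 1 ⌊xT T⌋₊).filter Nat.Prime, Real.exp 2 * (1 / (p : ℝ) ^ 2) ≤ K0 :=
    hs.sum_le_tsum _ fun k _ => by positivity
  have h6 : (((Finset.Icc 1 ⌊xT T⌋₊).filter Nat.Prime).card : ℝ) ≤ T := by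
    have a1 : ((Finset.Icc 1 ⌊xT T⌋₊).filter Nat.Prime).card ≤ ⌊xT T⌋₊ := by
      refine (Finset.card_filter_le _ _).trans ?_
      rw [Nat.card_Icc]; omega
    have a2 : (⌊xT T⌋₊ : ℝ) ≤ xT T := Nat.floor_le (by unfold xT; positivity)
    have a3 : xT T ≤ T := by
      unfold xT
      rw [← hL]
      have b1 : 1 ≤ Real.log L := by
        rw [Real.le_log_iff_exp_le (by linarith)]
        linarith [Real.exp_one_lt_d9]
      calc Real.exp (L / Real.log L) ≤ Real.exp L := by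
            rw [Real.exp_le_exp]
            exact div_le_self hL0 b1
        _ = T := by rw [hL, Real.exp_log hT0]
    calc _ ≤ (⌊xT T⌋₊ : ℝ) := by exact_mod_cast a1
      _ ≤ T := a2.trans a3
  have h7 : Real.exp (-L ^ 2 / 4) ≤ 1 / T := by
    rw [one_div, ← Real.exp_log hT0, ← Real.exp_neg, Real.exp_le_exp, ← hL]
    nlinarith
  have h8' : (((Finset.Icc 1 ⌊xT T⌋₊).filter Nat.Prime).card : ℝ) * (4 * Real.exp (-L ^ 2 / 4)) ≤ 4 := by
    calc _ ≤ T * (4 * (1 / T)) := by gcongr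
      _ = 4 := by field_simp
  linarith

/-- the sum over the zeros off the critical line -/
noncomputable def GZ (T t : ℝ) : ℝ :=
  2 * ∑ s ∈ Zf riemannZeta T (2 * T), (mult riemannZeta s : ℝ) * (|(zz s).im| * Real.exp (-(s.im - t) ^ 2 / 4))

lemma GZ_cont (T : ℝ) : Continuous (GZ T) := by unfold GZ; fun_prop

lemma GZ_nonneg (T t : ℝ) : 0 ≤ GZ T t := by
  unfold GZ
  exact mul_nonneg (by norm_num) (Finset.sum_nonneg fun s _ => by positivity)

lemma GZ_int : ∃ K : ℝ, 0 < K ∧ ∀ᶠ T : ℝ in atTop, ∀ A B : ℝ, A ≤ B → ∫ t in A..B, GZ T t ≤ K * T := by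
  obtain ⟨C, T0, hC, hT0, h⟩ := TH803UC.DD_le good_zeta TH803UC.dens_zeta
  refine ⟨8 * C, by positivity, ?_⟩
  filter_upwards [eventually_ge_atTop T0] with T hT A B hAB
  have h1 := h T hT T (2 * T) le_rfl le_rfl
  unfold GZ
  rw [intervalIntegral.integral_const_mul, intervalIntegral.integral_finsetSum fun s _ =>
    Continuous.intervalIntegrable (by fun_prop) _ _]
  have h2 : ∀ s ∈ Zf riemannZeta T (2 * T), ∫ t in A..B, (mult riemannZeta s : ℝ) *
      (|(zz s).im| * Real.exp (-(s.im - t) ^ 2 / 4)) ≤ 4 * ((mult riemannZeta s : ℝ) * |(zz s).im|) := by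
    intro s _
    have e : ∀ t : ℝ, (mult riemannZeta s : ℝ) * (|(zz s).im| * Real.exp (-(s.im - t) ^ 2 / 4)) =
        ((mult riemannZeta s : ℝ) * |(zz s).im|) * Real.exp (-(s.im - t) ^ 2 / 4) := fun t => by ring
    simp_rw [e]
    rw [intervalIntegral.integral_const_mul]
    have h3 : ∫ t in A..B, Real.exp (-(s.im - t) ^ 2 / 4) ≤ 4 := by
      rw [intervalIntegral.integral_of_le hAB]
      have e2 : ∀ t : ℝ, Real.exp (-(s.im - t) ^ 2 / 4) = Real.exp (-(t - s.im) ^ 2 / 4) := fun t => by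
        congr 1; ring
      simp_rw [e2]
      have hi : Integrable fun t : ℝ => Real.exp (-(t - s.im) ^ 2 / 4) := gauss4_int.comp_sub_right s.im
      refine (setIntegral_le_integral hi (Eventually.of_forall fun t => by positivity)).trans ?_
      rw [integral_sub_right_eq_self (fun t : ℝ => Real.exp (-t ^ 2 / 4)) s.im]
      exact gauss4_total
    have h4 : 0 ≤ (mult riemannZeta s : ℝ) * |(zz s).im| := by positivity
    nlinarith
  have h3 := Finset.sum_le_sum h2
  rw [← Finset.mul_sum] at h3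
  have h4 : ∑ s ∈ Zf riemannZeta T (2 * T), ((mult riemannZeta s : ℝ) * |(zz s).im|) ≤ C * T := h1
  linarith

end Pool.Agent.Q173.JL
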