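import Pool.Agent.Q173.JL.Dis

/-! # The displacement is close to the sum over the small primes -/

set_option autoImplicit false

namespace Pool.Agent.Q173.JL

open Complex Filter Topology MeasureTheory Set
open Pool.Agent.Y745.SW (Py Px P_MVB P_DX xT)
open Pool.Agent.Y746.OJ (KerOK VH ZR S0 S_SF S_RV S_BD pt NZ NZ_null S0_meas)
open H370 (zz Zf mult mem_Zf good_zeta NN NN_eq NN_add NN_mono zz_re zz_im)

/-- exchanging averages -/
lemma fub {a b L M c : ℝ} {D : ℝ → ℝ} (hab : a ≤ b) (hL : 0 ≤ L) (hD : Measurable D)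
    (hM : ∀ y ∈ Icc (a - L) (b + L), |D y| ≤ M) (hc : ∀ u ∈ Icc (-L) L, ∫ t in a..b, |D (t + u) - D t| ≤
      c * (|u| + 1)) :
    IntervalIntegrable (fun t => ∫ u in (-L)..L, ph u * |D (t + u) - D t|) volume a b ∧
    ∫ t in a..b, ∫ u in (-L)..L, ph u * |D (t + u) - D t| ≤ ∫ u in (-L)..L, ph u * (c * (|u| + 1)) := by
  have hM0 : 0 ≤ M := (abs_nonneg _).trans (hM a ⟨by linarith, by linarith⟩)
  set D' : ℝ → ℝ := (Icc (a - L) (b + L)).indicator D with hD'
  have hDm : Measurable D' := hD.indicator measurableSet_Icc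
  have hDb : ∀ y, |D' y| ≤ M := by
    intro y
    simp only [hD']
    by_cases hy : y ∈ Icc (a - L) (b + L)
    · rw [indicator_of_mem hy]; exact hM y hy
    · rw [indicator_of_notMem hy, abs_zero]; exact hM0
  have hDe : ∀ y ∈ Icc (a - L) (b + L), D' y = D y := fun y hy => indicator_of_mem hy _
  set F : ℝ → ℝ → ℝ := fun t u => ph u * |D' (t + u) - D' t| with hF
  have hFm : Measurable (Function.uncurry F) := by
    have e : Function.uncurry F = fun p : ℝ × ℝ => ph p.2 * |D' (p.1 + p.2) - D' p.1| := rfl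
    rw [e]
    have h1 : Measurable fun p : ℝ × ℝ => D' (p.1 + p.2) := hDm.comp (measurable_fst.add measurable_snd)
    have h2 : Measurable fun p : ℝ × ℝ => D' p.1 := hDm.comp measurable_fst
    have h3 : Measurable fun p : ℝ × ℝ => |D' (p.1 + p.2) - D' p.1| := (h1.sub h2).norm
    exact (ph_cont.measurable.comp measurable_snd).mul h3
  have hFb : ∀ t u, |F t u| ≤ M := by
    intro t u
    simp only [hF]
    rw [abs_mul, abs_abs, abs_of_pos (ph_pos u)]
    have h1 := hDb (t + u)
    have h2 := hDb t
    have h3 : |D' (t + u) - D' t| ≤ M + M := (abs_sub _ _).trans (add_le_add h1 h2)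
    have h4 := ph_le u
    have h5 := ph_pos u
    nlinarith [abs_nonneg (D' (t + u) - D' t)]
  set μ : Measure ℝ := volume.restrict (Ioc a b) with hμ
  set ν : Measure ℝ := volume.restrict (Ioc (-L) L) with hν
  have f1 : IsFiniteMeasure μ := ⟨by rw [hμ, Measure.restrict_apply_univ, Real.volume_Ioc]; exact ENNReal.ofReal_lt_top⟩
  have f2 : IsFiniteMeasure ν := ⟨by rw [hν, Measure.restrict_apply_univ, Real.volume_Ioc]; exact ENNReal.ofReal_lt_top⟩
  have hFi : Integrable (Function.uncurry F) (μ.prod ν) :=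
    Integrable.of_bound hFm.aestronglyMeasurable M (Eventually.of_forall fun p => hFb p.1 p.2)
  have hsw := integral_integral_swap hFi
  have e1 : ∀ t ∈ Ioc a b, (∫ u in (-L)..L, ph u * |D (t + u) - D t|) = ∫ u, F t u ∂ν := by
    intro t ht
    rw [intervalIntegral.integral_of_le (by linarith), hν]
    refine setIntegral_congr_fun measurableSet_Ioc fun u hu => ?_
    simp only [hF]
    rw [hDe t ⟨by linarith [ht.1], by linarith [ht.2]⟩, hDe (t + u) ⟨by linarith [ht.1, hu.1], by linarith [ht.2, hu.2]⟩]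
  have hi0 : Integrable (fun t => ∫ u, F t u ∂ν) μ := hFi.integral_prod_left
  constructor
  · rw [intervalIntegrable_iff_integrableOn_Ioc_of_le hab]
    refine IntegrableOn.congr_fun (f := fun t => ∫ u, F t u ∂ν) hi0 (fun t ht => (e1 t ht).symm) measurableSet_Ioc
  · have e2 : ∫ t in a..b, ∫ u in (-L)..L, ph u * |D (t + u) - D t| = ∫ t, ∫ u, F t u ∂ν ∂μ := by
      rw [intervalIntegral.integral_of_le hab, hμ]
      exact setIntegral_congr_fun measurableSet_Ioc fun t ht => e1 t ht
    rw [e2, hsw, intervalIntegral.integral_of_le (by linarith : -L ≤ L)]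
    refine setIntegral_mono_on hFi.integral_prod_right ?_ measurableSet_Ioc fun u hu => ?_
    · have hcont : Continuous fun u => ph u * (c * (|u| + 1)) :=
        ph_cont.mul (continuous_const.mul (continuous_abs.add continuous_const))
      exact (hcont.integrableOn_Icc (a := -L) (b := L)).mono_set Ioc_subset_Icc_self
    · have e3 : ∫ t, F t u ∂μ = ph u * ∫ t in a..b, |D (t + u) - D t| := by
        rw [intervalIntegral.integral_of_le hab, ← integral_const_mul, hμ]
        refine setIntegral_congr_fun measurableSet_Ioc fun t ht => ?_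
        simp only [hF]
        rw [hDe t ⟨by linarith [ht.1], by linarith [ht.2]⟩,
          hDe (t + u) ⟨by linarith [ht.1, hu.1], by linarith [ht.2, hu.2]⟩]
      show ∫ t, F t u ∂μ ≤ _
      rw [e3]
      exact mul_le_mul_of_nonneg_left (hc u ⟨hu.1.le, hu.2⟩) (ph_pos u).le

/-- **the displacement in mean** -/
theorem disp_small (hMVB : P_MVB) (hDX : P_DX) (hSF : S_SF) (hRV : S_RV) (hBD : S_BD) (ε : ℝ) (hε : 0 < ε) :
    ∀ᶠ T : ℝ in atTop, ∫ t in (T + 3 * Real.log T)..(2 * T - 3 * Real.log T), |DN T t| ≤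
      ε * (T * Real.sqrt (Real.log (Real.log T))) := by
  obtain ⟨K, hK, havg⟩ := avg_pt hSF hRV hBD
  obtain ⟨KG, hKG, hgz⟩ := GZ_int
  set K1 : ℝ := ∫ x : ℝ, |x| * ph x with hK1
  have hK10 : 0 ≤ K1 := integral_nonneg fun x => mul_nonneg (abs_nonneg _) (ph_pos x).le
  set ε1 : ℝ := ε / (4 * (K1 + 1)) with hε1
  have hε10 : 0 < ε1 := by positivity
  have hσ : Tendsto (fun T : ℝ => Real.sqrt (Real.log (Real.log T))) atTop atTop := Pool.Agent.Y141.SW.tendsto_S
  have hev : ∀ᶠ T : ℝ in atTop, 6 * Real.log T ≤ T := by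
    have h1 := (Real.isLittleO_log_id_atTop).bound (c := 1 / 6) (by norm_num)
    filter_upwards [h1, eventually_ge_atTop 1] with T t1 t2
    have hL : 0 ≤ Real.log T := Real.log_nonneg (by linarith)
    simp only [id, Real.norm_eq_abs] at t1
    rw [abs_of_nonneg hL, abs_of_nonneg (by linarith)] at t1
    linarith
  filter_upwards [havg, hgz, tel2 hMVB hDX ε1 hε10, hσ.eventually_ge_atTop ((2 * K + 2 * KG) / (ε / 2)), hev,
    Real.tendsto_log_atTop.eventually_ge_atTop 8, eventually_ge_atTop 100] with T t1 t2 t3 t4 t5 t6 t7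
  have hT0 : 0 < T := by linarith
  set L := Real.log T with hL
  set σ := Real.sqrt (Real.log L) with hσd
  set a := T + 3 * L with ha
  set b := 2 * T - 3 * L with hb
  have hab : a ≤ b := by linarith
  have hσ0 : 0 ≤ σ := Real.sqrt_nonneg _
  obtain ⟨-, M, hM⟩ := MB_DN (A := a - L) (B := b + L) T (by linarith)
  obtain ⟨i1, h1⟩ := fub (a := a) (b := b) (L := L) (M := M) (c := ε1 * (T * σ)) (D := DN T) hab (by linarith)
    (MB_DN (A := a) (B := b) T (by linarith)).1 hM (fun u hu => by
      have := t3 u (abs_le.2 hu)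
      refine this.trans (le_of_eq ?_)
      ring)
  -- the pointwise bound
  have hpt : ∀ t ∈ Icc a b, |DN T t| ≤
      2 * (∫ u in (-L)..L, ph u * |DN T (t + u) - DN T t|) + (2 * K + 2 * GZ T t) := by
    intro t ht
    have k1 := t1 t ht.1 ht.2
    have k2 := half_mass (L := L) (by linarith)
    have m1 : MB (-L) L (fun u => DN T (t + u)) := by
      have := MB.shift (A := -L) (B := L) (f := DN T) (c := t) (MB_DN T (by linarith [ht.1]))
      refine cast (congrArg _ ?_) this
      funext u; rw [add_comm]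
    have m2 : MB (-L) L (fun u => ph u * DN T (t + u)) := (MB.cont ph_cont).mul m1
    have m3 : MB (-L) L (fun u => ph u * DN T t) := MB.cont (ph_cont.mul continuous_const)
    have hLL : -L ≤ L := by linarith
    have e1 : (∫ u in (-L)..L, ph u) * DN T t = (∫ u in (-L)..L, ph u * DN T (t + u)) -
        ∫ u in (-L)..L, ph u * (DN T (t + u) - DN T t) := by
      rw [← intervalIntegral.integral_mul_const]
      have e2 : ∀ u, ph u * (DN T (t + u) - DN T t) = ph u * DN T (t + u) - ph u * DN T t := fun u => by ring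
      simp_rw [e2]
      rw [intervalIntegral.integral_sub (m2.int hLL) (m3.int hLL)]
      ring
    have e3 : |∫ u in (-L)..L, ph u * (DN T (t + u) - DN T t)| ≤ ∫ u in (-L)..L, ph u * |DN T (t + u) - DN T t| := by
      refine (intervalIntegral.abs_integral_le_integral_abs hLL).trans (le_of_eq ?_)
      refine intervalIntegral.integral_congr fun u _ => ?_
      show |ph u * (DN T (t + u) - DN T t)| = ph u * |DN T (t + u) - DN T t|
      rw [abs_mul, abs_of_pos (ph_pos u)]
    have e4 : |(∫ u in (-L)..L, ph u) * DN T t| ≤ (K + GZ T t) + ∫ u in (-L)..L, ph u * |DN T (t + u) - DN T t| := by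
      rw [e1]
      exact (abs_sub _ _).trans (add_le_add k1 e3)
    rw [abs_mul, abs_of_nonneg (by linarith)] at e4
    have e5 : 1 / 2 * |DN T t| ≤ (∫ u in (-L)..L, ph u) * |DN T t| := mul_le_mul_of_nonneg_right k2 (abs_nonneg _)
    linarith
  have i2 : IntervalIntegrable (fun t => 2 * K + 2 * GZ T t) volume a b :=
    Continuous.intervalIntegrable (continuous_const.add (continuous_const.mul (GZ_cont T))) _ _
  have i3 : IntervalIntegrable (fun t => 2 * ∫ u in (-L)..L, ph u * |DN T (t + u) - DN T t|) volume a b :=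
    i1.const_mul 2
  have m0 : MB a b (DN T) := MB_DN T (by linarith)
  refine (intervalIntegral.integral_mono_on hab (m0.abs.int hab) (i3.add i2) hpt).trans ?_
  have i4 : IntervalIntegrable (fun _ : ℝ => 2 * K) volume a b := intervalIntegrable_const
  have i5 : IntervalIntegrable (fun t => 2 * GZ T t) volume a b :=
    Continuous.intervalIntegrable (continuous_const.mul (GZ_cont T)) _ _
  rw [intervalIntegral.integral_add i3 i2, intervalIntegral.integral_const_mul,
    intervalIntegral.integral_add i4 i5, intervalIntegral.integral_const, intervalIntegral.integral_const_mul,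
    smul_eq_mul]
  have h2 : ∫ u in (-L)..L, ph u * (ε1 * (T * σ) * (|u| + 1)) ≤ ε1 * (T * σ) * (K1 + 1) := by
    have e1 : ∀ u, ph u * (ε1 * (T * σ) * (|u| + 1)) = ε1 * (T * σ) * (|u| * ph u + ph u) := fun u => by ring
    simp_rw [e1]
    rw [intervalIntegral.integral_const_mul, intervalIntegral.integral_of_le (by linarith)]
    refine mul_le_mul_of_nonneg_left ?_ (by positivity)
    have hii : Integrable (fun u => |u| * ph u + ph u) := ph_abs_int.add ph_int
    refine (setIntegral_le_integral hii (Eventually.of_forall fun u =>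
      add_nonneg (mul_nonneg (abs_nonneg _) (ph_pos u).le) (ph_pos u).le)).trans ?_
    have e9 : ∫ u : ℝ, (|u| * ph u + ph u) = (∫ u : ℝ, |u| * ph u) + ∫ u : ℝ, ph u :=
      integral_add ph_abs_int ph_int
    rw [e9, ph_total]
  have h3 := t2 a b hab
  have h4 : (b - a) * (2 * K) ≤ T * (2 * K) := mul_le_mul_of_nonneg_right (by linarith) (by positivity)
  have h5 : ε1 * (T * σ) * (K1 + 1) = ε / 4 * (T * σ) := by rw [hε1]; field_simp
  have h6 : T * (2 * K + 2 * KG) ≤ ε / 2 * (T * σ) := by
    rw [div_le_iff₀ (by positivity)] at t4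
    have := mul_le_mul_of_nonneg_left t4 hT0.le
    linarith
  linarith

end Pool.Agent.Q173.JL
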