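import Pool.Agent.Y743.CL.Cf
import Pool.Agent.Y745.SW.DefsA

/-! # The integrated prime sum and the sum over the small primes -/

set_option autoImplicit false

namespace Pool.Agent.Q173.JL

open Complex Filter Topology MeasureTheory Set
open Pool.Agent.TH850.UV Pool.Agent.TH850.UV.NTSaux
open Pool.Agent.Y743.CL (kap_bd)
open Pool.Agent.Y745.SW (Py Px P_MVB P_DX xT)
open ArithmeticFunction (vonMangoldt)
open H370.A2 (lamC)

/-- the coefficients of the differences of the imaginary parts -/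
noncomputable def pc (h : ℝ) (n : ℕ) : ℂ :=
  if n.Prime then ((1 / Real.pi : ℝ) : ℂ) * ((Real.sqrt n : ℂ)⁻¹ * ((1 - (n : ℂ) ^ (-(h : ℂ) * I)) / I)) else 0

lemma half_cpow (n : ℕ) (hn : 1 ≤ n) (t : ℝ) :
    (n : ℂ) ^ (-(1 / 2 + (t : ℂ) * I)) = (Real.sqrt n : ℂ)⁻¹ * (n : ℂ) ^ (-(t : ℂ) * I) := by
  have hn0 : (n : ℂ) ≠ 0 := by exact_mod_cast (by omega : n ≠ 0)
  have hnn : (0 : ℝ) ≤ n := Nat.cast_nonneg n
  have e : (-(1 / 2 + (t : ℂ) * I)) = -(1 / 2 : ℂ) + (-(t : ℂ) * I) := by ring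
  rw [e, Complex.cpow_add _ _ hn0, Complex.cpow_neg]
  congr 2
  rw [Real.sqrt_eq_rpow, Complex.ofReal_cpow hnn]
  push_cast
  rfl

lemma Py_sum (X : ℕ) (t : ℝ) : Py X t = ∑ n ∈ Finset.Icc 2 X,
    if n.Prime then (Real.sqrt n : ℂ)⁻¹ * (n : ℂ) ^ (-(t : ℂ) * I) else 0 := by
  unfold Py
  rw [Nat.floor_natCast, ← Finset.sum_filter]
  have e : (Finset.Icc 1 X).filter Nat.Prime = (Finset.Icc 2 X).filter Nat.Prime := by
    ext n
    simp only [Finset.mem_filter, Finset.mem_Icc]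
    constructor
    · rintro ⟨⟨_, h2⟩, h3⟩; exact ⟨⟨h3.two_le, h2⟩, h3⟩
    · rintro ⟨⟨h1, h2⟩, h3⟩; exact ⟨⟨by omega, h2⟩, h3⟩
  rw [e]
  refine Finset.sum_congr rfl fun n hn => ?_
  rw [Finset.mem_filter] at hn
  exact half_cpow n hn.2.one_le t

lemma pc_sum (X : ℕ) (h t : ℝ) : (∑ n ∈ Finset.Icc 2 X, pc h n * (n : ℂ) ^ (-(t : ℂ) * I)).re =
    (1 / Real.pi) * ((Py X t).im - (Py X (t + h)).im) := by
  have e : ∑ n ∈ Finset.Icc 2 X, pc h n * (n : ℂ) ^ (-(t : ℂ) * I) =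
      ((1 / Real.pi : ℝ) : ℂ) * ((Py X t - Py X (t + h)) / I) := by
    rw [Py_sum, Py_sum, ← Finset.sum_sub_distrib, Finset.sum_div, Finset.mul_sum]
    refine Finset.sum_congr rfl fun n hn => ?_
    rw [Finset.mem_Icc] at hn
    unfold pc
    split_ifs with hp
    · rw [cpow_add n (by omega) t h]
      ring
    · simp
  rw [e, Complex.re_ofReal_mul, ← Complex.sub_im]
  congr 1
  rw [Complex.div_I, Complex.neg_re, Complex.mul_I_re, neg_neg]

lemma pc_kap {l h : ℝ} {n : ℕ} (hn : 2 ≤ n) (hp : n.Prime) :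
    kap l h n = pc h n * ((l * ggo l n / Real.sqrt (2 * Real.pi) : ℝ) : ℂ) := by
  have hlog : Real.log n ≠ 0 := by
    apply (Real.log_pos _).ne'
    exact_mod_cast (by omega : 1 < n)
  have hlogC : (Real.log n : ℂ) ≠ 0 := by exact_mod_cast hlog
  have hpi : (Real.pi : ℂ) ≠ 0 := by exact_mod_cast Real.pi_ne_zero
  have hs : (Real.sqrt (2 * Real.pi) : ℂ) ≠ 0 := by
    rw [Complex.ofReal_ne_zero]
    exact (Real.sqrt_pos.2 (by positivity)).ne'
  unfold kap pc H370.A2.lamC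
  rw [if_pos hp, ArithmeticFunction.vonMangoldt_apply_prime hp]
  simp only [Complex.ofReal_div, Complex.ofReal_mul, Complex.ofReal_one, Complex.ofReal_ofNat]
  simp only [← Complex.ofReal_natCast (n := n), ← Complex.ofReal_log (Nat.cast_nonneg n)] at *
  generalize ((Real.log n : ℝ) : ℂ) = x at hlogC ⊢
  field_simp

lemma pc_norm (h : ℝ) (n : ℕ) (hn : 1 ≤ n) : ‖pc h n‖ ^ 2 ≤ 1 / n := by
  have hn0 : (0 : ℝ) < n := by exact_mod_cast (by omega : 0 < n)
  unfold pc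
  split_ifs with hp
  · have h1 : ‖(1 : ℂ) - (n : ℂ) ^ (-(h : ℂ) * I)‖ ≤ 2 := by
      refine (norm_sub_le _ _).trans ?_
      have : ‖(n : ℂ) ^ (-(h : ℂ) * I)‖ = 1 := by
        have e : ((n : ℕ) : ℂ) = ((n : ℝ) : ℂ) := by push_cast; rfl
        rw [e, Complex.norm_cpow_eq_rpow_re_of_pos hn0]
        simp
      rw [this, norm_one]; norm_num
    rw [norm_mul, norm_mul, norm_div, Complex.norm_I, div_one, norm_inv, Complex.norm_real, Complex.norm_real,
      Real.norm_of_nonneg (Real.sqrt_nonneg _), Real.norm_of_nonneg (by positivity : 0 ≤ 1 / Real.pi)]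
    have e2 : Real.sqrt n ^ 2 = n := Real.sq_sqrt hn0.le
    have h0 := norm_nonneg ((1 : ℂ) - (n : ℂ) ^ (-(h : ℂ) * I))
    have e3 : (1 / Real.pi * ((Real.sqrt (n : ℝ))⁻¹ * ‖(1 : ℂ) - (n : ℂ) ^ (-(h : ℂ) * I)‖)) ^ 2
        = (1 / Real.pi) ^ 2 * ((1 / (n : ℝ)) * ‖(1 : ℂ) - (n : ℂ) ^ (-(h : ℂ) * I)‖ ^ 2) := by
      rw [mul_pow, mul_pow, inv_pow, e2, one_div (n : ℝ)]
    have h3 : 1 / Real.pi ≤ 1 / 3 := one_div_le_one_div_of_le (by norm_num) Real.pi_gt_three.le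
    have h4 : 0 ≤ 1 / Real.pi := by positivity
    have h5 : (1 / Real.pi) ^ 2 ≤ (1 / 3) ^ 2 := pow_le_pow_left₀ h4 h3 2
    have h6 : ‖(1 : ℂ) - (n : ℂ) ^ (-(h : ℂ) * I)‖ ^ 2 ≤ 2 ^ 2 := pow_le_pow_left₀ h0 h1 2
    have h7 : 0 < 1 / (n : ℝ) := by positivity
    rw [e3]
    have h8 : (1 / Real.pi) ^ 2 * ((1 / (n : ℝ)) * ‖(1 : ℂ) - (n : ℂ) ^ (-(h : ℂ) * I)‖ ^ 2) ≤
        (1 / 3) ^ 2 * ((1 / (n : ℝ)) * 2 ^ 2) := by gcongr
    linarith
  · simp

/-- the squares of the differences of the coefficients -/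
lemma diff_bd {l : ℝ} (hl : 1 ≤ l) (h : ℝ) (n : ℕ) (hn : 2 ≤ n) :
    ‖kap l h n - pc h n‖ ^ 2 ≤ (if IsPrimePow n ∧ ¬ n.Prime then (1 : ℝ) / n else 0) +
      60 * (1 / l * (vonMangoldt n / n) + 1 / (n : ℝ) ^ 2) := by
  have hl0 : 0 < l := by linarith
  have hn0 : (0 : ℝ) < n := by exact_mod_cast (by omega : 0 < n)
  have hv0 : 0 ≤ vonMangoldt n / (n : ℝ) := div_nonneg ArithmeticFunction.vonMangoldt_nonneg hn0.le
  have hr0 : 0 ≤ 60 * (1 / l * (vonMangoldt n / n) + 1 / (n : ℝ) ^ 2) := by positivity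
  have hi0 : 0 ≤ (if IsPrimePow n ∧ ¬ n.Prime then (1 : ℝ) / n else 0) := by split_ifs <;> positivity
  by_cases hp : n.Prime
  · refine le_trans ?_ (le_add_of_nonneg_left hi0)
    set s2 := Real.sqrt (2 * Real.pi) with hs2
    have hs20 : 0 < s2 := Real.sqrt_pos.2 (by positivity)
    have hs22 : 2 ≤ s2 := by
      rw [hs2, Real.le_sqrt (by norm_num) (by positivity)]
      linarith [Real.pi_gt_three]
    set w : ℝ := l * ggo l n / s2 with hw
    have hg0 : 0 ≤ l * ggo l n := mul_nonneg hl0.le (ggo_nonneg l n)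
    have hw0 : 0 ≤ w := div_nonneg hg0 hs20.le
    have hw1 : w ≤ 1 := by
      rw [hw, div_le_one hs20]
      have h5 := ggo_le hl0 n
      rw [le_div_iff₀ hl0] at h5
      linarith
    have hlog2 : Real.log 2 ≤ Real.log n := Real.log_le_log (by norm_num) (by exact_mod_cast hn)
    have hl2 := Real.log_two_gt_d9
    have hlogn : 0 < Real.log n := by linarith
    have hdef : 1 - w ≤ 60 * (Real.log n / l + 1 / n) := by
      have hnn : 0 ≤ 1 / (n : ℝ) := by positivity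
      rcases le_or_gt (Real.log n) (l / 2) with hc | hc
      · have h7 := ggo_low hl n (by omega) hc
        have h8 : 1 - w = (s2 - l * ggo l n) / s2 := by rw [hw]; field_simp
        rw [h8, div_le_iff₀ hs20]
        have h9 : (1 + Real.log n) / l ≤ 3 * (Real.log n / l) := by
          rw [← mul_div_assoc]
          apply div_le_div_of_nonneg_right _ hl0.le
          linarith
        have h10 : 0 ≤ Real.log n / l := by positivity
        have h11 : 60 * (Real.log n / l + 1 / n) * 2 ≤ 60 * (Real.log n / l + 1 / n) * s2 := by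
          apply mul_le_mul_of_nonneg_left hs22 (by positivity)
        linarith
      · have : 1 / 2 < Real.log n / l := by rw [lt_div_iff₀ hl0]; linarith
        linarith
    have e1 : kap l h n - pc h n = pc h n * ((w - 1 : ℝ) : ℂ) := by
      rw [pc_kap hn hp, ← hs2, ← hw]
      push_cast
      ring
    rw [e1, norm_mul, mul_pow, Complex.norm_real, Real.norm_eq_abs, sq_abs]
    have h1 := pc_norm h n (by omega)
    have h2 : (w - 1) ^ 2 ≤ 1 - w := by nlinarith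
    calc ‖pc h n‖ ^ 2 * (w - 1) ^ 2 ≤ 1 / n * (60 * (Real.log n / l + 1 / n)) := by
          apply mul_le_mul h1 (h2.trans hdef) (sq_nonneg _) (by positivity)
      _ = _ := by
          rw [ArithmeticFunction.vonMangoldt_apply_prime hp]
          field_simp
  · have e1 : pc h n = 0 := by unfold pc; rw [if_neg hp]
    rw [e1, sub_zero]
    refine (kap_bd hl0 h n hn).trans ?_
    refine le_trans (le_of_eq ?_) (le_add_of_nonneg_right hr0)
    by_cases hpp : IsPrimePow n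
    · rw [if_pos hpp, if_pos ⟨hpp, hp⟩]
    · rw [if_neg hpp, if_neg (by tauto)]

lemma diff_sum {l : ℝ} (hl : 1 ≤ l) (h : ℝ) (X : ℕ) (hX : 1 ≤ X) :
    ∑ n ∈ Finset.Icc 2 X, ‖kap l h n - pc h n‖ ^ 2 ≤
      Cpp + 60 * (1 / l * (Real.log X + 6) + ∑' n : ℕ, 1 / (n : ℝ) ^ 2) := by
  have hl0 : 0 < l := by linarith
  refine (Finset.sum_le_sum fun n hn => diff_bd hl h n (Finset.mem_Icc.1 hn).1).trans ?_
  rw [Finset.sum_add_distrib, ← Finset.mul_sum, Finset.sum_add_distrib, ← Finset.mul_sum, ← Finset.sum_filter]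
  have h1 := pp_sum X
  have h2 : ∑ n ∈ Finset.Icc 2 X, vonMangoldt n / (n : ℝ) ≤ Real.log X + 6 := by
    refine (Finset.sum_le_sum_of_subset_of_nonneg ?_ fun n _ _ =>
      div_nonneg ArithmeticFunction.vonMangoldt_nonneg (Nat.cast_nonneg _)).trans (H370.nt_mertens_upper X hX)
    intro n hn
    rw [Finset.mem_Icc] at hn ⊢
    omega
  have h3 : ∑ n ∈ Finset.Icc 2 X, 1 / (n : ℝ) ^ 2 ≤ ∑' n : ℕ, 1 / (n : ℝ) ^ 2 :=
    (Real.summable_one_div_nat_pow.2 (by norm_num)).sum_le_tsum _ fun k _ => by positivity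
  gcongr

/-- mean squares of the difference -/
lemma diff_ms (hMVB : P_MVB) {lam : ℝ} (hlam : 16 ≤ lam) : ∃ C : ℝ, 0 < C ∧ ∀ᶠ T : ℝ in atTop, ∀ h : ℝ,
    ∫ t in T..(2 * T), (Db (Real.log T / lam) h (XT T) t -
      (1 / Real.pi) * ((Py (XT T) t).im - (Py (XT T) (t + h)).im)) ^ 2 ≤ C * T := by
  set ζ2 : ℝ := ∑' n : ℕ, 1 / (n : ℝ) ^ 2 with hζ2
  have hζ0 : 0 ≤ ζ2 := tsum_nonneg fun n => by positivity
  have hC0 := Cpp_nonneg
  have hlam0 : 0 < lam := by linarith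
  set K : ℝ := Cpp + 60 * (lam + 6 + ζ2) with hK
  have hK0 : 0 < K := by positivity
  have hll : Tendsto (fun T : ℝ => Real.log T / lam) atTop atTop := Real.tendsto_log_atTop.atTop_div_const hlam0
  have hsm : ∀ᶠ T : ℝ in atTop, 8 * T ^ (1 / 8 : ℝ) * (1 + Real.log T) ≤ T := by
    have h1 : (fun T : ℝ => Real.log T) =o[atTop] fun T : ℝ => T ^ (1 / 2 : ℝ) :=
      isLittleO_log_rpow_atTop (by norm_num)
    have h2 := h1.bound (c := 1 / 32) (by norm_num)
    have h3 : Tendsto (fun T : ℝ => T ^ (3 / 8 : ℝ)) atTop atTop := tendsto_rpow_atTop (by norm_num)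
    filter_upwards [h2, h3.eventually_ge_atTop 32, eventually_ge_atTop 10] with T t1 t2 t3
    have hT0 : 0 < T := by linarith
    have hL : 0 ≤ Real.log T := Real.log_nonneg (by linarith)
    rw [Real.norm_of_nonneg hL, Real.norm_of_nonneg (by positivity)] at t1
    have e1 : T ^ (1 / 8 : ℝ) * T ^ (1 / 2 : ℝ) * T ^ (3 / 8 : ℝ) = T := by
      rw [← Real.rpow_add hT0, ← Real.rpow_add hT0]
      norm_num
    have e2 : 1 ≤ T ^ (1 / 2 : ℝ) := Real.one_le_rpow (by linarith) (by norm_num)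
    have e3 : 1 + Real.log T ≤ 2 * T ^ (1 / 2 : ℝ) := by linarith
    have e4 : 0 < T ^ (1 / 8 : ℝ) := by positivity
    have e5 : 0 < T ^ (1 / 2 : ℝ) := by positivity
    calc 8 * T ^ (1 / 8 : ℝ) * (1 + Real.log T) ≤ 8 * T ^ (1 / 8 : ℝ) * (2 * T ^ (1 / 2 : ℝ)) := by gcongr
      _ = T ^ (1 / 8 : ℝ) * T ^ (1 / 2 : ℝ) * 16 := by ring
      _ ≤ T ^ (1 / 8 : ℝ) * T ^ (1 / 2 : ℝ) * T ^ (3 / 8 : ℝ) := by gcongr; linarith
      _ = T := e1
  refine ⟨2 * K, by positivity, ?_⟩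
  filter_upwards [hll.eventually_ge_atTop 1, hsm, eventually_ge_atTop 10] with T t1 t2 t3 h
  have hT0 : 0 < T := by linarith
  have hL0 : 0 < Real.log T := Real.log_pos (by linarith)
  set l := Real.log T / lam with hl
  set X := XT T with hX
  have hXT : (X : ℝ) ≤ T ^ (1 / 8 : ℝ) := Nat.floor_le (by positivity)
  have hX1 : 1 ≤ X := by
    rw [hX]; unfold XT
    apply Nat.le_floor
    push_cast
    exact Real.one_le_rpow (by linarith) (by norm_num)
  have hX1' : (1 : ℝ) ≤ X := by exact_mod_cast hX1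
  have hlogX : Real.log X ≤ Real.log T := by
    apply Real.log_le_log (by linarith)
    refine hXT.trans ?_
    calc T ^ (1 / 8 : ℝ) ≤ T ^ (1 : ℝ) := Real.rpow_le_rpow_of_exponent_le (by linarith) (by norm_num)
      _ = T := Real.rpow_one T
  set e : ℕ → ℂ := fun n => if 2 ≤ n then kap l h n - pc h n else 0 with he
  have hsum : ∑ n ∈ Finset.Icc 1 X, ‖e n‖ ^ 2 ≤ K := by
    have e1 : ∑ n ∈ Finset.Icc 1 X, ‖e n‖ ^ 2 = ∑ n ∈ Finset.Icc 2 X, ‖kap l h n - pc h n‖ ^ 2 := by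
      have : Finset.Icc 2 X = (Finset.Icc 1 X).filter (fun n => 2 ≤ n) := by
        ext n; simp only [Finset.mem_filter, Finset.mem_Icc]; omega
      rw [this, Finset.sum_filter]
      refine Finset.sum_congr rfl fun n _ => ?_
      simp only [he]
      split_ifs <;> simp
    rw [e1]
    refine (diff_sum t1 h X hX1).trans ?_
    rw [hK]
    have h2 : 1 / l * (Real.log X + 6) ≤ lam + 6 := by
      have h3 : 1 / l * (Real.log X + 6) ≤ 1 / l * (Real.log T + 6) := by gcongr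
      have h4 : 1 / l * Real.log T = lam := by rw [hl]; field_simp
      have h5 : 1 / l * 6 ≤ 6 := by
        have : 1 / l ≤ 1 := by rw [div_le_one (by linarith)]; exact t1
        linarith
      linarith
    linarith
  have hs0 : 0 ≤ ∑ n ∈ Finset.Icc 1 X, ‖e n‖ ^ 2 := Finset.sum_nonneg fun n _ => by positivity
  have hfun : ∀ t : ℝ, Db l h X t - (1 / Real.pi) * ((Py X t).im - (Py X (t + h)).im) =
      (∑ n ∈ Finset.Icc 1 X, e n * (n : ℂ) ^ (-(t : ℂ) * I)).re := by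
    intro t
    rw [← pc_sum, Db, ← Complex.sub_re, ← Finset.sum_sub_distrib]
    congr 1
    have : Finset.Icc 2 X = (Finset.Icc 1 X).filter (fun n => 2 ≤ n) := by
      ext n; simp only [Finset.mem_filter, Finset.mem_Icc]; omega
    rw [this, Finset.sum_filter]
    refine Finset.sum_congr rfl fun n _ => ?_
    simp only [he]
    split_ifs
    · ring
    · simp
  simp_rw [hfun]
  set A : ℝ → ℂ := fun t => ∑ n ∈ Finset.Icc 1 X, e n * (n : ℂ) ^ (-(t : ℂ) * I) with hA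
  have hAc : Continuous A := by
    simp only [hA]
    refine continuous_finsetSum _ fun n hn => ?_
    have hn0 : (n : ℂ) ≠ 0 := by
      have := (Finset.mem_Icc.1 hn).1
      exact_mod_cast (by omega : n ≠ 0)
    exact continuous_const.mul (Continuous.const_cpow (by fun_prop) (Or.inl hn0))
  have hm := hMVB X T (2 * T) (by linarith) e e
  have e5 : ∫ t in T..(2 * T), (A t).re ^ 2 ≤ ∫ t in T..(2 * T), ‖A t‖ ^ 2 := by
    refine intervalIntegral.integral_mono_on (by linarith) (Continuous.intervalIntegrable (by fun_prop) _ _)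
      (Continuous.intervalIntegrable (by fun_prop) _ _) fun t _ => ?_
    rw [← sq_abs]
    exact pow_le_pow_left₀ (abs_nonneg _) (Complex.abs_re_le_norm _) 2
  refine e5.trans ?_
  have e6 : (∫ t in T..(2 * T), A t * (starRingEnd ℂ) (A t)) = ((∫ t in T..(2 * T), ‖A t‖ ^ 2 : ℝ) : ℂ) := by
    rw [← intervalIntegral.integral_ofReal]
    refine intervalIntegral.integral_congr fun t _ => ?_
    rw [Complex.mul_conj, Complex.normSq_eq_norm_sq]
  have e7 : ∑ n ∈ Finset.Icc 1 X, e n * (starRingEnd ℂ) (e n) = ((∑ n ∈ Finset.Icc 1 X, ‖e n‖ ^ 2 : ℝ) : ℂ) := by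
    push_cast
    refine Finset.sum_congr rfl fun n _ => ?_
    rw [Complex.mul_conj, Complex.normSq_eq_norm_sq]
    push_cast
    rfl
  have hm' : ‖((∫ t in T..(2 * T), ‖A t‖ ^ 2 : ℝ) : ℂ) -
      ((2 * T - T : ℝ) : ℂ) * ((∑ n ∈ Finset.Icc 1 X, ‖e n‖ ^ 2 : ℝ) : ℂ)‖ ≤
      8 * X * (1 + Real.log X) * (Real.sqrt (∑ n ∈ Finset.Icc 1 X, ‖e n‖ ^ 2) *
        Real.sqrt (∑ n ∈ Finset.Icc 1 X, ‖e n‖ ^ 2)) := by
    rw [← e6, ← e7]
    exact hm
  rw [Real.mul_self_sqrt hs0, ← Complex.ofReal_mul, ← Complex.ofReal_sub, Complex.norm_real,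
    Real.norm_eq_abs] at hm'
  have h8 := (abs_le.1 hm').2
  have h9 : 8 * X * (1 + Real.log X) ≤ T := by
    refine le_trans ?_ t2
    have : 0 ≤ Real.log X := Real.log_nonneg hX1'
    gcongr
  set SS := ∑ n ∈ Finset.Icc 1 X, ‖e n‖ ^ 2 with hSS
  have h10 : 8 * X * (1 + Real.log X) * SS ≤ T * SS := mul_le_mul_of_nonneg_right h9 hs0
  have h11 : T * SS ≤ T * K := mul_le_mul_of_nonneg_left hsum hT0.le
  nlinarith

end Pool.Agent.Q173.JL
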