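import Pool.Agent.Q173.JL.Avg

/-! # The displacement and the sum over the small primes -/

set_option autoImplicit false

namespace Pool.Agent.Q173.JL

open Complex Filter Topology MeasureTheory Set
open Pool.Agent.Y745.SW (Py Px P_MVB P_DX xT)
open Pool.Agent.Y746.OJ (KerOK VH ZR S0 S_SF S_RV S_BD pt NZ NZ_null S0_meas)
open H370 (zz Zf mult mem_Zf good_zeta NN NN_eq NN_add NN_mono zz_re zz_im)

/-- the remainder term in the Riemann-von Mangoldt formula -/
noncomputable def RR (y : ℝ) : ℝ := (NN riemannZeta 1 y : ℝ) - MM y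

lemma DN_RR (T y : ℝ) : DN T y = RR y - (1 / Real.pi) * (Px T y).im := rfl

lemma RR_meas : Measurable RR := NN_monotone.measurable.sub MM_meas

/-- almost everywhere bounds -/
lemma ae_bd (hRV : S_RV) (hBD : S_BD) : ∃ C : ℝ, 0 < C ∧ ∀ᵐ y : ℝ, 10 ≤ y → |RR y - S0 y| ≤ C ∧
    |S0 y| ≤ C * Real.log y := by
  obtain ⟨C1, hC1, h1⟩ := hRV
  obtain ⟨C2, hC2, h2⟩ := hBD
  refine ⟨C1 + C2, by positivity, ?_⟩
  have h0 : ∀ᵐ y : ℝ, ¬ (1 < y ∧ ¬ NZ y) := by
    rw [ae_iff]
    simpa only [not_not] using NZ_null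
  filter_upwards [h0] with y hy h10
  have hNZ : NZ y := by
    by_contra hc
    exact hy ⟨by linarith, hc⟩
  have hlog : 0 ≤ Real.log y := Real.log_nonneg (by linarith)
  refine ⟨?_, ?_⟩
  · have h3 := h1 y h10 hNZ
    unfold RR MM
    linarith
  · have h4 := (h2 y (by linarith) hNZ).2
    nlinarith

lemma half_mass {L : ℝ} (hL : 4 ≤ L) : 1 / 2 ≤ ∫ u in (-L)..L, ph u := by
  have h1 : ∫ u in (-L)..L, ph u = (∫ u, ph u) - ∫ u in (Ioc (-L) L)ᶜ, ph u := by
    rw [intervalIntegral.integral_of_le (by linarith), ← integral_add_compl measurableSet_Ioc ph_int]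
    ring
  rw [h1, ph_total]
  have h2 : ∫ u in (Ioc (-L) L)ᶜ, ph u ≤ ∫ u in (Ioc (-L) L)ᶜ, Real.exp (-L ^ 2 / 4) * Real.exp (-u ^ 2 / 4) := by
    refine setIntegral_mono_on ph_int.integrableOn (gauss4_int.const_mul _).integrableOn
      measurableSet_Ioc.compl fun u hu => ?_
    apply ph_tail (by linarith)
    rw [mem_compl_iff, mem_Ioc, not_and_or, not_lt, not_le] at hu
    rcases hu with h | h
    · rw [abs_of_nonpos (by linarith)]; linarith
    · rw [abs_of_pos (by linarith)]; exact h.le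
  have h3 : ∫ u in (Ioc (-L) L)ᶜ, Real.exp (-L ^ 2 / 4) * Real.exp (-u ^ 2 / 4) ≤
      ∫ u : ℝ, Real.exp (-L ^ 2 / 4) * Real.exp (-u ^ 2 / 4) :=
    setIntegral_le_integral (gauss4_int.const_mul _) (Eventually.of_forall fun u => by positivity)
  have h3' : ∫ u : ℝ, Real.exp (-L ^ 2 / 4) * Real.exp (-u ^ 2 / 4) =
    Real.exp (-L ^ 2 / 4) * ∫ u : ℝ, Real.exp (-u ^ 2 / 4) := integral_const_mul _ _
  rw [h3'] at h3
  have h4 := gauss4_total
  have h5 : Real.exp (-L ^ 2 / 4) ≤ 1 / 8 := by
    have e1 : Real.exp (-L ^ 2 / 4) ≤ Real.exp (-4) := Real.exp_le_exp.2 (by nlinarith)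
    have e2 : Real.exp (-4) = (Real.exp 4)⁻¹ := Real.exp_neg 4
    have e3 : (8 : ℝ) ≤ Real.exp 4 := by
      have e4 : Real.exp 4 = Real.exp 1 ^ 4 := by rw [← Real.exp_nat_mul]; norm_num
      have e5 : (2 : ℝ) ≤ Real.exp 1 := by linarith [Real.exp_one_gt_d9]
      rw [e4]
      calc (8 : ℝ) ≤ 2 ^ 4 := by norm_num
        _ ≤ Real.exp 1 ^ 4 := pow_le_pow_left₀ (by norm_num) e5 4
    rw [e2] at e1
    refine e1.trans ?_
    rw [← one_div]
    exact one_div_le_one_div_of_le (by norm_num) e3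
  have h6 := Real.exp_pos (-L ^ 2 / 4)
  nlinarith

lemma mass_le (a b : ℝ) (hab : a ≤ b) (t : ℝ) : ∫ y in a..b, ph (y - t) ≤ 1 := by
  rw [intervalIntegral.integral_of_le hab]
  have hi : Integrable fun y : ℝ => ph (y - t) := ph_int.comp_sub_right t
  refine (setIntegral_le_integral hi (Eventually.of_forall fun y => (ph_pos _).le)).trans ?_
  rw [integral_sub_right_eq_self ph t, ph_total]

lemma mass4_le (a b : ℝ) (hab : a ≤ b) (t : ℝ) : ∫ y in a..b, Real.exp (-(y - t) ^ 2 / 4) ≤ 4 := by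
  rw [intervalIntegral.integral_of_le hab]
  have hi : Integrable fun y : ℝ => Real.exp (-(y - t) ^ 2 / 4) := gauss4_int.comp_sub_right t
  refine (setIntegral_le_integral hi (Eventually.of_forall fun y => by positivity)).trans ?_
  rw [integral_sub_right_eq_self (fun y : ℝ => Real.exp (-y ^ 2 / 4)) t]
  exact gauss4_total

/-- **the local averages of the displacement** -/
theorem avg_pt (hSF : S_SF) (hRV : S_RV) (hBD : S_BD) : ∃ K : ℝ, 0 < K ∧ ∀ᶠ T : ℝ in atTop, ∀ t : ℝ,
    T + 3 * Real.log T ≤ t → t ≤ 2 * T - 3 * Real.log T →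
    |∫ u in (-Real.log T)..(Real.log T), ph u * DN T (t + u)| ≤ K + GZ T t := by
  obtain ⟨CS, T1, hCS, hT1, hsf⟩ := hSF
  obtain ⟨C, hC, hae⟩ := ae_bd hRV hBD
  obtain ⟨KP, hKP, hps⟩ := ps_bd
  obtain ⟨KX, hKX, hpx⟩ := px_avg
  refine ⟨2 * C + C + 2 * CS + KP + KX, by positivity, ?_⟩
  filter_upwards [hpx, eventually_ge_atTop T1, Real.tendsto_log_atTop.eventually_ge_atTop 8,
    eventually_ge_atTop 100] with T tpx tT1 tL t100 t ht1 ht2
  have hT0 : 0 < T := by linarith
  have hpi := Real.pi_gt_three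
  have hpi0 := Real.pi_pos
  obtain ⟨U1, U2, hU1, hU1', hU2, hU2', hf⟩ := hsf T tT1
  set L := Real.log T with hL
  have hV := hf VG 1 1 zero_le_one zero_le_one kerOK t (by linarith) (by linarith)
  -- integrability
  have hU12 : U1 ≤ U2 := by linarith
  have mR : MB U1 U2 RR := (MB_NN U1 U2).sub (MB_MM (by linarith))
  have mph : MB U1 U2 (fun y => ph (y - t)) := MB.cont (ph_cont.comp (continuous_id.sub continuous_const))
  have mF : MB U1 U2 (fun y => ph (y - t) * RR y) := mph.mul mR
  have iF : ∀ a b : ℝ, U1 ≤ a → a ≤ b → b ≤ U2 → IntervalIntegrable (fun y => ph (y - t) * RR y) volume a b :=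
    fun a b h1 h2 h3 => (mF.mono h1 h3).int h2
  have iS : IntervalIntegrable (fun y => S0 y * ph (y - t)) volume U1 U2 := by
    rw [intervalIntegrable_iff_integrableOn_Ioc_of_le hU12]
    refine Measure.integrableOn_of_bounded (M := C * Real.log U2 * (1 / 2))
      (by rw [Real.volume_Ioc]; exact ENNReal.ofReal_ne_top)
      ((S0_meas.mul (ph_cont.measurable.comp (measurable_id.sub_const t))).aestronglyMeasurable) ?_
    rw [ae_restrict_iff' measurableSet_Ioc]
    filter_upwards [hae] with y hy hyI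
    have h1 := (hy (by linarith [hyI.1])).2
    have h2 : Real.log y ≤ Real.log U2 := Real.log_le_log (by linarith [hyI.1]) hyI.2
    have h3 := ph_le (y - t)
    have h4 := ph_pos (y - t)
    have h5 : 0 ≤ Real.log y := Real.log_nonneg (by linarith [hyI.1])
    rw [norm_mul, Real.norm_eq_abs, Real.norm_eq_abs, abs_of_pos h4]
    calc |S0 y| * ph (y - t) ≤ (C * Real.log U2) * (1 / 2) := by
          apply mul_le_mul (h1.trans (mul_le_mul_of_nonneg_left h2 hC.le)) h3 h4.le
          have : 0 ≤ Real.log U2 := h5.trans h2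
          positivity
      _ = _ := rfl
  -- step 1
  have e1 : ∫ u in (-L)..L, ph u * DN T (t + u) =
      (∫ u in (-L)..L, ph u * RR (t + u)) - (1 / Real.pi) * ∫ u in (-L)..L, ph u * (Px T (t + u)).im := by
    rw [← intervalIntegral.integral_const_mul, ← intervalIntegral.integral_sub]
    · refine intervalIntegral.integral_congr fun u _ => ?_
      simp only [DN_RR]
      ring
    · have m1 : MB (-L) L (fun u => ph u * RR (u + t)) :=
        (MB.cont ph_cont).mul (MB.shift (f := RR) (((MB_NN _ _).sub (MB_MM (by linarith : 0 < -L + t)))))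
      have := m1.int (by linarith)
      refine this.congr fun u _ => ?_
      simp only [add_comm u t]
    · refine Continuous.intervalIntegrable ?_ _ _
      exact continuous_const.mul (ph_cont.mul ((Pim_cont T).comp (continuous_const.add continuous_id)))
  -- step 2
  have e2 : ∫ u in (-L)..L, ph u * RR (t + u) = ∫ y in (t - L)..(t + L), ph (y - t) * RR y := by
    have := intervalIntegral.integral_comp_add_right (fun y => ph (y - t) * RR y) t (a := -L) (b := L)
    rw [show -L + t = t - L by ring, show L + t = t + L by ring] at this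
    rw [← this]
    refine intervalIntegral.integral_congr fun u _ => ?_
    show ph u * RR (t + u) = ph (u + t - t) * RR (u + t)
    rw [add_sub_cancel_right, add_comm u t]
  -- step 3
  have e3 : ∫ y in U1..U2, ph (y - t) * RR y = (∫ y in U1..(t - L), ph (y - t) * RR y) +
      (∫ y in (t - L)..(t + L), ph (y - t) * RR y) + ∫ y in (t + L)..U2, ph (y - t) * RR y := by
    rw [intervalIntegral.integral_add_adjacent_intervals, intervalIntegral.integral_add_adjacent_intervals]
    · exact iF _ _ le_rfl (by linarith) (by linarith)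
    · exact iF _ _ (by linarith) (by linarith) le_rfl
    · exact iF _ _ le_rfl (by linarith) (by linarith)
    · exact iF _ _ (by linarith) (by linarith) (by linarith)
  -- step 4: the tails
  have htail : ∀ a b : ℝ, U1 ≤ a → a ≤ b → b ≤ U2 → (∀ y ∈ Ioc a b, L ≤ |y - t|) →
      |∫ y in a..b, ph (y - t) * RR y| ≤ C := by
    intro a b ha hab hb hfar
    have hi : IntervalIntegrable (fun y => C * (2 + L) * Real.exp (-L ^ 2 / 4) * Real.exp (-(y - t) ^ 2 / 4))
        volume a b := Continuous.intervalIntegrable (by fun_prop) _ _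
    have h1 : ‖∫ y in a..b, ph (y - t) * RR y‖ ≤
        ∫ y in a..b, C * (2 + L) * Real.exp (-L ^ 2 / 4) * Real.exp (-(y - t) ^ 2 / 4) := by
      refine intervalIntegral.norm_integral_le_of_norm_le hab ?_ hi
      filter_upwards [hae] with y hy hyI
      obtain ⟨h2, h3⟩ := hy (by linarith [hyI.1])
      have hlog : Real.log y ≤ 1 + L := by
        have a1 : Real.log y ≤ Real.log (2 * T) := Real.log_le_log (by linarith [hyI.1]) (by linarith [hyI.2])
        rw [Real.log_mul (by norm_num) hT0.ne'] at a1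
        have := Real.log_two_lt_d9
        linarith
      have h4 : |RR y| ≤ C * (2 + L) := by
        have a1 : |RR y| ≤ |RR y - S0 y| + |S0 y| := by
          have := abs_add_le (RR y - S0 y) (S0 y)
          rwa [sub_add_cancel] at this
        have a2 : C * Real.log y ≤ C * (1 + L) := mul_le_mul_of_nonneg_left hlog hC.le
        linarith
      have h5 := ph_tail (by linarith : 0 ≤ L) (hfar y hyI)
      rw [norm_mul, Real.norm_eq_abs, Real.norm_eq_abs, abs_of_pos (ph_pos _)]
      calc ph (y - t) * |RR y| ≤ (Real.exp (-L ^ 2 / 4) * Real.exp (-(y - t) ^ 2 / 4)) * (C * (2 + L)) :=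
            mul_le_mul h5 h4 (abs_nonneg _) (by positivity)
        _ = _ := by ring
    rw [Real.norm_eq_abs] at h1
    refine h1.trans ?_
    rw [intervalIntegral.integral_const_mul]
    have h2 := mass4_le a b hab t
    have h3 : (2 + L) * Real.exp (-L ^ 2 / 4) * 4 ≤ 1 := by
      have a1 : Real.exp (-L ^ 2 / 4) ≤ Real.exp (-(2 * L)) := Real.exp_le_exp.2 (by nlinarith)
      have a2 : Real.exp (-(2 * L)) ≤ 1 / (4 * (2 + L)) := by
        rw [Real.exp_neg, ← one_div]
        apply one_div_le_one_div_of_le (by linarith)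
        have a3 : Real.exp (2 * L) = Real.exp L * Real.exp L := by rw [← Real.exp_add]; ring_nf
        have a4 := Real.add_one_le_exp L
        rw [a3]
        nlinarith
      have a5 : 0 < 2 + L := by linarith
      calc (2 + L) * Real.exp (-L ^ 2 / 4) * 4 ≤ (2 + L) * (1 / (4 * (2 + L))) * 4 := by
            gcongr; exact a1.trans a2
        _ = 1 := by field_simp
    have h4 : 0 ≤ C * (2 + L) * Real.exp (-L ^ 2 / 4) := by positivity
    calc C * (2 + L) * Real.exp (-L ^ 2 / 4) * ∫ y in a..b, Real.exp (-(y - t) ^ 2 / 4)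
        ≤ C * (2 + L) * Real.exp (-L ^ 2 / 4) * 4 := mul_le_mul_of_nonneg_left h2 h4
      _ = C * ((2 + L) * Real.exp (-L ^ 2 / 4) * 4) := by ring
      _ ≤ C * 1 := mul_le_mul_of_nonneg_left h3 hC.le
      _ = C := mul_one C
  have ht1' := htail U1 (t - L) le_rfl (by linarith) (by linarith) fun y hy => by
    rw [abs_of_nonpos (by linarith [hy.2])]; linarith [hy.2]
  have ht2' := htail (t + L) U2 (by linarith) (by linarith) le_rfl fun y hy => by
    rw [abs_of_nonneg (by linarith [hy.1])]; linarith [hy.1]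
  -- step 5
  have h5 : |(∫ y in U1..U2, ph (y - t) * RR y) - ∫ y in U1..U2, S0 y * (VG ((y - t : ℝ) : ℂ)).re| ≤ C := by
    have e5 : ∀ y : ℝ, S0 y * (VG ((y - t : ℝ) : ℂ)).re = S0 y * ph (y - t) := fun y => by rw [VG_re]
    simp_rw [e5]
    rw [← intervalIntegral.integral_sub (iF _ _ le_rfl hU12 le_rfl) iS]
    have hi : IntervalIntegrable (fun y => C * ph (y - t)) volume U1 U2 :=
      Continuous.intervalIntegrable (continuous_const.mul (ph_cont.comp (continuous_id.sub continuous_const))) _ _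
    have h1 : ‖∫ y in U1..U2, (ph (y - t) * RR y - S0 y * ph (y - t))‖ ≤ ∫ y in U1..U2, C * ph (y - t) := by
      refine intervalIntegral.norm_integral_le_of_norm_le hU12 ?_ hi
      filter_upwards [hae] with y hy hyI
      have h2 := (hy (by linarith [hyI.1])).1
      rw [show ph (y - t) * RR y - S0 y * ph (y - t) = (RR y - S0 y) * ph (y - t) by ring, norm_mul,
        Real.norm_eq_abs, Real.norm_eq_abs, abs_of_pos (ph_pos _)]
      exact mul_le_mul_of_nonneg_right h2 (ph_pos _).le
    rw [Real.norm_eq_abs] at h1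
    refine h1.trans ?_
    rw [intervalIntegral.integral_const_mul]
    have := mass_le U1 U2 hU12 t
    nlinarith
  -- step 7: the zeros
  have h7 : |2 * ∑ s ∈ ZR U1 U2 (1 / 2), (mult riemannZeta s : ℝ) *
          ∫ w in (0 : ℝ)..(s.re - 1 / 2), (VG (((s.im - t : ℝ) : ℂ) - (w : ℂ) * Complex.I)).im| ≤ GZ T t := by
    classical
    rw [abs_mul, abs_of_pos (by norm_num : (0:ℝ) < 2)]
    unfold GZ
    refine mul_le_mul_of_nonneg_left ?_ (by norm_num)
    refine (Finset.abs_sum_le_sum_abs _ _).trans ?_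
    have hsub : ZR U1 U2 (1 / 2) ⊆ Zf riemannZeta T (2 * T) := by
      intro s hs
      unfold ZR at hs
      rw [Finset.mem_filter, mem_Zf good_zeta (by linarith : 1 ≤ U1)] at hs
      rw [mem_Zf good_zeta (by linarith : 1 ≤ T)]
      exact ⟨hs.1.1, hs.1.2.1, by linarith [hs.1.2.2.1], by linarith [hs.1.2.2.2.1], hs.1.2.2.2.2⟩
    refine le_trans ?_ (Finset.sum_le_sum_of_subset_of_nonneg hsub fun s _ _ => by positivity)
    refine Finset.sum_le_sum fun s hs => ?_
    unfold ZR at hs
    rw [Finset.mem_filter, mem_Zf good_zeta (by linarith : 1 ≤ U1)] at hs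
    obtain ⟨⟨a1, a2, -, -, -⟩, a3⟩ := hs
    rw [abs_mul, abs_of_nonneg (Nat.cast_nonneg _)]
    refine mul_le_mul_of_nonneg_left ?_ (Nat.cast_nonneg _)
    have b1 : ‖∫ w in (0 : ℝ)..(s.re - 1 / 2), (VG (((s.im - t : ℝ) : ℂ) - (w : ℂ) * Complex.I)).im‖ ≤
        Real.exp (-(s.im - t) ^ 2 / 4) * |s.re - 1 / 2 - 0| := by
      refine intervalIntegral.norm_integral_le_of_norm_le_const fun w hw => ?_
      rw [uIoc_of_le (by linarith)] at hw
      rw [Real.norm_eq_abs]
      refine (Complex.abs_im_le_norm _).trans ?_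
      have b2 : (((s.im - t : ℝ) : ℂ) - (w : ℂ) * Complex.I).re = s.im - t := by simp
      have b3 : (((s.im - t : ℝ) : ℂ) - (w : ℂ) * Complex.I).im = -w := by simp
      have b4 := VG_bd1 (((s.im - t : ℝ) : ℂ) - (w : ℂ) * Complex.I) (by
        rw [b3, abs_neg, abs_of_pos hw.1]; linarith [hw.2])
      rw [b2, one_mul] at b4
      exact b4
    rw [Real.norm_eq_abs, sub_zero] at b1
    rw [zz_im, abs_neg]
    linarith
  -- conclusion
  have h8 := hps t
  have h9 := tpx t
  set PS := ∑' n : ℕ, ArithmeticFunction.vonMangoldt n / (Real.sqrt n * Real.log n) *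
    ((n : ℂ) ^ (-((t : ℂ) * I)) * VH VG (Real.log n)).im with hPS
  set ZS := 2 * ∑ s ∈ ZR U1 U2 (1 / 2), (mult riemannZeta s : ℝ) *
          ∫ w in (0 : ℝ)..(s.re - 1 / 2), (VG (((s.im - t : ℝ) : ℂ) - (w : ℂ) * Complex.I)).im with hZS
  set IS := ∫ y in U1..U2, S0 y * (VG ((y - t : ℝ) : ℂ)).re with hIS
  have hV2 : CS * (1 + 1 / T) ≤ 2 * CS := by
    have : 1 / T ≤ 1 := by rw [div_le_one hT0]; linarith
    nlinarith
  have hip : |1 / Real.pi| ≤ 1 := by
    rw [abs_of_pos (by positivity), div_le_one hpi0]; linarith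
  have k1 : |(1 / Real.pi) * PS| ≤ KP := by
    rw [abs_mul]
    calc |1 / Real.pi| * |PS| ≤ 1 * KP := mul_le_mul hip h8 (abs_nonneg _) zero_le_one
      _ = KP := one_mul _
  have k2 : |(1 / Real.pi) * ∫ u in (-L)..L, ph u * (Px T (t + u)).im| ≤ KX := by
    rw [abs_mul]
    calc |1 / Real.pi| * |∫ u in (-L)..L, ph u * (Px T (t + u)).im| ≤ 1 * KX :=
          mul_le_mul hip h9 (abs_nonneg _) zero_le_one
      _ = KX := one_mul _
  rw [e1, e2]
  rw [e3] at h5
  have A1 := abs_le.1 hV
  have A2 := abs_le.1 ht1'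
  have A3 := abs_le.1 ht2'
  have A4 := abs_le.1 h5
  have A5 := abs_le.1 h7
  have A6 := abs_le.1 k1
  have A7 := abs_le.1 k2
  rw [abs_le]
  constructor
  · linarith [A1.1, A2.2, A3.2, A4.1, A5.1, A6.1, A7.2]
  · linarith [A1.2, A2.1, A3.1, A4.2, A5.2, A6.2, A7.1]

end Pool.Agent.Q173.JL
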