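import Pool.Agent.Q173.JL.Win

/-! # Translates of the displacement -/

set_option autoImplicit false

namespace Pool.Agent.Q173.JL

open Complex Filter Topology MeasureTheory Set
open Pool.Agent.Y745.SW (Py Px P_MVB P_DX xT)

lemma sq_to_abs {A B c K : ℝ} {f : ℝ → ℝ} (hf : MB A B f) (hAB : A ≤ B) (hc : 0 < c)
    (h : ∫ t in A..B, f t ^ 2 ≤ K) : ∫ t in A..B, |f t| ≤ K / (2 * c) + c * (B - A) / 2 := by
  have h1 : ∫ t in A..B, |f t| ≤ ∫ t in A..B, (1 / (2 * c) * f t ^ 2 + c / 2) := by
    refine intervalIntegral.integral_mono_on hAB (hf.abs.int hAB)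
      (((MB.cont continuous_const).mul hf.sq).add (MB.cont continuous_const) |>.int hAB) fun t _ => ?_
    have e : 1 / (2 * c) * f t ^ 2 + c / 2 - |f t| = (|f t| - c) ^ 2 / (2 * c) := by
      rw [← sq_abs (f t)]
      field_simp
      ring
    have : 0 ≤ (|f t| - c) ^ 2 / (2 * c) := by positivity
    linarith
  refine h1.trans ?_
  have i1 : IntervalIntegrable (fun t => 1 / (2 * c) * f t ^ 2) volume A B :=
    ((MB.cont continuous_const).mul hf.sq).int hAB
  rw [intervalIntegral.integral_add i1 intervalIntegrable_const,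
    intervalIntegral.integral_const_mul, intervalIntegral.integral_const, smul_eq_mul]
  have e1 : 1 / (2 * c) * ∫ t in A..B, f t ^ 2 ≤ 1 / (2 * c) * K := mul_le_mul_of_nonneg_left h (by positivity)
  have e2 : 1 / (2 * c) * K = K / (2 * c) := by ring
  have e3 : (B - A) * (c / 2) = c * (B - A) / 2 := by ring
  linarith

/-- integrals of translates -/
lemma tr_le {A B A' B' c : ℝ} {F : ℝ → ℝ} (hF : MB A B F) (hF0 : ∀ t, 0 ≤ F t) (h1 : A ≤ A' + c)
    (h2 : A' ≤ B') (h3 : B' + c ≤ B) : ∫ t in A'..B', F (t + c) ≤ ∫ t in A..B, F t := by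
  rw [intervalIntegral.integral_comp_add_right F c]
  exact intervalIntegral.integral_mono_interval h1 (by linarith) h3 (Eventually.of_forall hF0)
    (hF.int (by linarith))

/-- small translates -/
theorem step1 (hMVB : P_MVB) (hDX : P_DX) (ε : ℝ) (hε : 0 < ε) : ∀ᶠ T : ℝ in atTop, ∀ h : ℝ, 0 ≤ h → h ≤ 1 →
    ∫ t in (T + Real.log T)..(2 * T - Real.log T - 15), |DN T (t + h) - DN T t| ≤
      ε * (T * Real.sqrt (Real.log (Real.log T))) := by
  obtain ⟨lam, hlam, hwin⟩ := win2 hMVB hDX
  have hlam0 : 0 < lam := by linarith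
  have hll : Tendsto (fun T : ℝ => Real.log (Real.log T)) atTop atTop :=
    Real.tendsto_log_atTop.comp Real.tendsto_log_atTop
  have hev : ∀ᶠ T : ℝ in atTop, 2 * Real.log T + 30 ≤ T := by
    have h1 := (Real.isLittleO_log_id_atTop).bound (c := 1 / 4) (by norm_num)
    filter_upwards [h1, eventually_ge_atTop 60] with T t1 t2
    have hL : 0 ≤ Real.log T := Real.log_nonneg (by linarith)
    simp only [id, Real.norm_eq_abs] at t1
    rw [abs_of_nonneg hL, abs_of_nonneg (by linarith)] at t1
    linarith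
  filter_upwards [hwin ((ε / 2) ^ 2) (by positivity), hll.eventually_ge_atTop 1, hev, eventually_ge_atTop 100,
    Real.tendsto_log_atTop.eventually_ge_atTop (2 * Real.pi * lam)] with T t1 t2 t3 t4 t5 h hh0 hh1
  have hT0 : 0 < T := by linarith
  have hpi := Real.pi_gt_three
  set L := Real.log T with hL
  set σ := Real.sqrt (Real.log L) with hσ
  have hL0 : 0 < L := lt_of_lt_of_le (by positivity) t5
  have hσ1 : 1 ≤ σ := by rw [hσ, Real.one_le_sqrt]; exact t2
  have hσ2 : σ ^ 2 = Real.log L := Real.sq_sqrt (by linarith)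
  set h0 := 2 * Real.pi * lam / L with hh0'
  have hh00 : 0 < h0 := by positivity
  have hh01 : h0 ≤ 1 := by rw [hh0', div_le_one hL0]; exact t5
  -- windows
  have hw : ∀ k : ℝ, h0 ≤ k → k ≤ 2 * Real.pi →
      ∫ t in (T + L)..(2 * T - L - 7), |DN T (t + k) - DN T t| ≤ ε / 2 * (T * σ) := by
    intro k hk1 hk2
    have hm : MB (T + L) (2 * T - L - 7) (fun t => DN T (t + k) - DN T t) :=
      ((MB_DN T (by linarith : 0 < T + L + k)).shift).sub (MB_DN T (by linarith))
    have h1 := sq_to_abs hm (by linarith) (c := ε / 2 * σ) (by positivity) (t1 k hk1 hk2)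
    refine h1.trans ?_
    have e1 : (ε / 2) ^ 2 * (T * Real.log L) / (2 * (ε / 2 * σ)) = ε / 4 * (T * σ) := by
      rw [← hσ2]
      have : σ ≠ 0 := by positivity
      field_simp
      ring
    have e2 : ε / 2 * σ * (2 * T - L - 7 - (T + L)) / 2 ≤ ε / 4 * (T * σ) := by
      have : ε / 2 * σ * (2 * T - L - 7 - (T + L)) ≤ ε / 2 * σ * T :=
        mul_le_mul_of_nonneg_left (by linarith) (by positivity)
      linarith
    linarith
  have hA0 : 0 < T + L := by linarith
  have hAB : T + L ≤ 2 * T - L - 15 := by linarith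
  have m1 : MB (T + L) (2 * T - L - 15) (fun t => DN T (t + h) - DN T t) :=
    ((MB_DN T (by linarith : 0 < T + L + h)).shift).sub (MB_DN T hA0)
  have m2 : MB (T + L) (2 * T - L - 15) (fun t => DN T (t + (h + h0)) - DN T t) :=
    ((MB_DN T (by linarith : 0 < T + L + (h + h0))).shift).sub (MB_DN T hA0)
  have m3 : MB (T + L) (2 * T - L - 7) (fun t => |DN T (t + h0) - DN T t|) :=
    (((MB_DN T (by linarith : 0 < T + L + h0)).shift).sub (MB_DN T hA0)).abs
  have m4 : MB (T + L) (2 * T - L - 15) (fun t => |DN T (t + h + h0) - DN T (t + h)|) :=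
    MB.shift (f := fun t => |DN T (t + h0) - DN T t|)
      ((((MB_DN T (by linarith : 0 < T + L + h + h0)).shift).sub (MB_DN T (by linarith))).abs)
  have h1 : ∫ t in (T + L)..(2 * T - L - 15), |DN T (t + h) - DN T t| ≤
      ∫ t in (T + L)..(2 * T - L - 15), (|DN T (t + (h + h0)) - DN T t| + |DN T (t + h + h0) - DN T (t + h)|) := by
    refine intervalIntegral.integral_mono_on hAB (m1.abs.int hAB) ((m2.abs.add m4).int hAB) fun t _ => ?_
    have e1 : DN T (t + h) - DN T t = (DN T (t + (h + h0)) - DN T t) - (DN T (t + h + h0) - DN T (t + h)) := by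
      rw [← add_assoc]; ring
    rw [e1]
    exact abs_sub _ _
  refine h1.trans ?_
  rw [intervalIntegral.integral_add (m2.abs.int hAB) (m4.int hAB)]
  have h2 : ∫ t in (T + L)..(2 * T - L - 15), |DN T (t + (h + h0)) - DN T t| ≤ ε / 2 * (T * σ) := by
    refine le_trans ?_ (hw (h + h0) (by linarith) (by linarith))
    have m5 : MB (T + L) (2 * T - L - 7) (fun t => |DN T (t + (h + h0)) - DN T t|) :=
      (((MB_DN T (by linarith : 0 < T + L + (h + h0))).shift).sub (MB_DN T hA0)).abs
    exact intervalIntegral.integral_mono_interval le_rfl hAB (by linarith)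
      (Eventually.of_forall fun _ => abs_nonneg _) (m5.int (by linarith))
  have h3 : ∫ t in (T + L)..(2 * T - L - 15), |DN T (t + h + h0) - DN T (t + h)| ≤ ε / 2 * (T * σ) := by
    refine le_trans ?_ (hw h0 le_rfl (by linarith))
    exact tr_le (F := fun t => |DN T (t + h0) - DN T t|) m3 (fun t => abs_nonneg _) (by linarith) hAB (by linarith)
  linarith

/-- positive translates -/
theorem tel (hMVB : P_MVB) (hDX : P_DX) (ε : ℝ) (hε : 0 < ε) : ∀ᶠ T : ℝ in atTop, ∀ y A' B' : ℝ, 0 ≤ y →
    y ≤ Real.log T → T + Real.log T ≤ A' → A' ≤ B' → B' ≤ 2 * T - 2 * Real.log T - 15 →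
    ∫ t in A'..B', |DN T (t + y) - DN T t| ≤ ε * ((y + 1) * (T * Real.sqrt (Real.log (Real.log T)))) := by
  filter_upwards [step1 hMVB hDX ε hε, eventually_ge_atTop 10, Real.tendsto_log_atTop.eventually_ge_atTop 1]
    with T t1 t2 t3 y A' B' hy0 hyL hA' hAB' hB'
  set L := Real.log T with hL
  set σ := Real.sqrt (Real.log L) with hσ
  have hσ0 : 0 ≤ σ := Real.sqrt_nonneg _
  set n : ℕ := ⌊y⌋₊ + 1 with hn
  have hn0 : (0 : ℝ) < n := by rw [hn]; positivity
  have hn1 : (n : ℝ) ≤ y + 1 := by
    rw [hn]; push_cast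
    have := Nat.floor_le hy0
    linarith
  have hn2 : y < n := by
    rw [hn]; push_cast
    exact Nat.lt_floor_add_one y
  set δ := y / n with hδ
  have hδ0 : 0 ≤ δ := by positivity
  have hδ1 : δ ≤ 1 := by rw [hδ, div_le_one hn0]; exact hn2.le
  have hnδ : (n : ℝ) * δ = y := by rw [hδ]; field_simp
  have hkδ : ∀ k : ℕ, k < n → 0 ≤ (k : ℝ) * δ ∧ (k : ℝ) * δ ≤ L := by
    intro k hk
    have h1 : (k : ℝ) ≤ n := by exact_mod_cast hk.le
    have h2 : (k : ℝ) * δ ≤ n * δ := mul_le_mul_of_nonneg_right h1 hδ0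
    exact ⟨by positivity, by linarith⟩
  have hpt : ∀ t, |DN T (t + y) - DN T t| ≤ ∑ k ∈ Finset.range n, |DN T (t + k * δ + δ) - DN T (t + k * δ)| := by
    intro t
    have h1 := Finset.sum_range_sub (fun k : ℕ => DN T (t + k * δ)) n
    simp only [Nat.cast_zero, zero_mul, add_zero, hnδ] at h1
    rw [← h1]
    refine (Finset.abs_sum_le_sum_abs _ _).trans (le_of_eq ?_)
    refine Finset.sum_congr rfl fun k _ => ?_
    congr 3
    push_cast
    ring
  have hT0 : 0 < T := by linarith
  have mk : ∀ k ∈ Finset.range n, MB A' B' (fun t => |DN T (t + k * δ + δ) - DN T (t + k * δ)|) := by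
    intro k hk
    have h1 := hkδ k (Finset.mem_range.1 hk)
    exact MB.shift (f := fun t => |DN T (t + δ) - DN T t|)
      ((((MB_DN T (by linarith : 0 < A' + k * δ + δ)).shift).sub (MB_DN T (by linarith))).abs)
  have hLm : MB A' B' (fun t => |DN T (t + y) - DN T t|) :=
    (((MB_DN T (by linarith : 0 < A' + y)).shift).sub (MB_DN T (by linarith))).abs
  have hs : IntervalIntegrable (fun t => ∑ k ∈ Finset.range n, |DN T (t + k * δ + δ) - DN T (t + k * δ)|)
      volume A' B' := by
    have := IntervalIntegrable.sum (μ := volume) (a := A') (b := B') (Finset.range n)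
      (f := fun (k : ℕ) t => |DN T (t + k * δ + δ) - DN T (t + k * δ)|) (fun k hk => (mk k hk).int hAB')
    refine cast (congrArg (fun f => IntervalIntegrable f volume A' B') ?_) this
    funext t
    exact Finset.sum_apply _ _ _
  refine (intervalIntegral.integral_mono_on hAB' (hLm.int hAB') hs fun t _ => hpt t).trans ?_
  rw [intervalIntegral.integral_finsetSum fun k hk => (mk k hk).int hAB']
  calc ∑ k ∈ Finset.range n, ∫ t in A'..B', |DN T (t + k * δ + δ) - DN T (t + k * δ)|
      ≤ ∑ k ∈ Finset.range n, ε * (T * σ) := by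
        refine Finset.sum_le_sum fun k hk => ?_
        have h1 := hkδ k (Finset.mem_range.1 hk)
        refine le_trans ?_ (t1 δ hδ0 hδ1)
        exact tr_le (F := fun t => |DN T (t + δ) - DN T t|)
          ((((MB_DN T (by linarith : 0 < T + L + δ)).shift).sub (MB_DN T (by linarith))).abs)
          (fun t => abs_nonneg _) (by linarith) hAB' (by linarith)
    _ = n * (ε * (T * σ)) := by rw [Finset.sum_const, Finset.card_range, nsmul_eq_mul]
    _ ≤ (y + 1) * (ε * (T * σ)) := mul_le_mul_of_nonneg_right hn1 (by positivity)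
    _ = _ := by ring

/-- all translates -/
theorem tel2 (hMVB : P_MVB) (hDX : P_DX) (ε : ℝ) (hε : 0 < ε) : ∀ᶠ T : ℝ in atTop, ∀ y : ℝ, |y| ≤ Real.log T →
    ∫ t in (T + 3 * Real.log T)..(2 * T - 3 * Real.log T), |DN T (t + y) - DN T t| ≤
      ε * ((|y| + 1) * (T * Real.sqrt (Real.log (Real.log T)))) := by
  have hev : ∀ᶠ T : ℝ in atTop, 6 * Real.log T ≤ T := by
    have h1 := (Real.isLittleO_log_id_atTop).bound (c := 1 / 6) (by norm_num)
    filter_upwards [h1, eventually_ge_atTop 1] with T t1 t2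
    have hL : 0 ≤ Real.log T := Real.log_nonneg (by linarith)
    simp only [id, Real.norm_eq_abs] at t1
    rw [abs_of_nonneg hL, abs_of_nonneg (by linarith)] at t1
    linarith
  filter_upwards [tel hMVB hDX ε hε, eventually_ge_atTop 10, Real.tendsto_log_atTop.eventually_ge_atTop 15, hev]
    with T t1 t2 t3 t4 y hy
  have hy' := abs_le.1 hy
  rcases le_total 0 y with h0 | h0
  · rw [abs_of_nonneg h0] at hy ⊢
    exact t1 y _ _ h0 hy (by linarith) (by linarith) (by linarith)
  · rw [abs_of_nonpos h0] at hy ⊢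
    have h1 := t1 (-y) (T + 3 * Real.log T + y) (2 * T - 3 * Real.log T + y) (by linarith) hy (by linarith)
      (by linarith) (by linarith)
    refine le_trans (le_of_eq ?_) h1
    rw [← intervalIntegral.integral_comp_add_right (fun t => |DN T (t + -y) - DN T t|) y]
    refine intervalIntegral.integral_congr fun t _ => ?_
    rw [show t + y + -y = t by ring, abs_sub_comm]

end Pool.Agent.Q173.JL
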