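import Pool.Agent.Q173.JL.Apx2
import Pool.Agent.Q173.JL.Cmp
import Pool.Agent.TH850.UV.NVh
import Pool.Agent.H370R2.Dyadic
import Pool.Agent.Y141.SW.Exc

/-! # The displacement in windows -/

set_option autoImplicit false

namespace Pool.Agent.Q173.JL

open Complex Filter Topology MeasureTheory Set
open Pool.Agent.TH850.UV
open Pool.Agent.Y745.SW (Py Px P_MVB P_DX xT)
open H370 (zz Zf mult mem_Zf good_zeta NN NN_eq NN_add NN_mono)

/-- the smooth part of the counting function -/
noncomputable def MM (t : ℝ) : ℝ := t / (2 * Real.pi) * Real.log (t / (2 * Real.pi)) - t / (2 * Real.pi)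

/-- the displacement minus the sum over the small primes -/
noncomputable def DN (T t : ℝ) : ℝ := (NN riemannZeta 1 t : ℝ) - MM t - (1 / Real.pi) * (Px T t).im

/-! ### measurable and bounded on a compact interval -/

/-- measurable, and bounded on `[A, B]` -/
def MB (A B : ℝ) (f : ℝ → ℝ) : Prop := Measurable f ∧ ∃ M, ∀ t ∈ Icc A B, |f t| ≤ M

variable {A B : ℝ} {f g : ℝ → ℝ}

lemma MB.cont (hf : Continuous f) : MB A B f := by
  refine ⟨hf.measurable, ?_⟩
  obtain ⟨M, hM⟩ := (isCompact_Icc (a := A) (b := B)).exists_bound_of_continuousOn hf.continuousOn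
  exact ⟨M, fun t ht => by have := hM t ht; rwa [Real.norm_eq_abs] at this⟩

lemma MB.add (hf : MB A B f) (hg : MB A B g) : MB A B (fun t => f t + g t) := by
  obtain ⟨h1, M1, h2⟩ := hf
  obtain ⟨h3, M2, h4⟩ := hg
  exact ⟨h1.add h3, M1 + M2, fun t ht => (abs_add_le _ _).trans (add_le_add (h2 t ht) (h4 t ht))⟩

lemma MB.sub (hf : MB A B f) (hg : MB A B g) : MB A B (fun t => f t - g t) := by
  obtain ⟨h1, M1, h2⟩ := hf
  obtain ⟨h3, M2, h4⟩ := hg
  exact ⟨h1.sub h3, M1 + M2, fun t ht => (abs_sub _ _).trans (add_le_add (h2 t ht) (h4 t ht))⟩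

lemma MB.mul (hf : MB A B f) (hg : MB A B g) : MB A B (fun t => f t * g t) := by
  obtain ⟨h1, M1, h2⟩ := hf
  obtain ⟨h3, M2, h4⟩ := hg
  refine ⟨h1.mul h3, |M1| * |M2|, fun t ht => ?_⟩
  rw [abs_mul]
  exact mul_le_mul ((h2 t ht).trans (le_abs_self _)) ((h4 t ht).trans (le_abs_self _)) (abs_nonneg _)
    (abs_nonneg _)

lemma MB.sq (hf : MB A B f) : MB A B (fun t => f t ^ 2) := by
  have := hf.mul hf
  refine cast (congrArg _ ?_) this
  funext t; ring

lemma MB.abs (hf : MB A B f) : MB A B (fun t => |f t|) := by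
  obtain ⟨h1, M1, h2⟩ := hf
  exact ⟨measurable_norm.comp h1, M1, fun t ht => by rw [abs_abs]; exact h2 t ht⟩

lemma MB.int (hf : MB A B f) (hAB : A ≤ B) : IntervalIntegrable f volume A B := by
  obtain ⟨h1, M, h2⟩ := hf
  rw [intervalIntegrable_iff_integrableOn_Icc_of_le hAB]
  refine Measure.integrableOn_of_bounded (by rw [Real.volume_Icc]; exact ENNReal.ofReal_ne_top)
    h1.aestronglyMeasurable (M := M) ?_
  rw [ae_restrict_iff' measurableSet_Icc]
  exact Eventually.of_forall fun t ht => by rw [Real.norm_eq_abs]; exact h2 t ht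

lemma MB.mono {A' B' : ℝ} (hf : MB A B f) (h1 : A ≤ A') (h2 : B' ≤ B) : MB A' B' f :=
  ⟨hf.1, hf.2.imp fun _ h t ht => h t ⟨h1.trans ht.1, ht.2.trans h2⟩⟩

lemma MB.shift {c : ℝ} (hf : MB (A + c) (B + c) f) : MB A B (fun t => f (t + c)) := by
  obtain ⟨h1, M, h2⟩ := hf
  exact ⟨h1.comp (measurable_id.add_const c), M, fun t ht => h2 (t + c) ⟨by linarith [ht.1], by linarith [ht.2]⟩⟩

lemma NN_monotone : Monotone (fun t : ℝ => (NN riemannZeta 1 t : ℝ)) := fun a b hab => by
  show (NN riemannZeta 1 a : ℝ) ≤ NN riemannZeta 1 b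
  exact_mod_cast NN_mono good_zeta le_rfl le_rfl hab

lemma MB_NN (A B : ℝ) : MB A B (fun t => (NN riemannZeta 1 t : ℝ)) := by
  refine ⟨NN_monotone.measurable, NN riemannZeta 1 B, fun t ht => ?_⟩
  rw [abs_of_nonneg (Nat.cast_nonneg _)]
  exact NN_monotone ht.2

lemma MM_cont : ContinuousOn MM (Ioi 0) := by
  unfold MM
  have hpi := Real.pi_pos
  refine ContinuousOn.sub (ContinuousOn.mul (by fun_prop) ?_) (by fun_prop)
  refine ContinuousOn.log (by fun_prop) fun t ht => ?_
  have : (0 : ℝ) < t := ht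
  positivity

lemma MM_meas : Measurable MM := by
  unfold MM
  exact ((measurable_id.div_const _).mul (Real.measurable_log.comp (measurable_id.div_const _))).sub
    (measurable_id.div_const _)

lemma MB_MM (hA : 0 < A) : MB A B MM := by
  refine ⟨MM_meas, ?_⟩
  obtain ⟨M, hM⟩ := (isCompact_Icc (a := A) (b := B)).exists_bound_of_continuousOn
    (MM_cont.mono fun t ht => lt_of_lt_of_le hA ht.1)
  exact ⟨M, fun t ht => by have := hM t ht; rwa [Real.norm_eq_abs] at this⟩

lemma Pim_cont (T : ℝ) : Continuous (fun t => (Px T t).im) :=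
  Complex.continuous_im.comp (Pool.Agent.Y141.SW.Px_cont T)

lemma MB_DN (T : ℝ) (hA : 0 < A) : MB A B (DN T) :=
  ((MB_NN A B).sub (MB_MM hA)).sub (MB.cont (continuous_const.mul (Pim_cont T)))

/-- the smooth part in a window -/
lemma MM_diff {T t h : ℝ} (hT : 10 ≤ T) (ht : T ≤ t) (hh : 0 ≤ h) (hh7 : h ≤ 7) (ht2 : t + h ≤ 2 * T) :
    |MM (t + h) - MM t - h * Real.log T / (2 * Real.pi)| ≤ 4 := by
  have hpi := Real.pi_gt_three
  have hpi4 := Real.pi_lt_d2
  have hT0 : 0 < T := by linarith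
  set g : ℝ → ℝ := fun x => MM x - x * Real.log T / (2 * Real.pi) with hg
  have hd : ∀ x ∈ Icc t (t + h), HasDerivWithinAt g ((Real.log (x / (2 * Real.pi)) - Real.log T) / (2 * Real.pi))
      (Icc t (t + h)) x := by
    intro x hx
    have hx0 : 0 < x := by linarith [hx.1]
    have hx1 : x / (2 * Real.pi) ≠ 0 := by positivity
    have h1 : HasDerivAt (fun x : ℝ => x / (2 * Real.pi)) (1 / (2 * Real.pi)) x :=
      (hasDerivAt_id x).div_const _
    have h2 := h1.log hx1
    have h3 := (h1.mul h2).sub h1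
    have h4 : HasDerivAt (fun x : ℝ => x * Real.log T / (2 * Real.pi)) (1 * Real.log T / (2 * Real.pi)) x :=
      ((hasDerivAt_id x).mul_const _).div_const _
    have h5 := h3.sub h4
    refine (h5.congr_deriv ?_).hasDerivWithinAt
    field_simp
    ring
  have hb : ∀ x ∈ Ico t (t + h), ‖(Real.log (x / (2 * Real.pi)) - Real.log T) / (2 * Real.pi)‖ ≤ 4 / 7 := by
    intro x hx
    have hx0 : 0 < x := by linarith [hx.1]
    have h1 : Real.log (x / (2 * Real.pi)) ≤ Real.log T := by
      apply Real.log_le_log (by positivity)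
      rw [div_le_iff₀ (by positivity)]
      nlinarith [hx.2]
    have h2 : Real.log T - 2 ≤ Real.log (x / (2 * Real.pi)) := by
      have h3 : Real.log (T / (2 * Real.pi)) ≤ Real.log (x / (2 * Real.pi)) := by
        apply Real.log_le_log (by positivity)
        apply div_le_div_of_nonneg_right _ (by positivity)
        linarith [hx.1]
      rw [Real.log_div hT0.ne' (by positivity)] at h3
      have h4 : Real.log (2 * Real.pi) ≤ 2 := by
        rw [Real.log_le_iff_le_exp (by positivity)]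
        have h5 : (2.7 : ℝ) < Real.exp 1 := by linarith [Real.exp_one_gt_d9]
        have h6 : Real.exp 2 = Real.exp 1 * Real.exp 1 := by rw [← Real.exp_add]; norm_num
        rw [h6]
        nlinarith
      linarith
    rw [Real.norm_eq_abs, abs_div, abs_of_pos (by positivity : 0 < 2 * Real.pi), div_le_iff₀ (by positivity),
      abs_le]
    constructor <;> nlinarith
  have h1 := norm_image_sub_le_of_norm_deriv_le_segment' hd hb (t + h) ⟨by linarith, le_rfl⟩
  simp only [hg, Real.norm_eq_abs] at h1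
  have e : MM (t + h) - MM t - h * Real.log T / (2 * Real.pi) =
      MM (t + h) - (t + h) * Real.log T / (2 * Real.pi) - (MM t - t * Real.log T / (2 * Real.pi)) := by ring
  rw [e]
  refine h1.trans ?_
  linarith

/-- the count in a window -/
lemma NN_NS {U1 U2 t h : ℝ} (hU : 1 ≤ U1) (h1 : U1 ≤ t) (h2 : t + h ≤ U2) (hh : 0 ≤ h) :
    NS (Zf riemannZeta U1 U2) h t = (NN riemannZeta 1 (t + h) : ℝ) - NN riemannZeta 1 t := by
  classical
  have h3 := NN_add good_zeta (a := 1) (b := t) (c := t + h) le_rfl (by linarith) (by linarith)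
  rw [h3]
  push_cast
  rw [add_sub_cancel_left, NN_eq good_zeta (by linarith : 1 ≤ t)]
  unfold NS mS
  push_cast
  have e : Zf riemannZeta t (t + h) = (Zf riemannZeta U1 U2).filter (fun s => t < s.im ∧ s.im ≤ t + h) := by
    ext s
    rw [Finset.mem_filter, mem_Zf good_zeta (by linarith : 1 ≤ t), mem_Zf good_zeta hU]
    constructor
    · rintro ⟨a1, a2, a3, a4, a5⟩
      exact ⟨⟨a1, a2, by linarith, by linarith, a5⟩, a3, a4⟩
    · rintro ⟨⟨a1, a2, a3, a4, a5⟩, a6, a7⟩
      exact ⟨a1, a2, a6, a7, a5⟩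
  rw [e, Finset.sum_filter]
  refine Finset.sum_congr rfl fun s _ => ?_
  split_ifs <;> simp

/-- **the displacement in windows, in mean square** -/
theorem win2 (hMVB : P_MVB) (hDX : P_DX) : ∃ lam : ℝ, 16 ≤ lam ∧ ∀ ε : ℝ, 0 < ε → ∀ᶠ T : ℝ in atTop, ∀ h : ℝ,
    2 * Real.pi * lam / Real.log T ≤ h → h ≤ 2 * Real.pi →
    ∫ t in (T + Real.log T)..(2 * T - Real.log T - 7), (DN T (t + h) - DN T t) ^ 2 ≤
      ε * (T * Real.log (Real.log T)) := by
  obtain ⟨lam, C, T0, hlam, hC, hT0, hapx⟩ := apx2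
  obtain ⟨C2, hC2, hdm⟩ := diff_ms hMVB hlam
  refine ⟨lam, hlam, fun ε hε => ?_⟩
  have hll : Tendsto (fun T : ℝ => Real.log (Real.log T)) atTop atTop :=
    Real.tendsto_log_atTop.comp Real.tendsto_log_atTop
  have hdx := hDX (1 / 8) (ε / 4) (by norm_num) (by norm_num) (by positivity)
  have hev : ∀ᶠ T : ℝ in atTop, 2 * Real.log T + 8 ≤ T := by
    have h1 := (Real.isLittleO_log_id_atTop).bound (c := 1 / 4) (by norm_num)
    filter_upwards [h1, eventually_ge_atTop 16] with T t1 t2
    have hL : 0 ≤ Real.log T := Real.log_nonneg (by linarith)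
    simp only [id, Real.norm_eq_abs] at t1
    rw [abs_of_nonneg hL, abs_of_nonneg (by linarith)] at t1
    linarith
  filter_upwards [hdm, hdx, hll.eventually_ge_atTop (max 1 (40 * (C + C2 + 16) / ε)), eventually_ge_atTop T0,
    hev, eventually_ge_atTop 1024] with T t1 t2 t3 t4 t5 t6 h hh1 hh2
  have hpi := Real.pi_gt_three
  have hpi4 := Real.pi_lt_d2
  have hT0' : 0 < T := by linarith
  set L := Real.log T with hL
  have hL1 : 0 < L := Real.log_pos (by linarith)
  have hlam0 : 0 < lam := by linarith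
  have hh0 : 0 < h := lt_of_lt_of_le (by positivity) hh1
  have hh7 : h ≤ 7 := by linarith
  set a := h * L / (2 * Real.pi) with ha
  have hah : 2 * Real.pi * a / L = h := by rw [ha]; field_simp
  have ha1 : lam ≤ a := by
    rw [ha, le_div_iff₀ (by positivity)]
    rw [div_le_iff₀ hL1] at hh1
    linarith
  have ha2 : a ≤ L := by
    rw [ha, div_le_iff₀ (by positivity)]
    nlinarith
  obtain ⟨U1, U2, hU1, hU1', hU2, hU2', hint⟩ := hapx T t4
  have hms := hint a ha1 ha2
  rw [← hL, hah] at hms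
  set l := L / lam with hl
  set X := XT T with hX
  have hAB : T + L ≤ 2 * T - L - 7 := by linarith
  set A := T + L with hAd
  set B := 2 * T - L - 7 with hBd
  -- the pieces
  have hDc := Db_cont l h X
  have hPyc : Continuous fun t => (Py X t).im := Complex.continuous_im.comp (Pool.Agent.Y141.SW.Py_cont X)
  have hPxc := Pim_cont T
  set x1 : ℝ → ℝ := fun t => NS (Zf riemannZeta U1 U2) h t - a + Db l h X t with hx1
  set x2 : ℝ → ℝ := fun t => Db l h X t - (1 / Real.pi) * ((Py X t).im - (Py X (t + h)).im) with hx2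
  set x3 : ℝ → ℝ := fun t => (Py X t).im - (Px T t).im with hx3
  set x5 : ℝ → ℝ := fun t => MM (t + h) - MM t - a with hx5
  have hx2c : Continuous x2 := by
    simp only [hx2]
    exact hDc.sub (continuous_const.mul (hPyc.sub (hPyc.comp (continuous_id.add continuous_const))))
  have hx3c : Continuous x3 := hPyc.sub hPxc
  have hx4c : Continuous (fun t => x3 (t + h)) := hx3c.comp (continuous_id.add continuous_const)
  have hA0 : 0 < A := by linarith
  have m1 : MB A B x1 := by
    refine MB.add (MB.sub ⟨NS_meas _ _, (∑ s ∈ Zf riemannZeta U1 U2, mS s), fun t _ => ?_⟩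
      (MB.cont continuous_const)) (MB.cont hDc)
    rw [abs_of_nonneg (NS_nonneg _ _ _)]
    exact NS_le _ _ _
  have hkey : ∀ t ∈ Icc A B, (DN T (t + h) - DN T t) ^ 2 ≤
      5 * x1 t ^ 2 + 5 * x2 t ^ 2 + (x3 t ^ 2 + x3 (t + h) ^ 2) + 80 := by
    intro t ht
    have e1 := NN_NS (U1 := U1) (U2 := U2) (t := t) (h := h) (by linarith) (by linarith [ht.1])
      (by linarith [ht.2]) hh0.le
    have e2 : DN T (t + h) - DN T t = x1 t - x2 t - (1 / Real.pi) * x3 t + (1 / Real.pi) * x3 (t + h) - x5 t := by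
      simp only [DN, hx1, hx2, hx3, hx5, e1]
      ring
    have e3 : |x5 t| ≤ 4 := by
      have := MM_diff (T := T) (t := t) (h := h) (by linarith) (by linarith [ht.1]) hh0.le hh7 (by linarith [ht.2])
      simp only [hx5, ha]
      exact this
    have e4 : x5 t ^ 2 ≤ 16 := by
      rw [← sq_abs]; nlinarith [abs_nonneg (x5 t)]
    have e5 : (1 / Real.pi) ^ 2 ≤ 1 / 9 := by
      have : 1 / Real.pi ≤ 1 / 3 := one_div_le_one_div_of_le (by norm_num) hpi.le
      have h0 : 0 ≤ 1 / Real.pi := by positivity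
      nlinarith
    rw [e2]
    generalize x1 t = y1
    generalize x2 t = y2
    generalize x3 t = y3
    generalize x3 (t + h) = y4
    generalize x5 t = y5 at e4 ⊢
    generalize 1 / Real.pi = p at e5 ⊢
    have k1 : (y1 - y2 - p * y3 + p * y4 - y5) ^ 2 ≤
        5 * (y1 ^ 2 + y2 ^ 2 + (p * y3) ^ 2 + (p * y4) ^ 2 + y5 ^ 2) := by
      linarith [sq_nonneg (y1 + y2), sq_nonneg (y1 + p * y3), sq_nonneg (y1 - p * y4), sq_nonneg (y1 + y5),
        sq_nonneg (y2 - p * y3), sq_nonneg (y2 + p * y4), sq_nonneg (y2 - y5), sq_nonneg (p * y3 + p * y4),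
        sq_nonneg (p * y3 - y5), sq_nonneg (p * y4 + y5)]
    have k2 : (p * y3) ^ 2 ≤ 1 / 9 * y3 ^ 2 := by
      rw [mul_pow]; exact mul_le_mul_of_nonneg_right e5 (sq_nonneg _)
    have k3 : (p * y4) ^ 2 ≤ 1 / 9 * y4 ^ 2 := by
      rw [mul_pow]; exact mul_le_mul_of_nonneg_right e5 (sq_nonneg _)
    have k4 := sq_nonneg y3
    have k5 := sq_nonneg y4
    linarith
  have mD : MB A B (fun t => (DN T (t + h) - DN T t) ^ 2) :=
    (((MB_DN T (by linarith : 0 < A + h)).shift).sub (MB_DN T hA0)).sq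
  have mx : MB A B (fun t => 5 * x1 t ^ 2 + 5 * x2 t ^ 2 + (x3 t ^ 2 + x3 (t + h) ^ 2) + 80) := by
    refine MB.add (MB.add (MB.add ((MB.cont continuous_const).mul m1.sq) (MB.cont (by fun_prop)))
      (MB.cont (by fun_prop))) (MB.cont continuous_const)
  have hstep := intervalIntegral.integral_mono_on hAB (mD.int hAB) (mx.int hAB) hkey
  refine hstep.trans ?_
  have i1 : IntervalIntegrable (fun t => 5 * x1 t ^ 2) volume A B := ((MB.cont continuous_const).mul m1.sq).int hAB
  have i2 : IntervalIntegrable (fun t => 5 * x2 t ^ 2) volume A B := Continuous.intervalIntegrable (by fun_prop) _ _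
  have i3 : IntervalIntegrable (fun t => x3 t ^ 2) volume A B := Continuous.intervalIntegrable (by fun_prop) _ _
  have i4 : IntervalIntegrable (fun t => x3 (t + h) ^ 2) volume A B := Continuous.intervalIntegrable (by fun_prop) _ _
  have i5 : IntervalIntegrable (fun _ : ℝ => (80 : ℝ)) volume A B := Continuous.intervalIntegrable (by fun_prop) _ _
  rw [intervalIntegral.integral_add ((i1.add i2).add (i3.add i4)) i5,
    intervalIntegral.integral_add (i1.add i2) (i3.add i4), intervalIntegral.integral_add i1 i2,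
    intervalIntegral.integral_add i3 i4, intervalIntegral.integral_const_mul, intervalIntegral.integral_const_mul,
    intervalIntegral.integral_const, smul_eq_mul]
  -- the bounds
  have hsub : ∀ (F : ℝ → ℝ), Continuous F → (∀ t, 0 ≤ F t) → ∀ A' B' : ℝ, T ≤ A' → A' ≤ B' → B' ≤ 2 * T →
      ∫ t in A'..B', F t ≤ ∫ t in T..(2 * T), F t := by
    intro F hF hF0 A' B' h1 h2 h3
    exact intervalIntegral.integral_mono_interval h1 h2 h3 (Eventually.of_forall hF0) (hF.intervalIntegrable _ _)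
  have b1 : ∫ t in A..B, x1 t ^ 2 ≤ C * T := hms
  have b2 : ∫ t in A..B, x2 t ^ 2 ≤ C2 * T :=
    (hsub (fun t => x2 t ^ 2) (by fun_prop) (fun t => sq_nonneg _) A B (by linarith) hAB (by linarith)).trans (t1 h)
  have hy1 : T ^ (1 / 8 : ℝ) / 2 ≤ (X : ℝ) := by
    have h1 := Nat.lt_floor_add_one (T ^ (1 / 8 : ℝ))
    have h2 : 2 ≤ T ^ (1 / 8 : ℝ) := by
      calc (2 : ℝ) = (2 ^ (8 : ℝ)) ^ (1 / 8 : ℝ) := by
            rw [← Real.rpow_mul (by norm_num)]; norm_num
        _ ≤ T ^ (1 / 8 : ℝ) := by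
            apply Real.rpow_le_rpow (by positivity) _ (by norm_num)
            have : (2 : ℝ) ^ (8 : ℝ) = 256 := by
              rw [show (8 : ℝ) = ((8 : ℕ) : ℝ) by norm_num, Real.rpow_natCast]; norm_num
            linarith
    have h3 : (X : ℝ) = (⌊T ^ (1 / 8 : ℝ)⌋₊ : ℝ) := rfl
    rw [h3]
    linarith
  have hy2 : (X : ℝ) ≤ 2 * T ^ (1 / 8 : ℝ) := by
    have h1 : (X : ℝ) ≤ T ^ (1 / 8 : ℝ) := Nat.floor_le (by positivity)
    have : 0 < T ^ (1 / 8 : ℝ) := by positivity
    linarith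
  have b0 : ∫ t in T..(2 * T), x3 t ^ 2 ≤ ε / 4 * (T * Real.log L) := by
    refine le_trans ?_ (t2 X hy1 hy2)
    have hc1 : Continuous fun t => ‖Py X t - Px T t‖ ^ 2 :=
      ((Pool.Agent.Y141.SW.Py_cont X).sub (Pool.Agent.Y141.SW.Px_cont T)).norm.pow 2
    refine intervalIntegral.integral_mono_on (by linarith) (Continuous.intervalIntegrable (by fun_prop) _ _)
      (hc1.intervalIntegrable _ _) fun t _ => ?_
    simp only [hx3]
    rw [← Complex.sub_im, ← sq_abs]
    exact pow_le_pow_left₀ (abs_nonneg _) (Complex.abs_im_le_norm _) 2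
  have b3 : ∫ t in A..B, x3 t ^ 2 ≤ ε / 4 * (T * Real.log L) :=
    (hsub (fun t => x3 t ^ 2) (by fun_prop) (fun t => sq_nonneg _) A B (by linarith) hAB (by linarith)).trans b0
  have b4 : ∫ t in A..B, x3 (t + h) ^ 2 ≤ ε / 4 * (T * Real.log L) := by
    rw [intervalIntegral.integral_comp_add_right (fun t => x3 t ^ 2) h]
    exact (hsub (fun t => x3 t ^ 2) (by fun_prop) (fun t => sq_nonneg _) (A + h) (B + h) (by linarith)
      (by linarith) (by linarith)).trans b0
  have b5 : (B - A) * 80 ≤ 80 * T := by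
    have : B - A ≤ T := by linarith
    linarith
  have b6 : 1 ≤ Real.log L := (le_max_left _ _).trans t3
  have b7 : 40 * (C + C2 + 16) / ε ≤ Real.log L := (le_max_right _ _).trans t3
  rw [div_le_iff₀ hε] at b7
  have b8 : T * (40 * (C + C2 + 16)) ≤ T * (Real.log L * ε) := mul_le_mul_of_nonneg_left b7 hT0'.le
  have b9 : 0 ≤ T * (C + C2) := by positivity
  have b10 : ε / 4 * (T * Real.log L) = T * (Real.log L * ε) / 4 := by ring
  have b11 : ε * (T * Real.log L) = T * (Real.log L * ε) := by ring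
  rw [b10] at b3 b4
  rw [b11]
  linarith

end Pool.Agent.Q173.JL
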